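import Mathlib

/-!
# The Cauchy kernel in `L ^ q`, `q < 2`, and Hölder pairings
-/

set_option autoImplicit false

open Topology Filter Metric Set MeasureTheory
open scoped ENNReal

namespace Pool.Agent.X151.MR

/-- exponents as extended nonnegative numbers -/
noncomputable abbrev P (p : ℝ) : ℝ≥0∞ := ENNReal.ofReal p

/-- the conjugate exponent -/
noncomputable def qq (p : ℝ) : ℝ := p / (p - 1)

theorem qq_conj {p : ℝ} (hp : 2 < p) : Real.HolderConjugate p (qq p) :=
  Real.HolderConjugate.conjExponent (by linarith)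

theorem qq_lt {p : ℝ} (hp : 2 < p) : 1 < qq p ∧ qq p < 2 := by
  unfold qq
  have h : 0 < p - 1 := by linarith
  constructor
  · rw [one_lt_div h]
    linarith
  · rw [div_lt_iff₀ h]
    linarith

/-- the truncated kernel `1/u` -/
noncomputable def kr (A : ℝ) : ℂ → ℂ := indicator (ball 0 A) fun u => u⁻¹

theorem kr_meas (A : ℝ) : Measurable (kr A) := measurable_inv.indicator measurableSet_ball

theorem kr_memLp {q : ℝ} (hq1 : 1 < q) (hq : q < 2) (A : ℝ) : MemLp (kr A) (P q) volume := by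
  refine ⟨(kr_meas A).aestronglyMeasurable, ?_⟩
  have hq0 : 0 < q := by linarith
  rw [eLpNorm_lt_top_iff_lintegral_rpow_enorm_lt_top (by simpa using hq0) ENNReal.ofReal_ne_top,
    ENNReal.toReal_ofReal hq0.le]
  have h1 : IntegrableOn (fun u : ℂ => ‖u‖ ^ (-q)) (ball 0 A) := by
    have := (integrableOn_fun_norm_addHaar (volume : Measure ℂ) (f := fun y : ℝ => y ^ (-q)) (r := A)).2
    apply this
    rw [Complex.finrank_real_complex]
    by_cases hA : 0 < A
    · have h2 : IntegrableOn (fun y : ℝ => y ^ (1 - q)) (Ioo 0 A) :=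
        (intervalIntegral.integrableOn_Ioo_rpow_iff hA).2 (by linarith)
      refine h2.congr_fun ?_ measurableSet_Ioo
      intro y hy
      have hy0 : 0 < y := hy.1
      change y ^ (1 - q) = y ^ (2 - 1) • y ^ (-q)
      rw [smul_eq_mul, sub_eq_add_neg, Real.rpow_add hy0, Real.rpow_one]
      norm_num
    · rw [Ioo_eq_empty hA]
      exact integrableOn_empty
  have h3 := h1.2
  rw [hasFiniteIntegral_iff_enorm] at h3
  rw [← lintegral_indicator measurableSet_ball] at h3
  refine lt_of_le_of_lt (lintegral_mono fun u => ?_) h3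
  beta_reduce
  by_cases hu : u ∈ ball (0 : ℂ) A
  · rw [indicator_of_mem hu, kr, indicator_of_mem hu]
    by_cases h0 : u = 0
    · rw [h0, inv_zero, enorm_zero, ENNReal.zero_rpow_of_pos hq0]
      exact zero_le
    · have hn : 0 < ‖u‖ := norm_pos_iff.mpr h0
      rw [← ofReal_norm, ← ofReal_norm, ENNReal.ofReal_rpow_of_nonneg (norm_nonneg _) hq0.le, norm_inv,
        Real.rpow_neg (norm_nonneg _), Real.norm_of_nonneg (by positivity), Real.inv_rpow (norm_nonneg _)]
  · rw [kr, indicator_of_notMem hu, enorm_zero, ENNReal.zero_rpow_of_pos hq0]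
    exact zero_le

/-- the truncated Cauchy kernel with pole `z` -/
noncomputable def kz (A : ℝ) (z : ℂ) : ℂ → ℂ := indicator (closedBall 0 A) fun s => (z - s)⁻¹

theorem kz_meas (A : ℝ) (z : ℂ) : Measurable (kz A z) :=
  (measurable_const.sub measurable_id).inv.indicator measurableSet_closedBall

theorem kz_le {A R : ℝ} {z : ℂ} (hz : ‖z‖ ≤ R) (s : ℂ) : ‖kz A z s‖ ≤ ‖kr (A + R + 1) (z - s)‖ := by
  by_cases hs : s ∈ closedBall (0 : ℂ) A
  · rw [kz, indicator_of_mem hs, kr, indicator_of_mem]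
    rw [mem_closedBall_zero_iff] at hs
    rw [mem_ball_zero_iff]
    have := norm_sub_le z s
    linarith
  · rw [kz, indicator_of_notMem hs, norm_zero]
    exact norm_nonneg _

theorem kz_norm {q : ℝ} {A R : ℝ} {z : ℂ} (hz : ‖z‖ ≤ R) :
    eLpNorm (kz A z) (P q) volume ≤ eLpNorm (kr (A + R + 1)) (P q) volume := by
  have h1 : eLpNorm (fun s => kr (A + R + 1) (z - s)) (P q) volume =
      eLpNorm (kr (A + R + 1)) (P q) volume :=
    eLpNorm_comp_measurePreserving (kr_meas _).aestronglyMeasurable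
      (Measure.measurePreserving_sub_left (volume : Measure ℂ) z)
  rw [← h1]
  exact eLpNorm_mono fun s => kz_le hz s

theorem kz_memLp {q : ℝ} (hq1 : 1 < q) (hq : q < 2) (A : ℝ) (z : ℂ) : MemLp (kz A z) (P q) volume :=
  ⟨(kz_meas A z).aestronglyMeasurable, (kz_norm le_rfl).trans_lt (kr_memLp hq1 hq _).2⟩

theorem holder_pair {p : ℝ} (hp : 2 < p) {k φ : ℂ → ℂ} (hk : MemLp k (P (qq p)) volume)
    (hφ : MemLp φ (P p) volume) : Integrable (fun z => k z * φ z) ∧
      ‖∫ z, k z * φ z‖ ≤ (eLpNorm k (P (qq p)) volume).toReal * (eLpNorm φ (P p) volume).toReal := by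
  have : ENNReal.HolderConjugate (P (qq p)) (P p) := (qq_conj hp).symm.ennrealOfReal
  have hi : Integrable (fun z => k z * φ z) := hk.integrable_mul hφ
  refine ⟨hi, ?_⟩
  have h1 : eLpNorm (fun z => k z * φ z) 1 volume ≤
      eLpNorm k (P (qq p)) volume * eLpNorm φ (P p) volume := by
    have := eLpNorm_smul_le_mul_eLpNorm (p := P (qq p)) (q := P p) (r := 1) hφ.1 hk.1
    exact this
  have h2 : ‖∫ z, k z * φ z‖ₑ ≤ eLpNorm k (P (qq p)) volume * eLpNorm φ (P p) volume := by
    refine (enorm_integral_le_lintegral_enorm _).trans ?_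
    rwa [eLpNorm_one_eq_lintegral_enorm] at h1
  rw [← ENNReal.toReal_mul, ← toReal_enorm]
  exact ENNReal.toReal_mono (ENNReal.mul_ne_top hk.2.ne hφ.2.ne) h2

end Pool.Agent.X151.MR
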