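import Mathlib
import Pool.Agent.X151.MR.Ker
import Pool.Agent.Split938.Basic
import Pool.Agent.H713R5.QJ.TAF

/-!
# A class of functions with locally `p`-integrable derivatives
-/

set_option autoImplicit false

open Topology Filter Metric Set MeasureTheory Pool.Agent.Split938 Polynomial
open scoped ContDiff ENNReal

namespace Pool.Agent.X151.MR

/-- local `L ^ p` convergence of continuous functions -/
structure LT (p : ℝ) (v : ℕ → ℂ → ℂ) (φ : ℂ → ℂ) : Prop where
  cont : ∀ k, Continuous (v k)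
  meas : Measurable φ
  tend : ∀ R : ℝ, Tendsto (fun k => eLpNorm (fun z => v k z - φ z) (P p)
    (volume.restrict (closedBall 0 R))) atTop (𝓝 0)

/-- locally uniform convergence -/
structure UC (w : ℕ → ℂ → ℂ) (W : ℂ → ℂ) : Prop where
  cont : ∀ k, Continuous (w k)
  lim : Continuous W
  tend : ∀ R : ℝ, ∀ ε > 0, ∀ᶠ k in atTop, ∀ z ∈ closedBall (0 : ℂ) R, ‖w k z - W z‖ ≤ ε

theorem one_le {p : ℝ} (hp : 2 ≤ p) : 1 ≤ P p := by
  rw [← ENNReal.ofReal_one]
  exact ENNReal.ofReal_le_ofReal (by linarith)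

theorem cont_ball {v : ℂ → ℂ} (hv : Continuous v) (p R : ℝ) :
    MemLp v (P p) (volume.restrict (closedBall 0 R)) := by
  obtain ⟨M, hM⟩ := (isCompact_closedBall (0 : ℂ) R).exists_bound_of_continuousOn hv.continuousOn
  have : IsFiniteMeasure ((volume : Measure ℂ).restrict (closedBall 0 R)) :=
    ⟨by rw [Measure.restrict_apply_univ]; exact measure_closedBall_lt_top⟩
  exact MemLp.of_bound hv.aestronglyMeasurable M
    ((ae_restrict_iff' measurableSet_closedBall).2 (Eventually.of_forall hM))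

theorem LT.memLp {p : ℝ} (hp : 2 ≤ p) {v : ℕ → ℂ → ℂ} {φ : ℂ → ℂ} (h : LT p v φ) (R : ℝ) :
    MemLp φ (P p) (volume.restrict (closedBall 0 R)) := by
  obtain ⟨k, hk⟩ := ((h.tend R).eventually (gt_mem_nhds (show (0 : ℝ≥0∞) < 1 from zero_lt_one))).exists
  have h1 : MemLp (fun z => v k z - φ z) (P p) (volume.restrict (closedBall 0 R)) :=
    ⟨((h.cont k).measurable.sub h.meas).aestronglyMeasurable, hk.trans ENNReal.one_lt_top⟩
  have h2 := (cont_ball (h.cont k) p R).sub h1
  refine h2.ae_eq (Eventually.of_forall fun z => ?_)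
  simp

theorem LT.add {p : ℝ} (hp : 2 ≤ p) {v w : ℕ → ℂ → ℂ} {φ ψ : ℂ → ℂ} (h : LT p v φ) (h' : LT p w ψ) :
    LT p (fun k z => v k z + w k z) (fun z => φ z + ψ z) := by
  refine ⟨fun k => (h.cont k).add (h'.cont k), h.meas.add h'.meas, fun R => ?_⟩
  have h1 := (h.tend R).add (h'.tend R)
  rw [add_zero] at h1
  refine tendsto_of_tendsto_of_tendsto_of_le_of_le tendsto_const_nhds h1 (fun _ => zero_le)
    (fun k => ?_)
  have e1 : (fun z => v k z + w k z - (φ z + ψ z)) =
      (fun z => v k z - φ z) + fun z => w k z - ψ z := by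
    funext z
    simp only [Pi.add_apply]
    ring
  beta_reduce
  rw [e1]
  exact eLpNorm_add_le ((h.cont k).measurable.sub h.meas).aestronglyMeasurable
    ((h'.cont k).measurable.sub h'.meas).aestronglyMeasurable (one_le hp)

theorem LT.mul {p : ℝ} (hp : 2 ≤ p) {v w : ℕ → ℂ → ℂ} {φ W : ℂ → ℂ} (h : LT p v φ) (h' : UC w W) :
    LT p (fun k z => w k z * v k z) (fun z => W z * φ z) := by
  refine ⟨fun k => (h'.cont k).mul (h.cont k), h'.lim.measurable.mul h.meas, fun R => ?_⟩
  set ν := (volume : Measure ℂ).restrict (closedBall 0 R) with hν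
  obtain ⟨M, hM⟩ := (isCompact_closedBall (0 : ℂ) R).exists_bound_of_continuousOn h'.lim.continuousOn
  have hM0 : 0 ≤ max M 0 := le_max_right _ _
  have hφ := (h.memLp hp R).2.ne
  have t1 : Tendsto (fun k => eLpNorm (fun z => w k z * (v k z - φ z)) (P p) ν) atTop (𝓝 0) := by
    have h1 := ENNReal.Tendsto.const_mul (a := ENNReal.ofReal (max M 0 + 1)) (h.tend R)
      (Or.inr ENNReal.ofReal_ne_top)
    rw [mul_zero] at h1
    refine tendsto_of_tendsto_of_tendsto_of_le_of_le' tendsto_const_nhds h1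
      (Eventually.of_forall fun _ => zero_le) ?_
    filter_upwards [h'.tend R 1 one_pos] with k hk
    refine eLpNorm_le_mul_eLpNorm_of_ae_le_mul ?_ _
    rw [hν, ae_restrict_iff' measurableSet_closedBall]
    refine Eventually.of_forall fun z hz => ?_
    rw [norm_mul]
    refine mul_le_mul_of_nonneg_right ?_ (norm_nonneg _)
    have h2 := hk z hz
    have h3 := hM z hz
    have h4 : ‖w k z‖ ≤ ‖w k z - W z‖ + ‖W z‖ := by
      simpa using norm_add_le (w k z - W z) (W z)
    linarith [le_max_left M 0]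
  have t2 : Tendsto (fun k => eLpNorm (fun z => (w k z - W z) * φ z) (P p) ν) atTop (𝓝 0) := by
    rw [ENNReal.tendsto_nhds_zero]
    intro ε hε
    obtain ⟨δ, hδ, hδN⟩ := ENNReal.exists_nnreal_pos_mul_lt hφ hε.ne'
    filter_upwards [h'.tend R δ (by exact_mod_cast hδ)] with k hk
    refine le_trans ?_ hδN.le
    have h1 : eLpNorm (fun z => (w k z - W z) * φ z) (P p) ν ≤
        ENNReal.ofReal δ * eLpNorm φ (P p) ν := by
      refine eLpNorm_le_mul_eLpNorm_of_ae_le_mul ?_ _
      rw [hν, ae_restrict_iff' measurableSet_closedBall]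
      refine Eventually.of_forall fun z hz => ?_
      rw [norm_mul]
      exact mul_le_mul_of_nonneg_right (hk z hz) (norm_nonneg _)
    rwa [ENNReal.ofReal_coe_nnreal] at h1
  have t3 := t1.add t2
  rw [add_zero] at t3
  refine tendsto_of_tendsto_of_tendsto_of_le_of_le tendsto_const_nhds t3 (fun _ => zero_le)
    (fun k => ?_)
  have e1 : (fun z => w k z * v k z - W z * φ z) =
      (fun z => w k z * (v k z - φ z)) + fun z => (w k z - W z) * φ z := by
    funext z
    simp only [Pi.add_apply]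
    ring
  beta_reduce
  rw [e1]
  exact eLpNorm_add_le ((h'.cont k).measurable.mul ((h.cont k).measurable.sub h.meas)).aestronglyMeasurable
    (((h'.cont k).measurable.sub h'.lim.measurable).mul h.meas).aestronglyMeasurable (one_le hp)

theorem UC.const {W : ℂ → ℂ} (hW : Continuous W) : UC (fun _ => W) W :=
  ⟨fun _ => hW, hW, fun R ε hε => Eventually.of_forall fun k z _ => by
    rw [sub_self, norm_zero]
    exact hε.le⟩

theorem UC.add {u v : ℕ → ℂ → ℂ} {U V : ℂ → ℂ} (hu : UC u U) (hv : UC v V) :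
    UC (fun k z => u k z + v k z) (fun z => U z + V z) := by
  refine ⟨fun k => (hu.cont k).add (hv.cont k), hu.lim.add hv.lim, fun R ε hε => ?_⟩
  filter_upwards [hu.tend R (ε / 2) (by positivity), hv.tend R (ε / 2) (by positivity)] with k h1 h2 z hz
  have e1 : u k z + v k z - (U z + V z) = (u k z - U z) + (v k z - V z) := by ring
  rw [e1]
  have := norm_add_le (u k z - U z) (v k z - V z)
  linarith [h1 z hz, h2 z hz]

theorem UC.mul {u v : ℕ → ℂ → ℂ} {U V : ℂ → ℂ} (hu : UC u U) (hv : UC v V) :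
    UC (fun k z => u k z * v k z) (fun z => U z * V z) := by
  refine ⟨fun k => (hu.cont k).mul (hv.cont k), hu.lim.mul hv.lim, fun R ε hε => ?_⟩
  obtain ⟨A, hA⟩ := (isCompact_closedBall (0 : ℂ) R).exists_bound_of_continuousOn hu.lim.continuousOn
  obtain ⟨B, hB⟩ := (isCompact_closedBall (0 : ℂ) R).exists_bound_of_continuousOn hv.lim.continuousOn
  set M := max (max A B) 0 + 1 with hM
  have hM1 : 1 ≤ M := by
    have := le_max_right (max A B) 0
    linarith
  set δ := min 1 (ε / (2 * M)) with hδ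
  have hδ0 : 0 < δ := lt_min one_pos (by positivity)
  have hδ1 : δ ≤ 1 := min_le_left _ _
  have hδ2 : δ * (2 * M) ≤ ε := by
    have : δ ≤ ε / (2 * M) := min_le_right _ _
    rwa [le_div_iff₀ (by positivity)] at this
  filter_upwards [hu.tend R δ hδ0, hv.tend R δ hδ0] with k h1 h2 z hz
  have a1 : ‖U z‖ ≤ M := by linarith [hA z hz, le_max_left A B, le_max_left (max A B) 0]
  have b1 : ‖v k z‖ ≤ M := by
    have h4 : ‖v k z‖ ≤ ‖v k z - V z‖ + ‖V z‖ := by
      simpa using norm_add_le (v k z - V z) (V z)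
    linarith [hB z hz, le_max_right A B, le_max_left (max A B) 0, h2 z hz]
  have e1 : u k z * v k z - U z * V z = (u k z - U z) * v k z + U z * (v k z - V z) := by ring
  rw [e1]
  refine (norm_add_le _ _).trans ?_
  rw [norm_mul, norm_mul]
  have c1 : ‖u k z - U z‖ * ‖v k z‖ ≤ δ * M :=
    mul_le_mul (h1 z hz) b1 (norm_nonneg _) hδ0.le
  have c2 : ‖U z‖ * ‖v k z - V z‖ ≤ M * δ :=
    mul_le_mul a1 (h2 z hz) (norm_nonneg _) (by linarith)
  nlinarith

theorem UC.pow {u : ℕ → ℂ → ℂ} {U : ℂ → ℂ} (hu : UC u U) (n : ℕ) :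
    UC (fun k z => u k z ^ n) (fun z => U z ^ n) := by
  induction n with
  | zero => simpa using UC.const (W := fun _ => (1 : ℂ)) continuous_const
  | succ n ih => simpa only [pow_succ] using ih.mul hu

theorem UC.comp {u : ℕ → ℂ → ℂ} {U : ℂ → ℂ} (hu : UC u U) {T : ℂ → ℂ} (hT : Continuous T) :
    UC (fun k z => u k (T z)) (fun z => U (T z)) := by
  refine ⟨fun k => (hu.cont k).comp hT, hu.lim.comp hT, fun R ε hε => ?_⟩
  obtain ⟨A, hA⟩ := (isCompact_closedBall (0 : ℂ) R).exists_bound_of_continuousOn hT.continuousOn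
  filter_upwards [hu.tend A ε hε] with k hk z hz
  exact hk _ (mem_closedBall_zero_iff.2 (hA z hz))

/-- continuous functions with locally `p`-integrable derivatives -/
def Cl (p : ℝ) (F φ ψ : ℂ → ℂ) : Prop :=
  ∃ u : ℕ → ℂ → ℂ, (∀ k, ContDiff ℝ 1 (u k)) ∧ UC u F ∧ LT p (fun k => dbar (u k)) φ ∧
    LT p (fun k => dz (u k)) ψ

theorem LT.const {p : ℝ} {v : ℂ → ℂ} (hv : Continuous v) : LT p (fun _ => v) v := by
  refine ⟨fun _ => hv, hv.measurable, fun R => ?_⟩
  simp

theorem Cl.of_contDiff {p : ℝ} {u : ℂ → ℂ} (hu : ContDiff ℝ 1 u) : Cl p u (dbar u) (dz u) :=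
  ⟨fun _ => u, fun _ => hu, UC.const hu.continuous, LT.const (dbar_continuous hu),
    LT.const (dz_continuous hu)⟩

theorem Cl.add {p : ℝ} (hp : 2 ≤ p) {F φ ψ G α β : ℂ → ℂ} (h : Cl p F φ ψ) (h' : Cl p G α β) :
    Cl p (fun z => F z + G z) (fun z => φ z + α z) (fun z => ψ z + β z) := by
  obtain ⟨u, u1, u2, u3, u4⟩ := h
  obtain ⟨v, v1, v2, v3, v4⟩ := h'
  refine ⟨fun k z => u k z + v k z, fun k => (u1 k).add (v1 k), u2.add v2, ?_, ?_⟩
  · convert u3.add hp v3 using 3 with k z
    exact dbar_add ((u1 k).differentiable (by simp) z) ((v1 k).differentiable (by simp) z)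
  · convert u4.add hp v4 using 3 with k z
    exact dz_add ((u1 k).differentiable (by simp) z) ((v1 k).differentiable (by simp) z)

theorem Cl.mul {p : ℝ} (hp : 2 ≤ p) {F φ ψ G α β : ℂ → ℂ} (h : Cl p F φ ψ) (h' : Cl p G α β) :
    Cl p (fun z => F z * G z) (fun z => F z * α z + G z * φ z) (fun z => F z * β z + G z * ψ z) := by
  obtain ⟨u, u1, u2, u3, u4⟩ := h
  obtain ⟨v, v1, v2, v3, v4⟩ := h'
  refine ⟨fun k z => u k z * v k z, fun k => (u1 k).mul (v1 k), u2.mul v2, ?_, ?_⟩
  · convert (v3.mul hp u2).add hp (u3.mul hp v2) using 3 with k z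
    rw [dbar_mul ((u1 k).differentiable (by simp) z) ((v1 k).differentiable (by simp) z)]
    ring
  · convert (v4.mul hp u2).add hp (u4.mul hp v2) using 3 with k z
    rw [dz_mul ((u1 k).differentiable (by simp) z) ((v1 k).differentiable (by simp) z)]
    ring

theorem Cl.const {p : ℝ} (a : ℂ) : Cl p (fun _ => a) (fun _ => 0) (fun _ => 0) := by
  have h := Cl.of_contDiff (p := p) (u := fun _ => a) contDiff_const
  have e1 : dbar (fun _ : ℂ => a) = fun _ => 0 := funext fun z => dbar_of_hasDerivAt (hasDerivAt_const z a)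
  have e2 : dz (fun _ : ℂ => a) = fun _ => 0 := funext fun z => dz_of_hasDerivAt (hasDerivAt_const z a)
  rwa [e1, e2] at h

theorem Cl.smul {p : ℝ} (hp : 2 ≤ p) {F φ ψ : ℂ → ℂ} (h : Cl p F φ ψ) (a : ℂ) :
    Cl p (fun z => a * F z) (fun z => a * φ z) (fun z => a * ψ z) := by
  have := (Cl.const (p := p) a).mul hp h
  simpa using this

theorem Cl.pow {p : ℝ} (hp : 2 ≤ p) {F φ ψ : ℂ → ℂ} (h : Cl p F φ ψ) (n : ℕ) :
    Cl p (fun z => F z ^ n) (fun z => n * F z ^ (n - 1) * φ z) (fun z => n * F z ^ (n - 1) * ψ z) := by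
  induction n with
  | zero => simpa using Cl.const (p := p) 1
  | succ n ih =>
    have h1 := ih.mul hp h
    have key : ∀ χ : ℂ → ℂ, (fun z => F z ^ n * χ z + F z * (n * F z ^ (n - 1) * χ z)) =
        fun z => ((n + 1 : ℕ) : ℂ) * F z ^ (n + 1 - 1) * χ z := by
      intro χ
      funext z
      rcases Nat.eq_zero_or_pos n with h0 | h0
      · subst h0
        simp
      · obtain ⟨m, rfl⟩ := Nat.exists_eq_succ_of_ne_zero h0.ne'
        simp only [Nat.succ_eq_add_one, Nat.add_sub_cancel]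
        push_cast
        ring
    rw [key, key] at h1
    simpa only [pow_succ] using h1

end Pool.Agent.X151.MR
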