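import Mathlib
import Pool.Agent.X151.PD.CCont
import Pool.Agent.Helper366.IV.CP
import Pool.Agent.Split938.Basic

/-!
# The Cauchy transform of smooth functions
-/

set_option autoImplicit false

open Topology Filter Metric Set MeasureTheory Pool.Agent.Split938
open scoped ContDiff ENNReal Convolution

namespace Pool.Agent.X151.MR

theorem locInt_inv : LocallyIntegrable (fun s : ℂ => s⁻¹) := by
  intro z
  refine ⟨ball 0 (‖z‖ + 1), isOpen_ball.mem_nhds (by simp), ?_⟩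
  have h1 := PD.CC.inv_norm_integrableOn (‖z‖ + 1)
  refine ⟨(measurable_inv).aestronglyMeasurable, ?_⟩
  have h2 := h1.2
  rw [hasFiniteIntegral_iff_enorm] at h2 ⊢
  refine lt_of_le_of_lt (le_of_eq (lintegral_congr fun s => ?_)) h2
  rw [← enorm_norm (s⁻¹), norm_inv]

/-- the Cauchy transform as a convolution -/
noncomputable def Cv (g : ℂ → ℂ) (z : ℂ) : ℂ := (Real.pi : ℂ)⁻¹ * ∫ s, s⁻¹ * g (z - s)

theorem Cv_conv (g : ℂ → ℂ) : Cv g = fun z => (Real.pi : ℂ)⁻¹ *
    ((fun s : ℂ => s⁻¹) ⋆[ContinuousLinearMap.mul ℝ ℂ, volume] g) z := rfl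

theorem contDiff_Cv {g : ℂ → ℂ} (hg : ContDiff ℝ 1 g) (hc : HasCompactSupport g) :
    ContDiff ℝ 1 (Cv g) := by
  rw [Cv_conv]
  refine contDiff_const.mul ?_
  exact_mod_cast hc.contDiff_convolution_right (n := 1) (ContinuousLinearMap.mul ℝ ℂ) locInt_inv
    (by exact_mod_cast hg)

theorem int_inv_mul {g : ℂ → ℂ} (hg : Continuous g) (hc : HasCompactSupport g) (z : ℂ) :
    Integrable fun s => s⁻¹ * g (z - s) := by
  have h1 : HasCompactSupport fun s => g (z - s) :=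
    hc.comp_homeomorph (Homeomorph.subLeft z)
  have h2 : Continuous fun s => g (z - s) := hg.comp (by fun_prop)
  have h3 := locInt_inv.integrable_smul_right_of_hasCompactSupport h2 h1
  exact h3

theorem fderiv_Cv {g : ℂ → ℂ} (hg : ContDiff ℝ 1 g) (hc : HasCompactSupport g) (z v : ℂ) :
    fderiv ℝ (Cv g) z v = (Real.pi : ℂ)⁻¹ * ∫ s, s⁻¹ * fderiv ℝ g (z - s) v := by
  have h1 := hc.hasFDerivAt_convolution_right (ContinuousLinearMap.mul ℝ ℂ) locInt_inv hg z
  have h2 : HasFDerivAt (Cv g) _ z := h1.const_mul ((Real.pi : ℂ)⁻¹)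
  rw [h2.fderiv, _root_.smul_apply, smul_eq_mul]
  congr 1
  have hD : Continuous (fderiv ℝ g) := hg.continuous_fderiv (by simp)
  have hDc : HasCompactSupport (fderiv ℝ g) := hc.fderiv ℝ
  have h3 : ConvolutionExistsAt (fun s : ℂ => s⁻¹) (fderiv ℝ g) z
      ((ContinuousLinearMap.mul ℝ ℂ).precompR ℂ) volume :=
    (hDc.convolutionExists_right _ locInt_inv hD) z
  have h4 := ContinuousLinearMap.integral_apply h3 v
  refine h4.trans ?_
  refine integral_congr_ae (Eventually.of_forall fun s => ?_)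
  simp

theorem dbar_Cv {g : ℂ → ℂ} (hg : ContDiff ℝ 1 g) (hc : HasCompactSupport g) (z : ℂ) :
    dbar (Cv g) z = g z := by
  have h1 := Pool.Agent.Helper366.IV.cauchy_pompeiu g hg hc z
  have hD : Continuous (fderiv ℝ g) := hg.continuous_fderiv (by simp)
  have hDc : HasCompactSupport (fderiv ℝ g) := hc.fderiv ℝ
  have hi : ∀ v : ℂ, Integrable fun s => s⁻¹ * fderiv ℝ g (z - s) v := by
    intro v
    have e1 : Continuous fun w => fderiv ℝ g w v := hD.clm_apply continuous_const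
    have e2 : HasCompactSupport fun w => fderiv ℝ g w v :=
      hDc.comp_left (g := fun L : ℂ →L[ℝ] ℂ => L v) (by simp)
    exact int_inv_mul e1 e2 z
  unfold dbar
  rw [fderiv_Cv hg hc, fderiv_Cv hg hc]
  have hpi : (Real.pi : ℂ) ≠ 0 := by exact_mod_cast Real.pi_ne_zero
  have h2 : (∫ s, s⁻¹ * fderiv ℝ g (z - s) 1) + Complex.I * ∫ s, s⁻¹ * fderiv ℝ g (z - s) Complex.I =
      2 * (Real.pi * g z) := by
    rw [← h1, ← integral_const_mul, ← integral_add (hi 1) ((hi Complex.I).const_mul _),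
      ← integral_const_mul]
    refine integral_congr_ae (Eventually.of_forall fun s => ?_)
    beta_reduce
    ring
  have h3 : (Real.pi : ℂ)⁻¹ * (∫ s, s⁻¹ * fderiv ℝ g (z - s) 1) + Complex.I * ((Real.pi : ℂ)⁻¹ *
      ∫ s, s⁻¹ * fderiv ℝ g (z - s) Complex.I) = (Real.pi : ℂ)⁻¹ * (2 * (Real.pi * g z)) := by
    rw [← h2]
    ring
  rw [h3]
  field_simp

theorem Cv_eq (g : ℂ → ℂ) (z : ℂ) : Cv g z = (Real.pi : ℂ)⁻¹ * ∫ s, g s / (z - s) := by
  unfold Cv
  congr 1
  rw [← integral_sub_left_eq_self (fun s => g s / (z - s)) (volume : Measure ℂ) z]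
  refine integral_congr_ae (Eventually.of_forall fun s => ?_)
  beta_reduce
  rw [sub_sub_cancel, div_eq_mul_inv, mul_comm]

/-- decay at infinity -/
theorem Cv_decay {g : ℂ → ℂ} (hg : Integrable g) {R : ℝ} (hR : 0 < R)
    (h0 : ∀ s, R < ‖s‖ → g s = 0) {z : ℂ} (hz : 2 * R ≤ ‖z‖) :
    ‖Cv g z‖ ≤ (2 / Real.pi * ∫ s, ‖g s‖) / ‖z‖ := by
  have hpi := Real.pi_pos
  have hz0 : 0 < ‖z‖ := by linarith
  have h1 : ‖∫ s, g s / (z - s)‖ ≤ ∫ s, ‖g s‖ * (2 / ‖z‖) := by
    refine norm_integral_le_of_norm_le (hg.norm.mul_const _) (Eventually.of_forall fun s => ?_)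
    by_cases hs : R < ‖s‖
    · rw [h0 s hs]
      simp
    · rw [not_lt] at hs
      rw [norm_div, div_eq_mul_inv]
      refine mul_le_mul_of_nonneg_left ?_ (norm_nonneg _)
      have h2 : ‖z‖ / 2 ≤ ‖z - s‖ := by
        have := norm_sub_norm_le z s
        linarith
      rw [show 2 / ‖z‖ = (‖z‖ / 2)⁻¹ by rw [inv_div]]
      exact inv_anti₀ (by positivity) h2
  rw [Cv_eq, norm_mul, norm_inv, Complex.norm_real, Real.norm_of_nonneg hpi.le]
  rw [integral_mul_const] at h1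
  calc Real.pi⁻¹ * ‖∫ s, g s / (z - s)‖ ≤ Real.pi⁻¹ * ((∫ s, ‖g s‖) * (2 / ‖z‖)) :=
        mul_le_mul_of_nonneg_left h1 (by positivity)
    _ = (2 / Real.pi * ∫ s, ‖g s‖) / ‖z‖ := by
        field_simp

end Pool.Agent.X151.MR
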