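import Mathlib
import Pool.Agent.Split938.Basic

/-!
# Cutoff functions
-/

set_option autoImplicit false

open Topology Filter Metric Set MeasureTheory Pool.Agent.Split938
open scoped ContDiff ENNReal

namespace Pool.Agent.X151.MR

noncomputable def bmp : ContDiffBump (0 : ℂ) := ⟨1, 2, one_pos, by norm_num⟩

/-- a smooth cutoff, one on `|z| ≤ R` and zero for `|z| ≥ 2R` -/
noncomputable def cut (R : ℝ) (z : ℂ) : ℂ := ((bmp (R⁻¹ • z) : ℝ) : ℂ)

theorem cut_smooth (R : ℝ) : ContDiff ℝ ∞ (cut R) := by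
  have h1 : ContDiff ℝ ∞ (fun z : ℂ => bmp z) := bmp.contDiff
  have h2 : ContDiff ℝ ∞ (fun z : ℂ => R⁻¹ • z) := contDiff_const_smul _
  exact Complex.ofRealCLM.contDiff.comp (h1.comp h2)

theorem cut_one {R : ℝ} (hR : 0 < R) {z : ℂ} (hz : ‖z‖ ≤ R) : cut R z = 1 := by
  unfold cut
  rw [bmp.one_of_mem_closedBall, Complex.ofReal_one]
  rw [mem_closedBall_zero_iff, norm_smul, norm_inv, Real.norm_of_nonneg hR.le]
  change R⁻¹ * ‖z‖ ≤ 1
  rw [inv_mul_le_iff₀ hR, mul_one]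
  exact hz

theorem cut_zero {R : ℝ} (hR : 0 < R) {z : ℂ} (hz : 2 * R ≤ ‖z‖) : cut R z = 0 := by
  unfold cut
  rw [bmp.zero_of_le_dist, Complex.ofReal_zero]
  rw [dist_zero_right, norm_smul, norm_inv, Real.norm_of_nonneg hR.le]
  change 2 ≤ R⁻¹ * ‖z‖
  rw [le_inv_mul_iff₀ hR]
  linarith

theorem cut_le (R : ℝ) (z : ℂ) : ‖cut R z‖ ≤ 1 := by
  unfold cut
  rw [Complex.norm_real, Real.norm_of_nonneg bmp.nonneg]
  exact bmp.le_one

theorem cut_hcs {R : ℝ} (hR : 0 < R) : HasCompactSupport (cut R) := by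
  refine HasCompactSupport.of_support_subset_isCompact (isCompact_closedBall (0 : ℂ) (2 * R)) ?_
  intro z hz
  rw [mem_closedBall_zero_iff]
  by_contra h
  rw [not_le] at h
  exact hz (cut_zero hR h.le)

theorem cut_fderiv (R : ℝ) (z v : ℂ) :
    fderiv ℝ (cut R) z v = ((R⁻¹ * fderiv ℝ (fun z => bmp z) (R⁻¹ • z) v : ℝ) : ℂ) := by
  have h1 : HasFDerivAt (fun z : ℂ => bmp z) (fderiv ℝ (fun z => bmp z) (R⁻¹ • z)) (R⁻¹ • z) :=
    ((bmp.contDiff (n := 1)).differentiable (by simp) _).hasFDerivAt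
  have h2 : HasFDerivAt (fun z : ℂ => R⁻¹ • z) (R⁻¹ • ContinuousLinearMap.id ℝ ℂ) z :=
    (R⁻¹ • ContinuousLinearMap.id ℝ ℂ).hasFDerivAt
  have h3 := h1.comp z h2
  have h4 : HasFDerivAt (cut R) _ z := (Complex.ofRealCLM.hasFDerivAt).comp z h3
  rw [h4.fderiv]
  simp

theorem cut_grad : ∃ C : ℝ, 0 ≤ C ∧ ∀ R : ℝ, 0 < R → ∀ z : ℂ,
    ‖dbar (cut R) z‖ ≤ C / R ∧ ‖dz (cut R) z‖ ≤ C / R := by
  have hD : Continuous (fderiv ℝ (fun z : ℂ => bmp z)) :=
    (bmp.contDiff (n := 1)).continuous_fderiv (by simp)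
  have hc : HasCompactSupport (fderiv ℝ (fun z : ℂ => bmp z)) := bmp.hasCompactSupport.fderiv ℝ
  obtain ⟨C, hC⟩ := hc.exists_bound_of_continuous hD
  have hC0 : 0 ≤ C := (norm_nonneg _).trans (hC 0)
  have key : ∀ R : ℝ, 0 < R → ∀ z v : ℂ, ‖v‖ = 1 → ‖fderiv ℝ (cut R) z v‖ ≤ C / R := by
    intro R hR z v hv
    rw [cut_fderiv, Complex.norm_real, norm_mul, norm_inv, Real.norm_of_nonneg hR.le, inv_mul_eq_div]
    refine div_le_div_of_nonneg_right ?_ hR.le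
    refine ((fderiv ℝ (fun z : ℂ => bmp z) (R⁻¹ • z)).le_opNorm v).trans ?_
    rw [hv, mul_one]
    exact hC _
  refine ⟨C, hC0, fun R hR z => ?_⟩
  have h1 := key R hR z 1 (by simp)
  have h2 := key R hR z Complex.I (by simp)
  have h3 : ‖Complex.I * fderiv ℝ (cut R) z Complex.I‖ ≤ C / R := by
    rw [norm_mul, Complex.norm_I, one_mul]
    exact h2
  constructor
  · unfold dbar
    rw [norm_div, Complex.norm_ofNat]
    have := norm_add_le (fderiv ℝ (cut R) z 1) (Complex.I * fderiv ℝ (cut R) z Complex.I)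
    linarith
  · unfold dz
    rw [norm_div, Complex.norm_ofNat]
    have := norm_sub_le (fderiv ℝ (cut R) z 1) (Complex.I * fderiv ℝ (cut R) z Complex.I)
    linarith

theorem cut_flat {R : ℝ} (hR : 0 < R) {z : ℂ} (hz : ‖z‖ < R) :
    dbar (cut R) z = 0 ∧ dz (cut R) z = 0 := by
  have h1 : cut R =ᶠ[𝓝 z] fun _ => 1 := by
    have : ball (0 : ℂ) R ∈ 𝓝 z := isOpen_ball.mem_nhds (by rwa [mem_ball_zero_iff])
    filter_upwards [this] with w hw
    rw [mem_ball_zero_iff] at hw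
    exact cut_one hR hw.le
  rw [dbar_congr h1, dz_congr h1]
  exact ⟨dbar_of_hasDerivAt (hasDerivAt_const z 1), dz_of_hasDerivAt (hasDerivAt_const z 1)⟩

theorem cut_far {R : ℝ} (hR : 0 < R) {z : ℂ} (hz : 2 * R < ‖z‖) :
    dbar (cut R) z = 0 ∧ dz (cut R) z = 0 := by
  have h1 : cut R =ᶠ[𝓝 z] fun _ => 0 := by
    have : {w : ℂ | 2 * R < ‖w‖} ∈ 𝓝 z := (isOpen_lt continuous_const continuous_norm).mem_nhds hz
    filter_upwards [this] with w hw
    exact cut_zero hR (le_of_lt hw)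
  rw [dbar_congr h1, dz_congr h1]
  exact ⟨dbar_of_hasDerivAt (hasDerivAt_const z 0), dz_of_hasDerivAt (hasDerivAt_const z 0)⟩

end Pool.Agent.X151.MR
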