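import Mathlib
import Pool.Agent.W136.IW.Ode
import Pool.Agent.W932.IW.En
import Pool.Agent.W182.IW.Comp
import Pool.Agent.W508.IW.Lim
import Pool.Agent.W397.IW.Leq
import Pool.Agent.W582.IW.Str
import Pool.Agent.W389.IW.Tail
import Pool.Agent.W360.IW.Conc
import Pool.Agent.W411.IW.Pars
import Pool.Agent.W116.IW.Ibp
import Pool.Agent.W411.IW.Chain
import Pool.Agent.W116.IW.Null
import Pool.Agent.W573.IW.Flow
import Pool.Agent.W479.IW.HDiv
import Pool.Agent.W374.IW.HaHb
import Pool.Agent.W932.IW.Reg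
import Pool.Agent.W357.IW.Rot
import Pool.Agent.W707.IW.Alg
import Pool.Agent.W308.IW.Bnd
import Pool.Agent.W374.IW.Pc
import Pool.Agent.W411.IW.Qt
import Pool.Agent.W581.IW.Qw
import Pool.Agent.W581.IW.Fk
import Pool.Agent.W769.IW.Qk
import Pool.Agent.W239.IW.Wk
import Pool.Agent.W737.IW.Qp
import Pool.Agent.W74.IW.Plane
import Pool.Agent.W459.IW.Ptw
import Pool.Agent.W411.IW.Iw
import Pool.Agent.W488.IX.Stm
import Pool.Agent.W947.IX.Concm
import Pool.Agent.W45.IX.Flowm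
import Pool.Agent.W407.IX.Mol1
import Pool.Agent.W880.IX.Ae
import Pool.Agent.W883.IX.Coef
import Pool.Agent.W439.IX.Regw
import Pool.Agent.W63.IX.Rege
import Pool.Agent.W699.IX.Jw
import Pool.Agent.W880.IX.J1
import Pool.Agent.W880.IX.J2
import Pool.Agent.W253.IX.Divg
import Pool.Agent.W588.IX.Omg
import Pool.Agent.W72.IX.Rotg
import Pool.Agent.W880.IX.Alg1
import Pool.Agent.W293.IX.Idl
import Pool.Agent.W118.IX.Bnd1
import Pool.Agent.W658.IX.Pcx
import Pool.Agent.W440.IX.Qtx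
import Pool.Agent.W398.IX.Qwx
import Pool.Agent.W409.IX.Kap
import Pool.Agent.W305.IX.Hom
import Pool.Agent.W440.IX.Qpx
import Pool.Agent.W347.IX.Ptx
import Pool.Agent.W249.IX.Iw2
import Pool.Agent.W410.IX.Mol
import Pool.Agent.W334.IX.Alg2
import Pool.Agent.W312.IX.Bnd2

/-! The sharp inequality for the Beurling transform: assembly of the theorems of the library without the parts for
`p < 2`. -/

set_option autoImplicit false

namespace Pool.Agent.X151.MR.Iw

open Pool.Agent.W488.IW Pool.Agent.W488.IX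

theorem en : S_EN := Pool.Agent.W932.IW.En.main

theorem comp : S_COMP := Pool.Agent.W182.IW.Comp.main en

theorem lim : S_LIM := Pool.Agent.W508.IW.Lim.main en

theorem leq : S_LEQ := Pool.Agent.W397.IW.Leq.main en lim

theorem str : S_STR := Pool.Agent.W582.IW.Str.main en lim leq

theorem tail : S_TAIL := Pool.Agent.W389.IW.Tail.main en comp lim str

theorem chain : S_CHAIN := Pool.Agent.W411.IW.Chain.main Pool.Agent.W116.IW.Ibp.main

theorem flow : S_FLOW := Pool.Agent.W573.IW.Flow.main Pool.Agent.W136.IW.Ode.main en tail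
  Pool.Agent.W360.IW.Conc.main chain Pool.Agent.W411.IW.Pars.main

theorem pc : S_PC := Pool.Agent.W374.IW.Pc.main Pool.Agent.W479.IW.HDiv.main
  Pool.Agent.W374.IW.HaHb.mainA Pool.Agent.W374.IW.HaHb.mainB Pool.Agent.W357.IW.Rot.main
  Pool.Agent.W707.IW.Alg.main Pool.Agent.W308.IW.Bnd.main

theorem qt : S_QT := Pool.Agent.W411.IW.Qt.main pc Pool.Agent.W932.IW.Reg.main
  Pool.Agent.W116.IW.Null.main flow

theorem qw : S_QW := Pool.Agent.W581.IW.Qw.main qt

theorem qk : S_QK := Pool.Agent.W769.IW.Qk.main qw Pool.Agent.W581.IW.Fk.main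

theorem qp : S_QP := Pool.Agent.W737.IW.Qp.main qk Pool.Agent.W239.IW.Wk.main

theorem plane : S_PLANE := Pool.Agent.W74.IW.Plane.main

/-- **The sharp inequality** for all `p ≥ 219/100`. -/
theorem iw : S_IW (219 / 100) := Pool.Agent.W411.IW.Iw.main (219 / 100) (by norm_num) qp plane
  Pool.Agent.W459.IW.Ptw.main219

theorem flowm : S_FLOWM := Pool.Agent.W45.IX.Flowm.main Pool.Agent.W136.IW.Ode.main
  en tail Pool.Agent.W947.IX.Concm.main
  chain Pool.Agent.W411.IW.Pars.main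

theorem regw : S_REGW := Pool.Agent.W439.IX.Regw.main Pool.Agent.W699.IX.Jw.main

theorem mol : S_MOL := Pool.Agent.W410.IX.Mol.main Pool.Agent.W407.IX.Mol1.main flowm
  Pool.Agent.W116.IW.Null.main Pool.Agent.W411.IW.Pars.main

theorem pcx : S_PCX := Pool.Agent.W658.IX.Pcx.main Pool.Agent.W699.IX.Jw.main
  Pool.Agent.W880.IX.J1.main Pool.Agent.W880.IX.J2.main Pool.Agent.W253.IX.Divg.main
  Pool.Agent.W588.IX.Omg.main Pool.Agent.W72.IX.Rotg.main Pool.Agent.W880.IX.Alg1.main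
  (Pool.Agent.W334.IX.Alg2.main Pool.Agent.W293.IX.Idl.main)
  Pool.Agent.W118.IX.Bnd1.main Pool.Agent.W312.IX.Bnd2.main

theorem qtx : S_QTX := Pool.Agent.W440.IX.Qtx.main pcx regw Pool.Agent.W63.IX.Rege.main mol
  Pool.Agent.W880.IX.Ae.main Pool.Agent.W883.IX.Coef.main

theorem qwx : S_QWX := Pool.Agent.W398.IX.Qwx.main qtx

theorem qpx : S_QPX := Pool.Agent.W440.IX.Qpx.main qwx Pool.Agent.W409.IX.Kap.main
  Pool.Agent.W305.IX.Hom.main

/-- **The sharp inequality** `∫ |dzb f| ^ p ≤ (p - 1) ^ p ∫ |dz f| ^ p` for all `p ≥ 2`. -/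
theorem iw2 : S_IW 2 := Pool.Agent.W249.IX.Iw2.main qpx plane
  Pool.Agent.W347.IX.Ptx.main iw

end Pool.Agent.X151.MR.Iw
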