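import Mathlib
import Pool.Agent.X151.MR.Conv
import Pool.Agent.X151.MR.Cut
import Pool.Agent.X151.MR.Iw

/-!
# The `L ^ p` bound of the Beurling transform on smooth functions
-/

set_option autoImplicit false

open Topology Filter Metric Set MeasureTheory Pool.Agent.Split938
open scoped ContDiff ENNReal

namespace Pool.Agent.X151.MR

theorem conj_fderiv {f : ℂ → ℂ} (hf : ContDiff ℝ 1 f) (z v : ℂ) :
    fderiv ℝ (fun z => (starRingEnd ℂ) (f z)) z v = (starRingEnd ℂ) (fderiv ℝ f z v) := by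
  have h1 : HasFDerivAt f (fderiv ℝ f z) z := (hf.differentiable (by simp) z).hasFDerivAt
  have h2 : HasFDerivAt (fun z => (starRingEnd ℂ) (f z))
      ((Complex.conjCLE : ℂ →L[ℝ] ℂ).comp (fderiv ℝ f z)) z :=
    (Complex.conjCLE : ℂ →L[ℝ] ℂ).hasFDerivAt.comp z h1
  rw [h2.fderiv]
  simp

/-- the sharp inequality in `eLpNorm` form -/
theorem lp_hcs {p : ℝ} (hp : 2 ≤ p) {f : ℂ → ℂ} (hf : ContDiff ℝ 1 f) (hc : HasCompactSupport f) :
    eLpNorm (dz f) (ENNReal.ofReal p) volume ≤
      ENNReal.ofReal (p - 1) * eLpNorm (dbar f) (ENNReal.ofReal p) volume := by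
  have hp0 : 0 < p := by linarith
  have hp1 : 0 < p - 1 := by linarith
  have hg1 : ContDiff ℝ 1 fun z => (starRingEnd ℂ) (f z) := Complex.conjCLE.contDiff.comp hf
  have hg2 : HasCompactSupport fun z => (starRingEnd ℂ) (f z) :=
    hc.comp_left (g := fun w => (starRingEnd ℂ) w) (by simp)
  have key : ∫ z, ‖(1 / 2 : ℂ) * (fderiv ℝ (fun z => (starRingEnd ℂ) (f z)) z 1 + Complex.I *
      fderiv ℝ (fun z => (starRingEnd ℂ) (f z)) z Complex.I)‖ ^ p ≤ (p - 1) ^ p *
      ∫ z, ‖(1 / 2 : ℂ) * (fderiv ℝ (fun z => (starRingEnd ℂ) (f z)) z 1 - Complex.I *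
      fderiv ℝ (fun z => (starRingEnd ℂ) (f z)) z Complex.I)‖ ^ p := Iw.iw2 p hp _ hg1 hg2
  have e1 : ∀ z, ‖(1 / 2 : ℂ) * (fderiv ℝ (fun z => (starRingEnd ℂ) (f z)) z 1 + Complex.I *
      fderiv ℝ (fun z => (starRingEnd ℂ) (f z)) z Complex.I)‖ = ‖dz f z‖ := by
    intro z
    rw [conj_fderiv hf, conj_fderiv hf, ← Complex.norm_conj (dz f z)]
    congr 1
    unfold dz
    simp only [map_div₀, map_sub, map_mul, Complex.conj_I, map_ofNat]
    ring
  have e2 : ∀ z, ‖(1 / 2 : ℂ) * (fderiv ℝ (fun z => (starRingEnd ℂ) (f z)) z 1 - Complex.I *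
      fderiv ℝ (fun z => (starRingEnd ℂ) (f z)) z Complex.I)‖ = ‖dbar f z‖ := by
    intro z
    rw [conj_fderiv hf, conj_fderiv hf, ← Complex.norm_conj (dbar f z)]
    congr 1
    unfold dbar
    simp only [map_div₀, map_add, map_mul, Complex.conj_I, map_ofNat]
    ring
  simp only [e1, e2] at key
  have hP0 : ENNReal.ofReal p ≠ 0 := by simpa using hp0
  have hPt : ENNReal.ofReal p ≠ ⊤ := ENNReal.ofReal_ne_top
  have m1 : MemLp (dz f) (ENNReal.ofReal p) volume :=
    (dz_continuous hf).memLp_of_hasCompactSupport (dz_hcs hc)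
  have m2 : MemLp (dbar f) (ENNReal.ofReal p) volume :=
    (dbar_continuous hf).memLp_of_hasCompactSupport (dbar_hcs hc)
  rw [m1.eLpNorm_eq_integral_rpow_norm hP0 hPt, m2.eLpNorm_eq_integral_rpow_norm hP0 hPt,
    ENNReal.toReal_ofReal hp0.le, ← ENNReal.ofReal_mul hp1.le]
  refine ENNReal.ofReal_le_ofReal ?_
  have n1 : 0 ≤ ∫ z, ‖dz f z‖ ^ p := integral_nonneg fun z => by positivity
  have n2 : 0 ≤ ∫ z, ‖dbar f z‖ ^ p := integral_nonneg fun z => by positivity
  refine (Real.rpow_le_rpow n1 key (by positivity)).trans (le_of_eq ?_)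
  rw [Real.mul_rpow (by positivity) n2, ← Real.rpow_mul hp1.le, mul_inv_cancel₀ hp0.ne', Real.rpow_one]

theorem corr_bound {g : ℂ → ℂ} (hg : ContDiff ℝ 1 g) (hc : HasCompactSupport g) :
    ∃ C R₀ : ℝ, 0 ≤ C ∧ 1 ≤ R₀ ∧ (∀ z, R₀ < ‖z‖ → g z = 0) ∧ ∀ R : ℝ, R₀ ≤ R → ∀ z,
      ‖Cv g z * dbar (cut R) z‖ ≤ C / R ^ 2 ∧ (2 * R < ‖z‖ → Cv g z * dbar (cut R) z = 0) := by
  obtain ⟨A, hA0, hA⟩ := cut_grad
  obtain ⟨r, hr⟩ := hc.isCompact.isBounded.subset_closedBall (0 : ℂ)
  have hz : ∀ s, max r 1 < ‖s‖ → g s = 0 := by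
    intro s hs
    by_contra h
    have := hr (subset_tsupport g h)
    rw [mem_closedBall_zero_iff] at this
    linarith [le_max_left r 1]
  have hi : Integrable g := hg.continuous.integrable_of_hasCompactSupport hc
  set M := 2 / Real.pi * ∫ s, ‖g s‖ with hM
  have hM0 : 0 ≤ M := by positivity
  refine ⟨M * A, 2 * max r 1, by positivity, by linarith [le_max_right r 1], fun z h => hz z ?_,
    fun R hR z => ?_⟩
  · linarith [le_max_right r 1]
  · have hR0 : 0 < R := by linarith [le_max_right r 1]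
    have h1 := Cv_decay hi (by linarith [le_max_right r 1] : 0 < max r 1) hz (z := z)
    constructor
    · by_cases hzR : ‖z‖ < R
      · rw [(cut_flat hR0 hzR).1, mul_zero, norm_zero]
        positivity
      · rw [not_lt] at hzR
        rw [norm_mul]
        have h2 : ‖Cv g z‖ ≤ M / R := (h1 (hR.trans hzR)).trans (div_le_div_of_nonneg_left hM0 hR0 hzR)
        calc ‖Cv g z‖ * ‖dbar (cut R) z‖ ≤ M / R * (A / R) :=
              mul_le_mul h2 (hA R hR0 z).1 (norm_nonneg _) (by positivity)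
          _ = M * A / R ^ 2 := by field_simp
    · intro h
      rw [(cut_far hR0 h).1, mul_zero]

theorem lp_smooth {p : ℝ} (hp : 2 < p) {g : ℂ → ℂ} (hg : ContDiff ℝ 1 g) (hc : HasCompactSupport g) :
    eLpNorm (dz (Cv g)) (ENNReal.ofReal p) volume ≤
      ENNReal.ofReal (p - 1) * eLpNorm g (ENNReal.ofReal p) volume := by
  have hp0 : 0 < p := by linarith
  obtain ⟨C, R₀, hC, hR₀, hz, hb⟩ := corr_bound hg hc
  have hCv : ContDiff ℝ 1 (Cv g) := contDiff_Cv hg hc
  have hP1 : 1 ≤ ENNReal.ofReal p := by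
    rw [← ENNReal.ofReal_one]
    exact ENNReal.ofReal_le_ofReal (by linarith)
  set e : ℕ → ℝ≥0∞ := fun n => eLpNorm (fun z => Cv g z * dbar (cut n) z) (ENNReal.ofReal p) volume
    with he
  have hcut : ∀ R : ℝ, ContDiff ℝ 1 (cut R) := fun R => (cut_smooth R).of_le (by exact_mod_cast le_top)
  -- the bound for each large `n`
  have step : ∀ᶠ n : ℕ in atTop, eLpNorm (dz fun z => cut n z * Cv g z) (ENNReal.ofReal p) volume ≤
      ENNReal.ofReal (p - 1) * (eLpNorm g (ENNReal.ofReal p) volume + e n) := by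
    filter_upwards [eventually_ge_atTop ⌈R₀⌉₊] with n hn
    have hn' : R₀ ≤ n := Nat.ceil_le.mp hn
    have hn0 : (0 : ℝ) < n := by linarith
    refine (lp_hcs hp.le ((hcut n).mul hCv) ((cut_hcs hn0).mul_right)).trans ?_
    refine mul_le_mul_right ?_ _
    have e1 : dbar (fun z => cut n z * Cv g z) = fun z => g z + Cv g z * dbar (cut n) z := by
      funext z
      rw [dbar_mul ((hcut n).differentiable (by simp) z) (hCv.differentiable (by simp) z),
        dbar_Cv hg hc]
      by_cases h : ‖z‖ ≤ n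
      · rw [cut_one hn0 h]
        ring
      · rw [hz z (hn'.trans_lt (not_le.mp h))]
        ring
    rw [e1]
    refine eLpNorm_add_le hg.continuous.aestronglyMeasurable ?_ hP1
    exact (hCv.continuous.mul (dbar_continuous (hcut n))).aestronglyMeasurable
  -- the corrections tend to zero
  have hlim : Tendsto e atTop (𝓝 0) := by
    have hub : ∀ᶠ n : ℕ in atTop, e n ≤ ENNReal.ofReal ((4 * Real.pi) * C / n) := by
      filter_upwards [eventually_ge_atTop ⌈R₀⌉₊] with n hn
      have hn' : R₀ ≤ n := Nat.ceil_le.mp hn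
      have hn0 : (0 : ℝ) < n := by linarith
      have hn1 : (1 : ℝ) ≤ n := by linarith
      have hs : Function.support (fun z => Cv g z * dbar (cut n) z) ⊆ closedBall (0 : ℂ) (2 * n) := by
        intro z h
        rw [mem_closedBall_zero_iff]
        by_contra hcon
        exact h ((hb n hn' z).2 (not_le.mp hcon))
      rw [he]
      beta_reduce
      rw [← eLpNorm_restrict_eq_of_support_subset hs]
      refine (eLpNorm_le_of_ae_bound (C := C / n ^ 2) (Eventually.of_forall fun z =>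
        (hb n hn' z).1)).trans ?_
      rw [Measure.restrict_apply_univ, Complex.volume_closedBall, ENNReal.toReal_ofReal hp0.le]
      have hv : ENNReal.ofReal (2 * n) ^ 2 * (NNReal.pi : ℝ≥0∞) =
          ENNReal.ofReal (4 * Real.pi * n ^ 2) := by
        rw [← ENNReal.ofReal_pow (by positivity), show (NNReal.pi : ℝ≥0∞) = ENNReal.ofReal Real.pi by
          rw [← NNReal.coe_real_pi, ENNReal.ofReal_coe_nnreal], ← ENNReal.ofReal_mul (by positivity)]
        congr 1
        ring
      rw [hv, ENNReal.ofReal_rpow_of_nonneg (by positivity) (by positivity),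
        ← ENNReal.ofReal_mul (by positivity)]
      refine ENNReal.ofReal_le_ofReal ?_
      have h1 : (4 * Real.pi * (n : ℝ) ^ 2) ^ p⁻¹ ≤ 4 * Real.pi * n := by
        have hpi : 1 ≤ 4 * Real.pi := by linarith [Real.pi_gt_three]
        have hb1 : 1 ≤ 4 * Real.pi * (n : ℝ) ^ 2 := by nlinarith
        calc (4 * Real.pi * (n : ℝ) ^ 2) ^ p⁻¹ ≤ (4 * Real.pi * (n : ℝ) ^ 2) ^ ((1 : ℝ) / 2) := by
              refine Real.rpow_le_rpow_of_exponent_le hb1 ?_
              rw [one_div]
              exact inv_anti₀ (by norm_num) hp.le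
          _ ≤ ((4 * Real.pi * n) ^ 2) ^ ((1 : ℝ) / 2) := by
              refine Real.rpow_le_rpow (by positivity) ?_ (by norm_num)
              nlinarith [sq_nonneg (n : ℝ)]
          _ = 4 * Real.pi * n := by
              rw [← Real.sqrt_eq_rpow, Real.sqrt_sq (by positivity)]
      calc (4 * Real.pi * (n : ℝ) ^ 2) ^ p⁻¹ * (C / n ^ 2) ≤ 4 * Real.pi * n * (C / n ^ 2) :=
            mul_le_mul_of_nonneg_right h1 (by positivity)
        _ = (4 * Real.pi) * C / n := by field_simp
    have hz2 : Tendsto (fun n : ℕ => ENNReal.ofReal ((4 * Real.pi) * C / n)) atTop (𝓝 0) := by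
      rw [← ENNReal.ofReal_zero]
      exact ENNReal.tendsto_ofReal (tendsto_const_div_atTop_nhds_zero_nat _)
    exact tendsto_of_tendsto_of_tendsto_of_le_of_le' tendsto_const_nhds hz2
      (Eventually.of_forall fun _ => zero_le) hub
  -- Fatou
  have hF := Lp.eLpNorm_lim_le_liminf_eLpNorm (μ := (volume : Measure ℂ)) (p := ENNReal.ofReal p)
    (f := fun n : ℕ => dz fun z => cut n z * Cv g z)
    (fun n => (dz_continuous ((hcut n).mul hCv)).aestronglyMeasurable) (dz (Cv g))
    (Eventually.of_forall fun z => by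
      refine tendsto_const_nhds.congr' ?_
      filter_upwards [eventually_gt_atTop ⌈‖z‖⌉₊] with n hn
      have hn' : ‖z‖ < n := Nat.lt_of_ceil_lt hn
      refine (dz_congr ?_).symm
      filter_upwards [isOpen_ball.mem_nhds (show z ∈ ball (0 : ℂ) n by
        rwa [mem_ball_zero_iff])] with w hw
      rw [mem_ball_zero_iff] at hw
      rw [cut_one ((norm_nonneg _).trans_lt hw) hw.le, one_mul])
  refine hF.trans ((liminf_le_liminf step).trans ?_)
  have hT : Tendsto (fun n => ENNReal.ofReal (p - 1) * (eLpNorm g (ENNReal.ofReal p) volume + e n))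
      atTop (𝓝 (ENNReal.ofReal (p - 1) * (eLpNorm g (ENNReal.ofReal p) volume + 0))) := by
    refine ENNReal.Tendsto.const_mul (tendsto_const_nhds.add hlim) (Or.inr ENNReal.ofReal_ne_top)
  rw [add_zero] at hT
  exact hT.liminf_eq.le

end Pool.Agent.X151.MR
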