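import Mathlib
import Pool.Agent.X151.MR.Lp
import Pool.Agent.X151.MR.Ker

/-!
# The Beurling transform on `L ^ p`, multiplication operators and pairings
-/

set_option autoImplicit false

open Topology Filter Metric Set MeasureTheory Pool.Agent.Split938
open scoped ContDiff ENNReal

namespace Pool.Agent.X151.MR

variable {p : ℝ}

instance fact_one [h : Fact (2 < p)] : Fact (1 ≤ P p) := ⟨by
  rw [← ENNReal.ofReal_one]
  exact ENNReal.ofReal_le_ofReal (by linarith [h.out])⟩

/-- the Banach space `L ^ p (ℂ)` -/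
noncomputable abbrev X (p : ℝ) := Lp ℂ (P p) (volume : Measure ℂ)

/-- compactly supported `C ^ 1` functions -/
def Sm : Submodule ℂ (ℂ → ℂ) where
  carrier := {g | ContDiff ℝ 1 g ∧ HasCompactSupport g}
  add_mem' := fun {_ _} ha hb => ⟨ha.1.add hb.1, ha.2.add hb.2⟩
  zero_mem' := ⟨contDiff_const, HasCompactSupport.zero⟩
  smul_mem' := fun _ _ hg => ⟨contDiff_const.mul hg.1, hg.2.mul_left⟩

theorem Sm_mem (p : ℝ) (g : Sm) : MemLp (g : ℂ → ℂ) (P p) volume :=
  g.2.1.continuous.memLp_of_hasCompactSupport g.2.2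

theorem SmS_mem (hp : 2 < p) (g : Sm) : MemLp (dz (Cv g)) (P p) volume := by
  refine ⟨(dz_continuous (contDiff_Cv g.2.1 g.2.2)).aestronglyMeasurable, ?_⟩
  exact (lp_smooth hp g.2.1 g.2.2).trans_lt (ENNReal.mul_lt_top ENNReal.ofReal_lt_top (Sm_mem p g).2)

theorem Cv_add {g h : ℂ → ℂ} (hg : g ∈ Sm) (hh : h ∈ Sm) (z : ℂ) :
    Cv (g + h) z = Cv g z + Cv h z := by
  unfold Cv
  rw [← mul_add, ← integral_add (int_inv_mul hg.1.continuous hg.2 z) (int_inv_mul hh.1.continuous hh.2 z)]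
  congr 2
  funext s
  simp only [Pi.add_apply]
  ring

theorem Cv_smul (a : ℂ) (g : ℂ → ℂ) (z : ℂ) : Cv (a • g) z = a * Cv g z := by
  have h : (∫ s, s⁻¹ * (a • g) (z - s)) = a * ∫ s, s⁻¹ * g (z - s) := by
    rw [← integral_const_mul]
    congr 1
    funext s
    simp only [Pi.smul_apply, smul_eq_mul]
    ring
  unfold Cv
  rw [h]
  ring

/-- the inclusion of smooth functions -/
noncomputable def ee (p : ℝ) : Sm →ₗ[ℂ] X p where
  toFun g := (Sm_mem p g).toLp
  map_add' g h := by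
    rw [← MemLp.toLp_add]
    rfl
  map_smul' a g := by
    rw [RingHom.id_apply, ← MemLp.toLp_const_smul]
    rfl

/-- the Beurling transform on smooth functions -/
noncomputable def fS (hp : 2 < p) : Sm →ₗ[ℂ] X p where
  toFun g := (SmS_mem hp g).toLp
  map_add' g h := by
    rw [← MemLp.toLp_add]
    refine MemLp.toLp_congr _ _ (Eventually.of_forall fun z => ?_)
    have h1 : Cv ((g + h : Sm) : ℂ → ℂ) = fun z => Cv g z + Cv h z :=
      funext fun z => Cv_add g.2 h.2 z
    rw [h1, dz_add ((contDiff_Cv g.2.1 g.2.2).differentiable (by simp) z)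
      ((contDiff_Cv h.2.1 h.2.2).differentiable (by simp) z)]
    rfl
  map_smul' a g := by
    rw [RingHom.id_apply, ← MemLp.toLp_const_smul]
    refine MemLp.toLp_congr _ _ (Eventually.of_forall fun z => ?_)
    have h1 : Cv ((a • g : Sm) : ℂ → ℂ) = fun z => a * Cv g z :=
      funext fun z => Cv_smul a g z
    rw [h1, dz_const_mul a ((contDiff_Cv g.2.1 g.2.2).differentiable (by simp) z)]
    rfl

theorem fS_le (hp : 2 < p) [Fact (2 < p)] (g : Sm) : ‖fS hp g‖ ≤ (p - 1) * ‖ee p g‖ := by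
  change ‖(SmS_mem hp g).toLp‖ ≤ (p - 1) * ‖(Sm_mem p g).toLp‖
  rw [Lp.norm_toLp, Lp.norm_toLp]
  have h1 := lp_smooth hp g.2.1 g.2.2
  have h2 := ENNReal.toReal_mono (ENNReal.mul_ne_top ENNReal.ofReal_ne_top (Sm_mem p g).2.ne) h1
  rwa [ENNReal.toReal_mul, ENNReal.toReal_ofReal (by linarith)] at h2

theorem ee_dense [Fact (2 < p)] : DenseRange (ee p) := by
  have h1 := Lp.dense_hasCompactSupport_contDiff (E := ℂ) (F := ℂ) (μ := (volume : Measure ℂ))
    (p := P p) ENNReal.ofReal_ne_top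
  refine h1.mono ?_
  rintro f ⟨g, hfg, hgc, hg⟩
  have hgS : g ∈ Sm := ⟨hg.of_le (by exact_mod_cast le_top), hgc⟩
  refine ⟨⟨g, hgS⟩, ?_⟩
  refine Lp.ext ?_
  exact (Sm_mem p ⟨g, hgS⟩).coeFn_toLp.trans hfg.symm

/-- the Beurling transform on `L ^ p` -/
noncomputable def SS (p : ℝ) [h : Fact (2 < p)] : X p →L[ℂ] X p := (fS h.out).extendOfNorm (ee p)

theorem SS_ee [h : Fact (2 < p)] (g : Sm) : SS p (ee p g) = fS h.out g := by
  have h1 : ∃ C, ∀ x, ‖fS h.out x‖ ≤ C * ‖ee p x‖ := ⟨p - 1, fun x => fS_le h.out x⟩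
  exact LinearMap.extendOfNorm_eq (f := fS h.out) (e := ee p) (ee_dense (p := p)) h1 g

theorem SS_le [h : Fact (2 < p)] (x : X p) : ‖SS p x‖ ≤ (p - 1) * ‖x‖ := by
  have h1 : ∀ x, ‖fS h.out x‖ ≤ (p - 1) * ‖ee p x‖ := fun x => fS_le h.out x
  exact LinearMap.norm_extendOfNorm_apply_le (f := fS h.out) (e := ee p) (ee_dense (p := p)) (p - 1)
    h1 x

theorem mul_memLp {m : ℂ → ℂ} (hm : Measurable m) {B : ℝ} (hb : ∀ z, ‖m z‖ ≤ B) {φ : ℂ → ℂ}
    (hφ : MemLp φ (P p) volume) : MemLp (fun z => m z * φ z) (P p) volume := by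
  refine MemLp.of_le_mul (c := B) hφ (hm.aestronglyMeasurable.mul hφ.1) (Eventually.of_forall fun z => ?_)
  rw [norm_mul]
  exact mul_le_mul_of_nonneg_right (hb z) (norm_nonneg _)

/-- multiplication by a bounded function -/
noncomputable def Mo [Fact (2 < p)] {m : ℂ → ℂ} (hm : Measurable m) (hb : ∀ z, ‖m z‖ ≤ 1) :
    X p →L[ℂ] X p :=
  LinearMap.mkContinuous
    { toFun := fun φ => (mul_memLp hm hb (Lp.memLp φ)).toLp
      map_add' := fun φ ψ => by
        rw [← MemLp.toLp_add]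
        refine MemLp.toLp_congr _ _ ?_
        filter_upwards [Lp.coeFn_add φ ψ] with z hz
        rw [hz]
        simp only [Pi.add_apply]
        ring
      map_smul' := fun a φ => by
        rw [RingHom.id_apply, ← MemLp.toLp_const_smul]
        refine MemLp.toLp_congr _ _ ?_
        filter_upwards [Lp.coeFn_smul a φ] with z hz
        rw [hz]
        simp only [Pi.smul_apply, smul_eq_mul]
        ring } 1 (fun φ => by
      rw [one_mul]
      change ‖(mul_memLp hm hb (Lp.memLp φ)).toLp‖ ≤ ‖φ‖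
      refine Lp.norm_le_norm_of_ae_le ?_
      filter_upwards [(mul_memLp hm hb (Lp.memLp φ)).coeFn_toLp] with z hz
      rw [hz, norm_mul]
      exact mul_le_of_le_one_left (norm_nonneg _) (hb z))

theorem Mo_coe [Fact (2 < p)] {m : ℂ → ℂ} (hm : Measurable m) (hb : ∀ z, ‖m z‖ ≤ 1) (φ : X p) :
    ⇑(Mo hm hb φ) =ᵐ[volume] fun z => m z * φ z :=
  (mul_memLp hm hb (Lp.memLp φ)).coeFn_toLp

theorem Mo_le [Fact (2 < p)] {m : ℂ → ℂ} (hm : Measurable m) (hb : ∀ z, ‖m z‖ ≤ 1) (φ : X p) :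
    ‖Mo hm hb φ‖ ≤ ‖φ‖ := by
  refine Lp.norm_le_norm_of_ae_le ?_
  filter_upwards [Mo_coe hm hb φ] with z hz
  rw [hz, norm_mul]
  exact mul_le_of_le_one_left (norm_nonneg _) (hb z)

/-- the pairing with a function in the conjugate space -/
noncomputable def pr [h : Fact (2 < p)] {k : ℂ → ℂ} (hk : MemLp k (P (qq p)) volume) : X p →L[ℂ] ℂ :=
  LinearMap.mkContinuous
    { toFun := fun φ => ∫ z, k z * φ z
      map_add' := fun φ ψ => by
        rw [← integral_add (holder_pair h.out hk (Lp.memLp φ)).1 (holder_pair h.out hk (Lp.memLp ψ)).1]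
        refine integral_congr_ae ?_
        filter_upwards [Lp.coeFn_add φ ψ] with z hz
        rw [hz]
        simp only [Pi.add_apply]
        ring
      map_smul' := fun a φ => by
        rw [RingHom.id_apply, smul_eq_mul, ← integral_const_mul]
        refine integral_congr_ae ?_
        filter_upwards [Lp.coeFn_smul a φ] with z hz
        rw [hz]
        simp only [Pi.smul_apply, smul_eq_mul]
        ring } (eLpNorm k (P (qq p)) volume).toReal (fun φ => by
      have := (holder_pair h.out hk (Lp.memLp φ)).2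
      rw [Lp.norm_def]
      exact this)

theorem pr_coe [Fact (2 < p)] {k : ℂ → ℂ} (hk : MemLp k (P (qq p)) volume) (φ : X p) :
    pr hk φ = ∫ z, k z * φ z := rfl

end Pool.Agent.X151.MR
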