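import Mathlib
import Pool.Agent.X151.MR.Op
import Pool.Agent.X151.MR.Cls

/-!
# The Cauchy transform of an `L ^ p` function
-/

set_option autoImplicit false

open Topology Filter Metric Set MeasureTheory Pool.Agent.Split938
open scoped ContDiff ENNReal

namespace Pool.Agent.X151.MR

variable {p : ℝ}

theorem cont_of_unif {w : ℕ → ℂ → ℂ} {W : ℂ → ℂ} (hc : ∀ k, Continuous (w k))
    (ht : ∀ R : ℝ, ∀ ε > 0, ∀ᶠ k in atTop, ∀ z ∈ closedBall (0 : ℂ) R, ‖w k z - W z‖ ≤ ε) :
    UC w W := by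
  refine ⟨hc, continuous_iff_continuousAt.2 fun z₀ => ?_, ht⟩
  have h1 : ContinuousOn W (closedBall 0 (‖z₀‖ + 1)) := by
    refine TendstoUniformlyOn.continuousOn (F := w) (p := atTop) ?_
      (Frequently.of_forall fun k => (hc k).continuousOn)
    rw [Metric.tendstoUniformlyOn_iff]
    intro ε hε
    filter_upwards [ht (‖z₀‖ + 1) (ε / 2) (by positivity)] with k hk z hz
    rw [dist_comm, dist_eq_norm]
    linarith [hk z hz]
  refine h1.continuousAt (Filter.mem_of_superset (isOpen_ball.mem_nhds ?_) ball_subset_closedBall)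
  rw [mem_ball_zero_iff]
  linarith

/-- the Cauchy transform truncated to `|s| ≤ B` -/
noncomputable def EE (B : ℝ) (φ : ℂ → ℂ) (z : ℂ) : ℂ := (Real.pi : ℂ)⁻¹ * ∫ s, kz B z s * φ s

theorem Cv_kz {g : ℂ → ℂ} {B : ℝ} (h0 : ∀ s, B < ‖s‖ → g s = 0) (z : ℂ) : Cv g z = EE B g z := by
  rw [Cv_eq, EE]
  congr 1
  refine integral_congr_ae (Eventually.of_forall fun s => ?_)
  beta_reduce
  by_cases hs : s ∈ closedBall (0 : ℂ) B
  · rw [kz, indicator_of_mem hs, div_eq_mul_inv, mul_comm]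
  · rw [mem_closedBall_zero_iff, not_le] at hs
    rw [h0 s hs, zero_div, mul_zero]

theorem LT_of_Lp [Fact (2 < p)] {v : ℕ → ℂ → ℂ} (hv : ∀ k, Continuous (v k)) {x : ℕ → X p} {φ : X p}
    (hx : ∀ k, ⇑(x k) =ᵐ[volume] v k) (hl : Tendsto x atTop (𝓝 φ)) : LT p v φ := by
  refine ⟨hv, (Lp.stronglyMeasurable φ).measurable, fun R => ?_⟩
  rw [tendsto_iff_edist_tendsto_0] at hl
  refine tendsto_of_tendsto_of_tendsto_of_le_of_le tendsto_const_nhds hl (fun _ => zero_le)
    (fun k => ?_)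
  rw [Lp.edist_def]
  refine (eLpNorm_mono_measure _ Measure.restrict_le_self).trans (le_of_eq ?_)
  refine eLpNorm_congr_ae ?_
  filter_upwards [hx k] with z hz
  rw [Pi.sub_apply, hz]

theorem pr_le [h : Fact (2 < p)] {k : ℂ → ℂ} (hk : MemLp k (P (qq p)) volume) (φ : X p) :
    ‖pr hk φ‖ ≤ (eLpNorm k (P (qq p)) volume).toReal * ‖φ‖ := by
  rw [Lp.norm_def, pr_coe]
  exact (holder_pair h.out hk (Lp.memLp φ)).2

theorem cut_meas (A : ℝ) : Measurable (cut A) := (cut_smooth A).continuous.measurable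

/-- the Cauchy transform of `φ` with its derivatives -/
theorem base [h : Fact (2 < p)] {A : ℝ} (hA : 0 < A) (φ : X p)
    (hφ : Mo (cut_meas A) (cut_le A) φ = φ) : Cl p (EE (2 * A) φ) φ (SS p φ) := by
  obtain ⟨x, hx1, hx2⟩ := mem_closure_iff_seq_limit.1 (ee_dense (p := p) φ)
  choose g hg using hx1
  set χ := Mo (p := p) (cut_meas A) (cut_le A) with hχ
  have hG : ∀ k, (fun z => cut A z * (g k : ℂ → ℂ) z) ∈ Sm := fun k =>
    ⟨((cut_smooth A).of_le (by exact_mod_cast le_top)).mul (g k).2.1, (cut_hcs hA).mul_right⟩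
  set G : ℕ → Sm := fun k => ⟨_, hG k⟩ with hGdef
  have e1 : ∀ k, ee p (G k) = χ (ee p (g k)) := by
    intro k
    refine Lp.ext ?_
    refine (Sm_mem p (G k)).coeFn_toLp.trans ?_
    filter_upwards [Mo_coe (p := p) (cut_meas A) (cut_le A) (ee p (g k)),
      (Sm_mem p (g k)).coeFn_toLp] with z h1 h2
    rw [h1]
    have h3 : (ee p (g k) : ℂ → ℂ) z = (g k : ℂ → ℂ) z := h2
    rw [h3]
  have l1 : Tendsto (fun k => ee p (G k)) atTop (𝓝 φ) := by
    have : Tendsto (fun k => χ (x k)) atTop (𝓝 (χ φ)) := (χ.continuous.tendsto φ).comp hx2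
    rw [hφ] at this
    refine this.congr fun k => ?_
    rw [e1, hg]
  have l2 : Tendsto (fun k => fS h.out (G k)) atTop (𝓝 (SS p φ)) := by
    have : Tendsto (fun k => SS p (ee p (G k))) atTop (𝓝 (SS p φ)) :=
      ((SS p).continuous.tendsto φ).comp l1
    refine this.congr fun k => ?_
    rw [SS_ee]
  have hsupp : ∀ k, ∀ s, 2 * A < ‖s‖ → (G k : ℂ → ℂ) s = 0 := by
    intro k s hs
    change cut A s * _ = 0
    rw [cut_zero hA hs.le, zero_mul]
  obtain ⟨q1, q2⟩ := qq_lt h.out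
  refine ⟨fun k => Cv (G k), fun k => contDiff_Cv (G k).2.1 (G k).2.2, ?_, ?_, ?_⟩
  · refine cont_of_unif (fun k => (contDiff_Cv (G k).2.1 (G k).2.2).continuous) fun R ε hε => ?_
    set N := (eLpNorm (kr (2 * A + R + 1)) (P (qq p)) volume).toReal with hN
    have hN0 : 0 ≤ N := ENNReal.toReal_nonneg
    rw [tendsto_iff_norm_sub_tendsto_zero] at l1
    have hpi := Real.pi_pos
    have l3 := l1.const_mul (Real.pi⁻¹ * N)
    rw [mul_zero] at l3
    filter_upwards [l3.eventually (ge_mem_nhds hε)] with k hk z hz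
    rw [mem_closedBall_zero_iff] at hz
    rw [Cv_kz (hsupp k) z]
    have hkz := kz_memLp q1 q2 (2 * A) z
    have e2 : EE (2 * A) (G k) z - EE (2 * A) φ z = (Real.pi : ℂ)⁻¹ * pr hkz (ee p (G k) - φ) := by
      rw [map_sub, pr_coe, pr_coe, EE, EE, ← mul_sub]
      congr 2
      refine integral_congr_ae ?_
      filter_upwards [(Sm_mem p (G k)).coeFn_toLp] with s hs
      have h3 : (ee p (G k) : ℂ → ℂ) s = (G k : ℂ → ℂ) s := hs
      rw [h3]
    rw [e2, norm_mul, norm_inv, Complex.norm_real, Real.norm_of_nonneg hpi.le]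
    refine le_trans ?_ hk
    rw [mul_assoc]
    refine mul_le_mul_of_nonneg_left ?_ (by positivity)
    refine (pr_le hkz _).trans (mul_le_mul_of_nonneg_right ?_ (norm_nonneg _))
    exact ENNReal.toReal_mono (kr_memLp q1 q2 _).2.ne (kz_norm hz)
  · have e3 : ∀ k, dbar (Cv (G k)) = (G k : ℂ → ℂ) := fun k => funext fun z =>
      dbar_Cv (G k).2.1 (G k).2.2 z
    simp only [e3]
    exact LT_of_Lp (fun k => (G k).2.1.continuous) (x := fun k => ee p (G k))
      (fun k => (Sm_mem p (G k)).coeFn_toLp) l1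
  · exact LT_of_Lp (fun k => dz_continuous (contDiff_Cv (G k).2.1 (G k).2.2))
      (x := fun k => fS h.out (G k)) (fun k => (SmS_mem h.out (G k)).coeFn_toLp) l2

end Pool.Agent.X151.MR
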