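import Mathlib
import Pool.Agent.X151.MR.Base

/-!
# Expansion at infinity
-/

set_option autoImplicit false

open Topology Filter Metric Set MeasureTheory Pool.Agent.Split938
open scoped ContDiff ENNReal

namespace Pool.Agent.X151.MR

theorem EE_eq {g : ℂ → ℂ} {B : ℝ} (h0 : ∀ s, B < ‖s‖ → g s = 0) (z : ℂ) :
    EE B g z = (Real.pi : ℂ)⁻¹ * ∫ s, g s / (z - s) := by
  rw [← Cv_kz h0, Cv_eq]

theorem geo {z s : ℂ} (hz : z ≠ 0) (hs : z - s ≠ 0) (N : ℕ) :
    1 / (z - s) = ∑ k ∈ Finset.range N, s ^ k / z ^ (k + 1) + s ^ N / z ^ N * (1 / (z - s)) := by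
  induction N with
  | zero => simp
  | succ N ih =>
    rw [Finset.sum_range_succ]
    conv_lhs => rw [ih]
    rw [add_assoc]
    congr 1
    field_simp
    ring

theorem expand {g : ℂ → ℂ} (hg : Integrable g) {A : ℝ} (hA : 0 < A)
    (h0 : ∀ s, A < ‖s‖ → g s = 0) (N : ℕ) {z : ℂ} (hz : 2 * A ≤ ‖z‖) :
    ‖EE (2 * A) g z - (Real.pi : ℂ)⁻¹ * ∑ k ∈ Finset.range N, (∫ s, g s * s ^ k) / z ^ (k + 1)‖ ≤
      (2 * A ^ N / Real.pi * ∫ s, ‖g s‖) / ‖z‖ ^ (N + 1) := by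
  have hpi := Real.pi_pos
  have hz0 : 0 < ‖z‖ := by linarith
  have hzne : z ≠ 0 := norm_pos_iff.1 hz0
  rw [EE_eq (fun s hs => h0 s (by linarith)) z, ← mul_sub, norm_mul, norm_inv, Complex.norm_real,
    Real.norm_of_nonneg hpi.le]
  have hk : ∀ k : ℕ, Integrable fun s => g s * s ^ k := by
    intro k
    refine (hg.norm.mul_const (A ^ k)).mono' (hg.1.mul (by fun_prop)) (Eventually.of_forall fun s => ?_)
    rw [norm_mul, norm_pow]
    by_cases hs : A < ‖s‖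
    · rw [h0 s hs]
      simp
    · exact mul_le_mul_of_nonneg_left (pow_le_pow_left₀ (norm_nonneg _) (not_lt.1 hs) k) (norm_nonneg _)
  have hm : AEStronglyMeasurable (fun s => g s / (z - s)) volume :=
    hg.1.mul ((measurable_const.sub measurable_id).inv.aestronglyMeasurable)
  have hgap : ∀ s, ‖s‖ ≤ A → ‖z‖ / 2 ≤ ‖z - s‖ := by
    intro s hs
    have := norm_sub_norm_le z s
    linarith
  have hi : Integrable fun s => g s / (z - s) := by
    refine (hg.norm.mul_const (2 / ‖z‖)).mono' hm (Eventually.of_forall fun s => ?_)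
    by_cases hs : A < ‖s‖
    · rw [h0 s hs]
      simp
    · rw [norm_div, div_eq_mul_inv, show 2 / ‖z‖ = (‖z‖ / 2)⁻¹ by rw [inv_div]]
      exact mul_le_mul_of_nonneg_left (inv_anti₀ (by positivity) (hgap s (not_lt.1 hs))) (norm_nonneg _)
  have e1 : (∫ s, g s / (z - s)) - ∑ k ∈ Finset.range N, (∫ s, g s * s ^ k) / z ^ (k + 1) =
      ∫ s, (g s / (z - s) - ∑ k ∈ Finset.range N, g s * s ^ k / z ^ (k + 1)) := by
    rw [integral_sub hi (integrable_finsetSum _ fun k _ => (hk k).div_const _),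
      integral_finsetSum _ fun k _ => (hk k).div_const _]
    congr 1
    refine Finset.sum_congr rfl fun k _ => ?_
    rw [integral_div]
  rw [e1]
  have h2 : ‖∫ s, (g s / (z - s) - ∑ k ∈ Finset.range N, g s * s ^ k / z ^ (k + 1))‖ ≤
      ∫ s, ‖g s‖ * (A ^ N / ‖z‖ ^ N * (2 / ‖z‖)) := by
    refine norm_integral_le_of_norm_le (hg.norm.mul_const _) (Eventually.of_forall fun s => ?_)
    by_cases hs : A < ‖s‖
    · rw [h0 s hs]
      simp
    · rw [not_lt] at hs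
      have hne : z - s ≠ 0 := by
        rw [← norm_pos_iff]
        linarith [hgap s hs]
      have e2 : g s / (z - s) - ∑ k ∈ Finset.range N, g s * s ^ k / z ^ (k + 1) =
          g s * (s ^ N / z ^ N * (1 / (z - s))) := by
        have h3 := geo hzne hne N
        have h4 : ∑ k ∈ Finset.range N, g s * s ^ k / z ^ (k + 1) =
            g s * ∑ k ∈ Finset.range N, s ^ k / z ^ (k + 1) := by
          rw [Finset.mul_sum]
          exact Finset.sum_congr rfl fun k _ => by rw [mul_div_assoc]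
        rw [h4, ← mul_one_div, ← mul_sub]
        congr 1
        rw [sub_eq_iff_eq_add', ← h3]
      rw [e2, norm_mul, norm_mul, norm_div, norm_div, norm_pow, norm_pow, norm_one]
      refine mul_le_mul_of_nonneg_left ?_ (norm_nonneg _)
      refine mul_le_mul ?_ ?_ (by positivity) (by positivity)
      · exact div_le_div_of_nonneg_right (pow_le_pow_left₀ (norm_nonneg _) hs N) (by positivity)
      · rw [show 2 / ‖z‖ = (‖z‖ / 2)⁻¹ by rw [inv_div], one_div]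
        exact inv_anti₀ (by positivity) (hgap s hs)
  rw [integral_mul_const] at h2
  calc Real.pi⁻¹ * _ ≤ Real.pi⁻¹ * ((∫ s, ‖g s‖) * (A ^ N / ‖z‖ ^ N * (2 / ‖z‖))) :=
        mul_le_mul_of_nonneg_left h2 (by positivity)
    _ = (2 * A ^ N / Real.pi * ∫ s, ‖g s‖) / ‖z‖ ^ (N + 1) := by
        rw [pow_succ]
        field_simp

theorem binom (z E : ℂ) (hE : ‖E‖ ≤ ‖z‖) (n : ℕ) :
    ‖(z + E) ^ n - z ^ n - n * z ^ (n - 1) * E‖ * ‖z‖ ^ 2 ≤ 4 ^ n * ‖z‖ ^ n * ‖E‖ ^ 2 := by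
  induction n with
  | zero =>
    simp
  | succ n ih =>
    have e1 : (z + E) ^ (n + 1) - z ^ (n + 1) - ((n + 1 : ℕ) : ℂ) * z ^ (n + 1 - 1) * E =
        (z + E) * ((z + E) ^ n - z ^ n - n * z ^ (n - 1) * E) + n * z ^ (n - 1) * E ^ 2 := by
      rcases n with _ | m
      · simp
      · simp only [Nat.add_sub_cancel]
        push_cast
        ring
    rw [e1]
    have h1 : ‖z + E‖ ≤ 2 * ‖z‖ := by
      have := norm_add_le z E
      linarith
    have h2 : ‖(n : ℂ) * z ^ (n - 1) * E ^ 2‖ * ‖z‖ ^ 2 ≤ 4 ^ n * (‖z‖ ^ (n + 1) * ‖E‖ ^ 2) := by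
      rw [norm_mul, norm_mul, norm_pow, norm_pow, Complex.norm_natCast]
      rcases n with _ | m
      · simp
        positivity
      · have h3 : ((m + 1 : ℕ) : ℝ) ≤ 4 ^ (m + 1) := by
          have : (m + 1) < 4 ^ (m + 1) := Nat.lt_pow_self (by norm_num)
          exact_mod_cast this.le
        calc ((m + 1 : ℕ) : ℝ) * ‖z‖ ^ (m + 1 - 1) * ‖E‖ ^ 2 * ‖z‖ ^ 2 =
              ((m + 1 : ℕ) : ℝ) * (‖z‖ ^ (m + 1 + 1) * ‖E‖ ^ 2) := by
              simp only [Nat.add_sub_cancel]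
              ring
          _ ≤ 4 ^ (m + 1) * (‖z‖ ^ (m + 1 + 1) * ‖E‖ ^ 2) :=
              mul_le_mul_of_nonneg_right h3 (by positivity)
    have h4 : ‖(z + E) * ((z + E) ^ n - z ^ n - n * z ^ (n - 1) * E)‖ * ‖z‖ ^ 2 ≤
        2 * ‖z‖ * (4 ^ n * ‖z‖ ^ n * ‖E‖ ^ 2) := by
      rw [norm_mul, mul_assoc]
      exact mul_le_mul h1 ih (by positivity) (by positivity)
    calc _ ≤ (‖(z + E) * ((z + E) ^ n - z ^ n - n * z ^ (n - 1) * E)‖ +
          ‖(n : ℂ) * z ^ (n - 1) * E ^ 2‖) * ‖z‖ ^ 2 :=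
          mul_le_mul_of_nonneg_right (norm_add_le _ _) (by positivity)
      _ ≤ 2 * ‖z‖ * (4 ^ n * ‖z‖ ^ n * ‖E‖ ^ 2) + 4 ^ n * (‖z‖ ^ (n + 1) * ‖E‖ ^ 2) := by
          rw [add_mul]
          exact add_le_add h4 h2
      _ = 3 * (4 ^ n * ‖z‖ ^ (n + 1) * ‖E‖ ^ 2) := by ring
      _ ≤ 4 * (4 ^ n * ‖z‖ ^ (n + 1) * ‖E‖ ^ 2) :=
          mul_le_mul_of_nonneg_right (by norm_num) (by positivity)
      _ = 4 ^ (n + 1) * ‖z‖ ^ (n + 1) * ‖E‖ ^ 2 := by ring

end Pool.Agent.X151.MR
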