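import Mathlib
import Pool.Agent.X151.MR.Cls

/-!
# Composition with polynomials
-/

set_option autoImplicit false

open Topology Filter Metric Set MeasureTheory Pool.Agent.Split938 Polynomial
open scoped ContDiff ENNReal

namespace Pool.Agent.X151.MR

open Pool.Agent.H713R5.QJ

theorem roots_card (T : ℂ[X]) (w : ℂ) : ((T - C w).roots.toFinset.card : ℕ) ≤ T.natDegree := by
  refine (Multiset.toFinset_card_le _).trans ((card_roots' _).trans (le_of_eq natDegree_sub_C))

theorem area_sum {T : ℂ[X]} (hT : 0 < T.natDegree) {g : ℂ → ℝ≥0∞} (hg : Measurable g) :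
    ∫⁻ z, g (T.eval z) * ENNReal.ofReal (‖T.derivative.eval z‖ ^ 2) ≤
      (T.natDegree : ℝ≥0∞) * ∫⁻ w, g w := by
  have h1 := af_holds T (fun z => g (T.eval z)) univ hT (hg.comp T.continuous.measurable)
    MeasurableSet.univ
  rw [preimage_univ, Measure.restrict_univ] at h1
  rw [← h1, ← lintegral_const_mul _ hg]
  refine lintegral_mono fun w => ?_
  have h2 : ∑ ζ ∈ (T - C w).roots.toFinset, g (T.eval ζ) = ∑ ζ ∈ (T - C w).roots.toFinset, g w := by
    refine Finset.sum_congr rfl fun ζ hζ => ?_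
    have : T.eval ζ = w := (af_mem hT w ζ).1 hζ
    rw [this]
  beta_reduce
  rw [h2, Finset.sum_const, nsmul_eq_mul]
  gcongr
  exact roots_card T w

theorem comp_ae {T : ℂ[X]} (hT : 0 < T.natDegree) {h : ℂ → ℂ} (hh : Measurable h)
    (h0 : h =ᵐ[volume] fun _ => 0) {D : ℂ → ℂ} (hD : ∀ z, ‖D z‖ = ‖T.derivative.eval z‖) :
    ∀ᵐ z, h (T.eval z) * D z = 0 := by
  have h1 := area_sum hT (g := fun w => ‖h w‖ₑ) hh.enorm
  have h2 : ∫⁻ w, ‖h w‖ₑ = 0 := by
    rw [lintegral_eq_zero_iff hh.enorm]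
    filter_upwards [h0] with w hw
    rw [hw]
    simp
  rw [h2, mul_zero, nonpos_iff_eq_zero, lintegral_eq_zero_iff] at h1
  · filter_upwards [h1] with z hz
    simp only [Pi.zero_apply, mul_eq_zero] at hz
    rcases hz with hz | hz
    · rw [enorm_eq_zero.1 hz, zero_mul]
    · rw [ENNReal.ofReal_eq_zero] at hz
      have h3 : ‖T.derivative.eval z‖ = 0 := by
        have := norm_nonneg (T.derivative.eval z)
        nlinarith
      rw [← hD, norm_eq_zero] at h3
      rw [h3, mul_zero]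
  · exact (hh.comp T.continuous.measurable).enorm.mul
      ((T.derivative.continuous.norm.pow 2).measurable.ennreal_ofReal)

theorem comp_norm {p : ℝ} (hp : 2 ≤ p) {T : ℂ[X]} (hT : 0 < T.natDegree) {D : ℂ → ℂ}
    (hD : ∀ z, ‖D z‖ = ‖T.derivative.eval z‖) (R : ℝ) : ∃ C : ℝ≥0∞, C ≠ ⊤ ∧ ∃ R' : ℝ,
      ∀ h : ℂ → ℂ, Measurable h → eLpNorm (fun z => h (T.eval z) * D z) (P p)
        (volume.restrict (closedBall 0 R)) ≤ C * eLpNorm h (P p) (volume.restrict (closedBall 0 R')) := by
  have hp0 : 0 < p := by linarith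
  obtain ⟨R', hR'⟩ := (isCompact_closedBall (0 : ℂ) R).exists_bound_of_continuousOn T.continuous.continuousOn
  obtain ⟨M₀, hM₀⟩ := (isCompact_closedBall (0 : ℂ) R).exists_bound_of_continuousOn
    T.derivative.continuous.continuousOn
  set M := max M₀ 0 with hM
  have hM0 : 0 ≤ M := le_max_right _ _
  set N : ℝ≥0∞ := ENNReal.ofReal (M ^ (p - 2)) * (T.natDegree : ℝ≥0∞) with hN
  have hNt : N ≠ ⊤ := ENNReal.mul_ne_top ENNReal.ofReal_ne_top (ENNReal.natCast_ne_top _)
  refine ⟨N ^ (1 / p), ENNReal.rpow_ne_top_of_nonneg (by positivity) hNt, R', fun h hh => ?_⟩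
  have hP0 : P p ≠ 0 := by simpa using hp0
  rw [eLpNorm_eq_lintegral_rpow_enorm_toReal hP0 ENNReal.ofReal_ne_top,
    eLpNorm_eq_lintegral_rpow_enorm_toReal hP0 ENNReal.ofReal_ne_top, ENNReal.toReal_ofReal hp0.le,
    ← ENNReal.mul_rpow_of_nonneg _ _ (by positivity)]
  refine ENNReal.rpow_le_rpow ?_ (by positivity)
  set g : ℂ → ℝ≥0∞ := (closedBall (0 : ℂ) R').indicator fun w => ‖h w‖ₑ ^ p with hg
  have hgm : Measurable g := (hh.enorm.pow_const p).indicator measurableSet_closedBall
  have h1 := area_sum hT hgm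
  rw [← lintegral_indicator measurableSet_closedBall, ← lintegral_indicator measurableSet_closedBall,
    hN, mul_assoc]
  refine le_trans ?_ (mul_le_mul_right h1 _)
  rw [← lintegral_const_mul]
  · refine lintegral_mono fun z => ?_
    beta_reduce
    by_cases hz : z ∈ closedBall (0 : ℂ) R
    · rw [indicator_of_mem hz, hg, indicator_of_mem (mem_closedBall_zero_iff.2 (hR' z hz)), enorm_mul,
        ENNReal.mul_rpow_of_nonneg _ _ hp0.le, ← mul_assoc, mul_comm (ENNReal.ofReal (M ^ (p - 2))),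
        mul_assoc]
      refine mul_le_mul_right ?_ _
      rw [← ofReal_norm, hD, ENNReal.ofReal_rpow_of_nonneg (norm_nonneg _) hp0.le,
        ← ENNReal.ofReal_mul (by positivity)]
      refine ENNReal.ofReal_le_ofReal ?_
      have e1 : ‖T.derivative.eval z‖ ^ p = ‖T.derivative.eval z‖ ^ (p - 2) *
          ‖T.derivative.eval z‖ ^ (2 : ℕ) := by
        rw [← Real.rpow_natCast, ← Real.rpow_add_of_nonneg (norm_nonneg _) (by linarith) (by norm_num)]
        congr 1
        norm_num
      rw [e1]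
      refine mul_le_mul_of_nonneg_right ?_ (by positivity)
      exact Real.rpow_le_rpow (norm_nonneg _) ((hM₀ z hz).trans (le_max_left _ _)) (by linarith)
    · rw [indicator_of_notMem hz]
      exact zero_le
  · exact (hgm.comp T.continuous.measurable).mul
      ((T.derivative.continuous.norm.pow 2).measurable.ennreal_ofReal)

theorem LT.comp {p : ℝ} (hp : 2 ≤ p) {v : ℕ → ℂ → ℂ} {φ : ℂ → ℂ} (h : LT p v φ) {T : ℂ[X]}
    (hT : 0 < T.natDegree) {D : ℂ → ℂ} (hD : ∀ z, ‖D z‖ = ‖T.derivative.eval z‖)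
    (hDc : Continuous D) :
    LT p (fun k z => v k (T.eval z) * D z) (fun z => φ (T.eval z) * D z) := by
  refine ⟨fun k => ((h.cont k).comp T.continuous).mul hDc,
    (h.meas.comp T.continuous.measurable).mul hDc.measurable, fun R => ?_⟩
  obtain ⟨C, hC, R', hb⟩ := comp_norm hp hT hD R
  have h1 := ENNReal.Tendsto.const_mul (a := C) (h.tend R') (Or.inr hC)
  rw [mul_zero] at h1
  refine tendsto_of_tendsto_of_tendsto_of_le_of_le tendsto_const_nhds h1 (fun _ => zero_le)
    (fun k => ?_)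
  have h2 := hb (fun z => v k z - φ z) ((h.cont k).measurable.sub h.meas)
  simpa only [sub_mul] using h2

theorem fderiv_eq (u : ℂ → ℂ) (w a : ℂ) :
    fderiv ℝ u w a = dz u w * a + dbar u w * (starRingEnd ℂ) a := by
  have h1 : a = a.re • (1 : ℂ) + a.im • Complex.I := by
    apply Complex.ext <;> simp
  have h2 : fderiv ℝ u w a = a.re * fderiv ℝ u w 1 + a.im * fderiv ℝ u w Complex.I := by
    conv_lhs => rw [h1]
    rw [map_add, map_smul, map_smul, Complex.real_smul, Complex.real_smul]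
  rw [h2]
  unfold dz dbar
  have h3 : (starRingEnd ℂ) a = a.re - a.im * Complex.I := by
    apply Complex.ext <;> simp
  have h4 : a = a.re + a.im * Complex.I := (Complex.re_add_im a).symm
  rw [h3]
  conv_rhs => rw [h4]
  simp only [Complex.add_re, Complex.ofReal_re, Complex.mul_re, Complex.I_re, mul_zero,
    Complex.ofReal_im, Complex.I_im, mul_one, sub_self, add_zero, Complex.add_im, Complex.mul_im,
    zero_add]
  linear_combination ((a.im : ℂ) * fderiv ℝ u w Complex.I) * Complex.I_sq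

theorem fderiv_comp' {u : ℂ → ℂ} (hu : ContDiff ℝ 1 u) (T : ℂ[X]) (z v : ℂ) :
    fderiv ℝ (fun z => u (T.eval z)) z v = fderiv ℝ u (T.eval z) (T.derivative.eval z * v) := by
  have h1 : HasFDerivAt u (fderiv ℝ u (T.eval z)) (T.eval z) :=
    (hu.differentiable (by simp) _).hasFDerivAt
  have h2 : HasFDerivAt (fun z => T.eval z) ((ContinuousLinearMap.toSpanSingleton ℂ
      (T.derivative.eval z)).restrictScalars ℝ : ℂ →L[ℝ] ℂ) z :=
    ((T.hasDerivAt z).hasFDerivAt).restrictScalars ℝ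
  have h3 := h1.comp z h2
  have h4 : fderiv ℝ (fun z => u (T.eval z)) z = _ := h3.fderiv
  rw [h4]
  simp [mul_comm]

theorem dbar_comp {u : ℂ → ℂ} (hu : ContDiff ℝ 1 u) (T : ℂ[X]) (z : ℂ) :
    dbar (fun z => u (T.eval z)) z = dbar u (T.eval z) * (starRingEnd ℂ) (T.derivative.eval z) := by
  conv_lhs => unfold dbar
  rw [fderiv_comp' hu, fderiv_comp' hu, fderiv_eq, fderiv_eq]
  simp only [map_mul, Complex.conj_I, mul_one]
  ring_nf
  simp only [Complex.I_sq]
  ring

theorem dz_comp {u : ℂ → ℂ} (hu : ContDiff ℝ 1 u) (T : ℂ[X]) (z : ℂ) :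
    dz (fun z => u (T.eval z)) z = dz u (T.eval z) * T.derivative.eval z := by
  conv_lhs => unfold dz
  rw [fderiv_comp' hu, fderiv_comp' hu, fderiv_eq, fderiv_eq]
  simp only [map_mul, Complex.conj_I, mul_one]
  ring_nf
  simp only [Complex.I_sq]
  ring

theorem Cl.comp {p : ℝ} (hp : 2 ≤ p) {F φ ψ : ℂ → ℂ} (h : Cl p F φ ψ) {T : ℂ[X]}
    (hT : 0 < T.natDegree) : Cl p (fun z => F (T.eval z))
      (fun z => φ (T.eval z) * (starRingEnd ℂ) (T.derivative.eval z))
      (fun z => ψ (T.eval z) * T.derivative.eval z) := by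
  obtain ⟨u, u1, u2, u3, u4⟩ := h
  have hTd : ContDiff ℝ 1 fun z => T.eval z := T.differentiable.contDiff.restrict_scalars ℝ
  refine ⟨fun k z => u k (T.eval z), fun k => (u1 k).comp hTd, u2.comp T.continuous, ?_, ?_⟩
  · convert u3.comp hp hT (D := fun z => (starRingEnd ℂ) (T.derivative.eval z))
      (fun z => RCLike.norm_conj _) (Complex.continuous_conj.comp T.derivative.continuous) using 3 with k z
    exact dbar_comp (u1 k) T z
  · convert u4.comp hp hT (D := fun z => T.derivative.eval z) (fun z => rfl)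
      T.derivative.continuous using 3 with k z
    exact dz_comp (u1 k) T z

end Pool.Agent.X151.MR
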