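import Mathlib
import Pool.Agent.X151.MR.Base
import Pool.Agent.X151.MR.Comp

/-!
# Uniqueness
-/

set_option autoImplicit false

open Topology Filter Metric Set MeasureTheory Pool.Agent.Split938
open scoped ContDiff ENNReal

namespace Pool.Agent.X151.MR

variable {p : ℝ}

theorem supp_d {u : ℂ → ℂ} {B : ℝ} (h0 : ∀ z, B < ‖z‖ → u z = 0) :
    (∀ z, B < ‖z‖ → dbar u z = 0) ∧ ∀ z, B < ‖z‖ → dz u z = 0 := by
  have key : ∀ z, B < ‖z‖ → u =ᶠ[𝓝 z] fun _ => 0 := by
    intro z hz
    have : {w : ℂ | B < ‖w‖} ∈ 𝓝 z := (isOpen_lt continuous_const continuous_norm).mem_nhds hz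
    filter_upwards [this] with w hw
    exact h0 w hw
  exact ⟨fun z hz => by rw [dbar_congr (key z hz)]; exact dbar_of_hasDerivAt (hasDerivAt_const z 0),
    fun z hz => by rw [dz_congr (key z hz)]; exact dz_of_hasDerivAt (hasDerivAt_const z 0)⟩

theorem supp_sub {v : ℂ → ℂ} {B : ℝ} (h0 : ∀ z, B < ‖z‖ → v z = 0) :
    Function.support v ⊆ closedBall (0 : ℂ) B := by
  intro z hz
  rw [mem_closedBall_zero_iff]
  by_contra h
  exact hz (h0 z (not_le.1 h))

theorem two_le (hp : 2 < p) {φ ψ : ℂ → ℂ} {u : ℕ → ℂ → ℂ} (u1 : ∀ k, ContDiff ℝ 1 (u k)) {B : ℝ}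
    (h0 : ∀ k, ∀ z, B < ‖z‖ → u k z = 0) (u3 : LT p (fun k => dbar (u k)) φ)
    (u4 : LT p (fun k => dz (u k)) ψ) :
    eLpNorm ψ (P 2) (volume.restrict (closedBall 0 B)) ≤
      eLpNorm φ (P 2) (volume.restrict (closedBall 0 B)) := by
  set ν := (volume : Measure ℂ).restrict (closedBall 0 B) with hν
  have hfin : IsFiniteMeasure ν :=
    ⟨by rw [hν, Measure.restrict_apply_univ]; exact measure_closedBall_lt_top⟩
  have hP : P 2 ≤ P p := ENNReal.ofReal_le_ofReal hp.le
  have h1P : 1 ≤ P 2 := one_le le_rfl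
  have conv : ∀ {v : ℕ → ℂ → ℂ} {χ : ℂ → ℂ}, LT p v χ →
      Tendsto (fun k => eLpNorm (fun z => v k z - χ z) (P 2) ν) atTop (𝓝 0) := by
    intro v χ h
    have hc : ν univ ^ (1 / (P 2).toReal - 1 / (P p).toReal) ≠ ⊤ := by
      refine ENNReal.rpow_ne_top_of_nonneg ?_ (measure_ne_top ν _)
      rw [ENNReal.toReal_ofReal (by norm_num), ENNReal.toReal_ofReal (by linarith), sub_nonneg]
      exact one_div_le_one_div_of_le (by norm_num) hp.le
    have h1 := ENNReal.Tendsto.mul_const (h.tend B) (Or.inr hc)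
    rw [zero_mul] at h1
    refine tendsto_of_tendsto_of_tendsto_of_le_of_le tendsto_const_nhds h1 (fun _ => zero_le)
      (fun k => ?_)
    exact eLpNorm_le_eLpNorm_mul_rpow_measure_univ hP
      ((h.cont k).measurable.sub h.meas).aestronglyMeasurable
  have c3 := conv u3
  have c4 := conv u4
  have hcs : ∀ k, HasCompactSupport (u k) := fun k =>
    HasCompactSupport.of_support_subset_isCompact (isCompact_closedBall (0 : ℂ) B) (supp_sub (h0 k))
  have step : ∀ k, eLpNorm ψ (P 2) ν ≤ eLpNorm φ (P 2) ν +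
      eLpNorm (fun z => dbar (u k) z - φ z) (P 2) ν + eLpNorm (fun z => dz (u k) z - ψ z) (P 2) ν := by
    intro k
    have m3 : AEStronglyMeasurable (fun z => dbar (u k) z - φ z) ν :=
      ((u3.cont k).measurable.sub u3.meas).aestronglyMeasurable
    have m4 : AEStronglyMeasurable (fun z => dz (u k) z - ψ z) ν :=
      ((u4.cont k).measurable.sub u4.meas).aestronglyMeasurable
    have e1 : eLpNorm (dz (u k)) (P 2) ν ≤ eLpNorm (dbar (u k)) (P 2) ν := by
      rw [hν, eLpNorm_restrict_eq_of_support_subset (supp_sub (supp_d (h0 k)).2),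
        eLpNorm_restrict_eq_of_support_subset (supp_sub (supp_d (h0 k)).1)]
      have := lp_hcs (p := 2) le_rfl (u1 k) (hcs k)
      rw [show (2 : ℝ) - 1 = 1 by norm_num, ENNReal.ofReal_one, one_mul] at this
      exact this
    have e2 : eLpNorm ψ (P 2) ν ≤ eLpNorm (dz (u k)) (P 2) ν +
        eLpNorm (fun z => dz (u k) z - ψ z) (P 2) ν := by
      have : ψ = dz (u k) - fun z => dz (u k) z - ψ z := by
        funext z
        simp
      conv_lhs => rw [this]
      exact eLpNorm_sub_le (u4.cont k).aestronglyMeasurable m4 h1P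
    have e3 : eLpNorm (dbar (u k)) (P 2) ν ≤ eLpNorm φ (P 2) ν +
        eLpNorm (fun z => dbar (u k) z - φ z) (P 2) ν := by
      have : dbar (u k) = φ + fun z => dbar (u k) z - φ z := by
        funext z
        simp
      conv_lhs => rw [this]
      exact eLpNorm_add_le u3.meas.aestronglyMeasurable m3 h1P
    calc eLpNorm ψ (P 2) ν ≤ _ := e2
      _ ≤ _ := by
        gcongr
        exact e1.trans e3
  have hlim : Tendsto (fun k => eLpNorm φ (P 2) ν + eLpNorm (fun z => dbar (u k) z - φ z) (P 2) ν +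
      eLpNorm (fun z => dz (u k) z - ψ z) (P 2) ν) atTop (𝓝 (eLpNorm φ (P 2) ν + 0 + 0)) :=
    (tendsto_const_nhds.add c3).add c4
  rw [add_zero, add_zero] at hlim
  exact ge_of_tendsto' hlim step

/-- the norm of a function of size `R ^ (-2)` on the disc of radius `2R` -/
theorem far_norm {W : ℂ → ℂ} {c R : ℝ} (hR : 0 < R) (hc : 0 ≤ c)
    (hW : ∀ z, ‖W z‖ ≤ c / R ^ 2) :
    eLpNorm W (P 2) (volume.restrict (closedBall 0 (2 * R))) ≤ ENNReal.ofReal (4 * c / R) := by
  refine (eLpNorm_le_of_ae_bound (C := c / R ^ 2) (Eventually.of_forall hW)).trans ?_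
  rw [Measure.restrict_apply_univ, Complex.volume_closedBall, ENNReal.toReal_ofReal (by norm_num)]
  have hv : ENNReal.ofReal (2 * R) ^ 2 * (NNReal.pi : ℝ≥0∞) =
      ENNReal.ofReal (4 * Real.pi * R ^ 2) := by
    rw [← ENNReal.ofReal_pow (by positivity), show (NNReal.pi : ℝ≥0∞) = ENNReal.ofReal Real.pi by
      rw [← NNReal.coe_real_pi, ENNReal.ofReal_coe_nnreal], ← ENNReal.ofReal_mul (by positivity)]
    congr 1
    ring
  rw [hv, ENNReal.ofReal_rpow_of_nonneg (by positivity) (by positivity),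
    ← ENNReal.ofReal_mul (by positivity)]
  refine ENNReal.ofReal_le_ofReal ?_
  have h1 : (4 * Real.pi * R ^ 2) ^ (2 : ℝ)⁻¹ ≤ 4 * R := by
    calc (4 * Real.pi * R ^ 2) ^ (2 : ℝ)⁻¹ ≤ ((4 * R) ^ 2) ^ (2 : ℝ)⁻¹ := by
          refine Real.rpow_le_rpow (by positivity) ?_ (by norm_num)
          nlinarith [Real.pi_lt_four, sq_nonneg R]
      _ = 4 * R := by
          rw [← one_div, ← Real.sqrt_eq_rpow, Real.sqrt_sq (by positivity)]
  calc (4 * Real.pi * R ^ 2) ^ (2 : ℝ)⁻¹ * (c / R ^ 2) ≤ 4 * R * (c / R ^ 2) :=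
        mul_le_mul_of_nonneg_right h1 (by positivity)
    _ = 4 * c / R := by field_simp

theorem corr {H : ℂ → ℂ} {C R₀ : ℝ} (hR₀ : 0 < R₀) (hC : 0 ≤ C)
    (hdec : ∀ z, R₀ ≤ ‖z‖ → ‖H z‖ ≤ C / ‖z‖) : ∃ c : ℝ, 0 ≤ c ∧ ∀ R, R₀ ≤ R →
      (∀ z, ‖H z * dbar (cut R) z‖ ≤ c / R ^ 2) ∧ (∀ z, ‖H z * dz (cut R) z‖ ≤ c / R ^ 2) := by
  obtain ⟨D, hD0, hD⟩ := cut_grad
  refine ⟨C * D, by positivity, fun R hR => ?_⟩
  have hR0 : 0 < R := by linarith
  have key : ∀ (w : ℂ → ℂ), (∀ z, ‖z‖ < R → w z = 0) → (∀ z, ‖w z‖ ≤ D / R) →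
      ∀ z, ‖H z * w z‖ ≤ C * D / R ^ 2 := by
    intro w w0 w1 z
    by_cases hz : ‖z‖ < R
    · rw [w0 z hz, mul_zero, norm_zero]
      positivity
    · rw [not_lt] at hz
      rw [norm_mul]
      have h1 : ‖H z‖ ≤ C / R := (hdec z (hR.trans hz)).trans (div_le_div_of_nonneg_left hC hR0 hz)
      calc ‖H z‖ * ‖w z‖ ≤ C / R * (D / R) := mul_le_mul h1 (w1 z) (norm_nonneg _) (by positivity)
        _ = C * D / R ^ 2 := by field_simp
  exact ⟨key _ (fun z hz => (cut_flat hR0 hz).1) (fun z => (hD R hR0 z).1),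
    key _ (fun z hz => (cut_flat hR0 hz).2) (fun z => (hD R hR0 z).2)⟩

theorem uniq_l2 (hp : 2 < p) {H φ ψ : ℂ → ℂ} (hCl : Cl p H φ ψ) {t : ℝ} (ht0 : 0 ≤ t) (ht1 : t < 1)
    (hB : ∀ᵐ z, ‖φ z‖ ≤ t * ‖ψ z‖) {C R₀ : ℝ} (hR₀ : 0 < R₀) (hC : 0 ≤ C)
    (hdec : ∀ z, R₀ ≤ ‖z‖ → ‖H z‖ ≤ C / ‖z‖) : ∀ᵐ z, ψ z = 0 := by
  obtain ⟨c, hc0, hc⟩ := corr hR₀ hC hdec
  obtain ⟨u, u1, u2, u3, u4⟩ := hCl
  have h1P : 1 ≤ P 2 := one_le le_rfl
  -- main estimate
  have main : ∀ R, R₀ ≤ R → ∀ r, r ≤ R → eLpNorm ψ (P 2) (volume.restrict (closedBall 0 r)) ≤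
      ENNReal.ofReal (8 * c / (1 - t) / R) := by
    intro R hR r hr
    have hR0 : 0 < R := by linarith
    have hη : ContDiff ℝ 1 (cut R) := (cut_smooth R).of_le (by exact_mod_cast le_top)
    set ν := (volume : Measure ℂ).restrict (closedBall 0 (2 * R)) with hν
    have a3 : LT p (fun k => dbar fun z => cut R z * u k z)
        (fun z => cut R z * φ z + H z * dbar (cut R) z) := by
      convert (u3.mul hp.le (UC.const hη.continuous)).add hp.le
        ((LT.const (dbar_continuous hη)).mul hp.le u2) using 3 with k z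
      rw [dbar_mul (hη.differentiable (by simp) z) ((u1 k).differentiable (by simp) z)]
      ring
    have a4 : LT p (fun k => dz fun z => cut R z * u k z)
        (fun z => cut R z * ψ z + H z * dz (cut R) z) := by
      convert (u4.mul hp.le (UC.const hη.continuous)).add hp.le
        ((LT.const (dz_continuous hη)).mul hp.le u2) using 3 with k z
      rw [dz_mul (hη.differentiable (by simp) z) ((u1 k).differentiable (by simp) z)]
      ring
    have key := two_le hp (u := fun k z => cut R z * u k z) (fun k => hη.mul (u1 k)) (B := 2 * R)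
      (fun k z hz => by rw [cut_zero hR0 hz.le, zero_mul]) a3 a4
    rw [← hν] at key
    have mH : Measurable H := u2.lim.measurable
    have mη : Measurable (cut R) := hη.continuous.measurable
    have m1 : AEStronglyMeasurable (fun z => cut R z * φ z) ν := (mη.mul u3.meas).aestronglyMeasurable
    have m2 : AEStronglyMeasurable (fun z => cut R z * ψ z) ν := (mη.mul u4.meas).aestronglyMeasurable
    have m3 : AEStronglyMeasurable (fun z => H z * dbar (cut R) z) ν :=
      (mH.mul (dbar_continuous hη).measurable).aestronglyMeasurable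
    have m4 : AEStronglyMeasurable (fun z => H z * dz (cut R) z) ν :=
      (mH.mul (dz_continuous hη).measurable).aestronglyMeasurable
    have f3 := far_norm hR0 hc0 (hc R hR).1
    have f4 := far_norm hR0 hc0 (hc R hR).2
    rw [← hν] at f3 f4
    set a := eLpNorm (fun z => cut R z * ψ z) (P 2) ν with ha
    have e1 : eLpNorm (fun z => cut R z * φ z) (P 2) ν ≤ ENNReal.ofReal t * a := by
      refine eLpNorm_le_mul_eLpNorm_of_ae_le_mul ?_ _
      refine ae_restrict_of_ae ?_
      filter_upwards [hB] with z hz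
      rw [norm_mul, norm_mul, mul_left_comm]
      exact mul_le_mul_of_nonneg_left hz (norm_nonneg _)
    have e2 : a ≤ eLpNorm (fun z => cut R z * ψ z + H z * dz (cut R) z) (P 2) ν +
        eLpNorm (fun z => H z * dz (cut R) z) (P 2) ν := by
      have : (fun z => cut R z * ψ z) = (fun z => cut R z * ψ z + H z * dz (cut R) z) -
          fun z => H z * dz (cut R) z := by
        funext z
        simp
      rw [ha]
      conv_lhs => rw [this]
      exact eLpNorm_sub_le (m2.add m4) m4 h1P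
    have e3 : eLpNorm (fun z => cut R z * φ z + H z * dbar (cut R) z) (P 2) ν ≤
        eLpNorm (fun z => cut R z * φ z) (P 2) ν + eLpNorm (fun z => H z * dbar (cut R) z) (P 2) ν :=
      eLpNorm_add_le m1 m3 h1P
    have e4 : a ≤ ENNReal.ofReal t * a + ENNReal.ofReal (4 * c / R) + ENNReal.ofReal (4 * c / R) := by
      refine e2.trans ?_
      gcongr
      exact key.trans (e3.trans (add_le_add e1 f3))
    have hafin : a ≠ ⊤ := by
      have h5 : MemLp ψ (P p) ν := u4.memLp hp.le (2 * R)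
      have hfin : IsFiniteMeasure ν :=
        ⟨by rw [hν, Measure.restrict_apply_univ]; exact measure_closedBall_lt_top⟩
      have h6 : MemLp ψ (P 2) ν := h5.mono_exponent (ENNReal.ofReal_le_ofReal hp.le)
      refine ne_top_of_le_ne_top h6.2.ne (eLpNorm_mono fun z => ?_)
      rw [norm_mul]
      exact mul_le_of_le_one_left (norm_nonneg _) (cut_le R z)
    have hcR : 0 ≤ 4 * c / R := by positivity
    have e5 : a ≤ ENNReal.ofReal (8 * c / (1 - t) / R) := by
      rw [← ENNReal.ofReal_toReal hafin]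
      refine ENNReal.ofReal_le_ofReal ?_
      have h7 := ENNReal.toReal_mono (by finiteness) e4
      rw [ENNReal.toReal_add (by finiteness) (by finiteness), ENNReal.toReal_add (by finiteness)
        (by finiteness), ENNReal.toReal_mul, ENNReal.toReal_ofReal ht0, ENNReal.toReal_ofReal hcR] at h7
      have h8 : (1 - t) * a.toReal ≤ 8 * c / R := by
        have : 8 * c / R = 4 * c / R + 4 * c / R := by ring
        rw [this]
        linarith
      have h9 : 0 < 1 - t := by linarith
      rw [div_right_comm, le_div_iff₀ h9, mul_comm]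
      exact h8
    refine le_trans ?_ e5
    have h10 : eLpNorm ψ (P 2) (volume.restrict (closedBall 0 r)) =
        eLpNorm (fun z => cut R z * ψ z) (P 2) (volume.restrict (closedBall 0 r)) := by
      refine eLpNorm_congr_ae ?_
      rw [EventuallyEq, ae_restrict_iff' measurableSet_closedBall]
      refine Eventually.of_forall fun z hz => ?_
      rw [mem_closedBall_zero_iff] at hz
      rw [cut_one hR0 (hz.trans hr), one_mul]
    rw [h10, ha, hν]
    exact eLpNorm_mono_measure _ (Measure.restrict_mono (closedBall_subset_closedBall (by linarith)) le_rfl)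
  have hzero : ∀ r : ℝ, eLpNorm ψ (P 2) (volume.restrict (closedBall 0 r)) = 0 := by
    intro r
    have hl : Tendsto (fun n : ℕ => ENNReal.ofReal (8 * c / (1 - t) / n)) atTop (𝓝 0) := by
      rw [← ENNReal.ofReal_zero]
      exact ENNReal.tendsto_ofReal (tendsto_const_div_atTop_nhds_zero_nat _)
    refine le_antisymm (ge_of_tendsto hl ?_) zero_le
    filter_upwards [eventually_ge_atTop ⌈max R₀ r⌉₊] with n hn
    have hn' : max R₀ r ≤ n := Nat.ceil_le.mp hn
    exact main n ((le_max_left _ _).trans hn') r ((le_max_right _ _).trans hn')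
  have hae : ∀ n : ℕ, ∀ᵐ z, z ∈ closedBall (0 : ℂ) n → ψ z = 0 := by
    intro n
    have h1 := hzero n
    rw [eLpNorm_eq_zero_iff u4.meas.aestronglyMeasurable (by simp), EventuallyEq,
      ae_restrict_iff' measurableSet_closedBall] at h1
    exact h1
  filter_upwards [ae_all_iff.2 hae] with z hz
  obtain ⟨n, hn⟩ := exists_nat_ge ‖z‖
  exact hz n (mem_closedBall_zero_iff.2 hn)

end Pool.Agent.X151.MR
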