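import Mathlib
import Pool.Agent.X151.MR.Uniq

/-!
# Uniqueness: pointwise form
-/

set_option autoImplicit false

open Topology Filter Metric Set MeasureTheory Pool.Agent.Split938
open scoped ContDiff ENNReal

namespace Pool.Agent.X151.MR

variable {p : ℝ}

theorem kz_pair [h : Fact (2 < p)] (B : ℝ) (z : ℂ) {f : ℂ → ℂ}
    (hf : MemLp f (P p) (volume.restrict (closedBall 0 B))) :
    Integrable (fun s => kz B z s * f s) ∧ ‖∫ s, kz B z s * f s‖ ≤
      (eLpNorm (kz B z) (P (qq p)) volume).toReal *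
        (eLpNorm f (P p) (volume.restrict (closedBall 0 B))).toReal := by
  have h1 : MemLp ((closedBall (0 : ℂ) B).indicator f) (P p) volume :=
    (memLp_indicator_iff_restrict measurableSet_closedBall).2 hf
  have h2 := holder_pair h.out (kz_memLp (qq_lt h.out).1 (qq_lt h.out).2 B z) h1
  have e1 : (fun s => kz B z s * (closedBall (0 : ℂ) B).indicator f s) = fun s => kz B z s * f s := by
    funext s
    by_cases hs : s ∈ closedBall (0 : ℂ) B
    · rw [indicator_of_mem hs]
    · rw [kz, indicator_of_notMem hs, zero_mul, zero_mul]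
  rw [e1, eLpNorm_indicator_eq_eLpNorm_restrict measurableSet_closedBall] at h2
  exact h2

theorem rep {u : ℂ → ℂ} (hu : ContDiff ℝ 1 u) {B : ℝ} (h0 : ∀ z, B < ‖z‖ → u z = 0) (z : ℂ) :
    u z = EE B (dbar u) z := by
  have hc : HasCompactSupport u :=
    HasCompactSupport.of_support_subset_isCompact (isCompact_closedBall (0 : ℂ) B) (supp_sub h0)
  have h1 := Pool.Agent.Helper366.IV.cauchy_pompeiu u hu hc z
  have hpi : (Real.pi : ℂ) ≠ 0 := by exact_mod_cast Real.pi_ne_zero
  rw [← Cv_kz (supp_d h0).1]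
  have h2 : Cv (dbar u) z = (Real.pi : ℂ)⁻¹ * (Real.pi * u z) := by
    rw [← h1, Cv]
    congr 1
    refine integral_congr_ae (Eventually.of_forall fun s => ?_)
    simp only [dbar]
    rw [div_eq_mul_inv _ s, mul_comm]
  rw [h2]
  field_simp

theorem rep_lim [h : Fact (2 < p)] {u : ℕ → ℂ → ℂ} (u1 : ∀ k, ContDiff ℝ 1 (u k)) {B : ℝ}
    (h0 : ∀ k, ∀ z, B < ‖z‖ → u k z = 0) {χ : ℂ → ℂ} (u3 : LT p (fun k => dbar (u k)) χ) {z a : ℂ}
    (ha : Tendsto (fun k => u k z) atTop (𝓝 a)) : a = EE B χ z := by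
  refine tendsto_nhds_unique ha ?_
  have e1 : (fun k => u k z) = fun k => EE B (dbar (u k)) z := funext fun k => rep (u1 k) (h0 k) z
  rw [e1, tendsto_iff_norm_sub_tendsto_zero]
  have hpi := Real.pi_pos
  set N := (eLpNorm (kz B z) (P (qq p)) volume).toReal with hN
  have l1 := ((ENNReal.tendsto_toReal ENNReal.zero_ne_top).comp (u3.tend B)).const_mul (Real.pi⁻¹ * N)
  rw [ENNReal.toReal_zero, mul_zero] at l1
  refine squeeze_zero (fun _ => norm_nonneg _) (fun k => ?_) l1
  have m1 : MemLp (dbar (u k)) (P p) (volume.restrict (closedBall 0 B)) := cont_ball (u3.cont k) p B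
  have m2 : MemLp χ (P p) (volume.restrict (closedBall 0 B)) := u3.memLp h.out.le B
  have h1 := kz_pair B z m1
  have h2 := kz_pair B z m2
  have h3 := kz_pair B z (m1.sub m2)
  have e2 : EE B (dbar (u k)) z - EE B χ z = (Real.pi : ℂ)⁻¹ *
      ∫ s, kz B z s * (dbar (u k) - χ) s := by
    rw [EE, EE, ← mul_sub, ← integral_sub h1.1 h2.1]
    congr 2
    funext s
    rw [Pi.sub_apply, mul_sub]
  rw [e2, norm_mul, norm_inv, Complex.norm_real, Real.norm_of_nonneg hpi.le, mul_assoc]
  exact mul_le_mul_of_nonneg_left h3.2 (by positivity)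

theorem uniq [h : Fact (2 < p)] {H φ ψ : ℂ → ℂ} (hCl : Cl p H φ ψ) {t : ℝ} (ht0 : 0 ≤ t)
    (ht1 : t < 1) (hB : ∀ᵐ z, ‖φ z‖ ≤ t * ‖ψ z‖) {C R₀ : ℝ} (hR₀ : 0 < R₀) (hC : 0 ≤ C)
    (hdec : ∀ z, R₀ ≤ ‖z‖ → ‖H z‖ ≤ C / ‖z‖) :
    (∀ᵐ z, φ z = 0) ∧ (∀ᵐ z, ψ z = 0) ∧ ∀ z, H z = 0 := by
  have hψ := uniq_l2 h.out hCl ht0 ht1 hB hR₀ hC hdec
  have hφ : ∀ᵐ z, φ z = 0 := by
    filter_upwards [hψ, hB] with z h1 h2
    rw [h1, norm_zero, mul_zero] at h2
    exact norm_le_zero_iff.1 h2
  refine ⟨hφ, hψ, fun z => ?_⟩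
  obtain ⟨c, hc0, hc⟩ := corr hR₀ hC hdec
  obtain ⟨u, u1, u2, u3, u4⟩ := hCl
  have hpi := Real.pi_pos
  have main : ∀ R, R₀ ≤ R → 2 * ‖z‖ ≤ R → ‖H z‖ ≤ 8 * c / R := by
    intro R hR hz
    have hR0 : 0 < R := by linarith
    have hη : ContDiff ℝ 1 (cut R) := (cut_smooth R).of_le (by exact_mod_cast le_top)
    have a3 : LT p (fun k => dbar fun z => cut R z * u k z)
        (fun z => cut R z * φ z + H z * dbar (cut R) z) := by
      convert (u3.mul h.out.le (UC.const hη.continuous)).add h.out.le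
        ((LT.const (dbar_continuous hη)).mul h.out.le u2) using 3 with k z
      rw [dbar_mul (hη.differentiable (by simp) z) ((u1 k).differentiable (by simp) z)]
      ring
    have hlim : Tendsto (fun k => u k z) atTop (𝓝 (H z)) := by
      rw [tendsto_iff_norm_sub_tendsto_zero, Metric.tendsto_atTop]
      intro ε hε
      obtain ⟨N, hN⟩ := eventually_atTop.1 (u2.tend ‖z‖ (ε / 2) (by positivity))
      refine ⟨N, fun n hn => ?_⟩
      rw [dist_zero_right, norm_norm]
      have := hN n hn z (mem_closedBall_zero_iff.2 le_rfl)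
      linarith
    have hz1 : ‖z‖ ≤ R := by linarith [norm_nonneg z]
    have hlim' : Tendsto (fun k => cut R z * u k z) atTop (𝓝 (H z)) := by
      rw [cut_one hR0 hz1]
      simpa using hlim
    have e1 := rep_lim (u := fun k z => cut R z * u k z) (fun k => hη.mul (u1 k)) (B := 2 * R)
      (fun k z hz => by rw [cut_zero hR0 hz.le, zero_mul]) a3 hlim'
    have e2 : EE (2 * R) (fun z => cut R z * φ z + H z * dbar (cut R) z) z =
        EE (2 * R) (fun z => H z * dbar (cut R) z) z := by
      rw [EE, EE]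
      congr 1
      refine integral_congr_ae ?_
      filter_upwards [hφ] with s hs
      rw [hs, mul_zero, zero_add]
    rw [e1, e2, EE, norm_mul, norm_inv, Complex.norm_real, Real.norm_of_nonneg hpi.le]
    have h3 : ‖∫ s, kz (2 * R) z s * (H s * dbar (cut R) s)‖ ≤
        ∫ s, (closedBall (0 : ℂ) (2 * R)).indicator (fun _ => 2 / R * (c / R ^ 2)) s := by
      refine norm_integral_le_of_norm_le ?_ (Eventually.of_forall fun s => ?_)
      · exact (integrable_indicator_iff measurableSet_closedBall).2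
          (integrableOn_const measure_closedBall_lt_top.ne)
      · by_cases hs : s ∈ closedBall (0 : ℂ) (2 * R)
        · rw [indicator_of_mem hs, kz, indicator_of_mem hs]
          by_cases hsR : ‖s‖ < R
          · rw [(cut_flat hR0 hsR).1, mul_zero, mul_zero, norm_zero]
            positivity
          · rw [not_lt] at hsR
            rw [norm_mul, norm_inv]
            refine mul_le_mul ?_ ((hc R hR).1 s) (norm_nonneg _) (by positivity)
            have h5 : R / 2 ≤ ‖z - s‖ := by
              have := norm_sub_norm_le s z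
              rw [norm_sub_rev] at this
              linarith
            rw [show 2 / R = (R / 2)⁻¹ by rw [inv_div]]
            exact inv_anti₀ (by positivity) h5
        · rw [kz, indicator_of_notMem hs, zero_mul, norm_zero, indicator_of_notMem hs]
    have h4 : (∫ s, (closedBall (0 : ℂ) (2 * R)).indicator (fun _ => 2 / R * (c / R ^ 2)) s) =
        8 * c / R * Real.pi := by
      rw [integral_indicator measurableSet_closedBall, setIntegral_const, Measure.real,
        Complex.volume_closedBall, ENNReal.toReal_mul, ENNReal.toReal_pow,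
        ENNReal.toReal_ofReal (by positivity)]
      simp only [ENNReal.coe_toReal, NNReal.coe_real_pi, smul_eq_mul]
      field_simp
      ring
    rw [h4] at h3
    calc Real.pi⁻¹ * _ ≤ Real.pi⁻¹ * (8 * c / R * Real.pi) := mul_le_mul_of_nonneg_left h3 (by positivity)
      _ = 8 * c / R := by field_simp
  have hl : Tendsto (fun n : ℕ => 8 * c / (n : ℝ)) atTop (𝓝 0) :=
    tendsto_const_div_atTop_nhds_zero_nat _
  have h5 : ‖H z‖ ≤ 0 := by
    refine ge_of_tendsto hl ?_
    filter_upwards [eventually_ge_atTop ⌈max R₀ (2 * ‖z‖)⌉₊] with n hn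
    have hn' : max R₀ (2 * ‖z‖) ≤ n := Nat.ceil_le.mp hn
    exact main n ((le_max_left _ _).trans hn') ((le_max_right _ _).trans hn')
  exact norm_le_zero_iff.1 h5

end Pool.Agent.X151.MR
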