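import Mathlib
import Pool.Agent.X151.MR.Uniq2
import Pool.Agent.X151.MR.Exp
import Pool.Agent.X151.LF.Core

/-!
# Deformation of `z ^ d + c` by an invariant Beltrami differential
-/

set_option autoImplicit false

open Topology Filter Metric Set MeasureTheory Pool.Agent.Split938 Polynomial
open scoped ContDiff ENNReal

namespace Pool.Agent.X151.MR

open Pool.Agent.X151.LF (f K Bd pb RR deriv_f int_rot step RR_pos)

variable {p : ℝ}

/-- a solution `z + C φ` of the Beltrami equation `φ = t μ ψ` -/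
structure Fm (p : ℝ) (μ : ℂ → ℂ) (t : ℂ) (A : ℝ) (ph ps : ℂ → ℂ) : Prop where
  cl : Cl p (fun z => z + EE (2 * A) ph z) ph ps
  eq : ∀ z, ph z = t * μ z * ps z
  int : Integrable ph
  supp : ∀ z, A < ‖z‖ → ph z = 0

theorem ae_rot {ζ : ℂ} (hζ : ‖ζ‖ = 1) {Q : ℂ → Prop} (h : ∀ᵐ z : ℂ, Q z) : ∀ᵐ z : ℂ, Q (ζ * z) := by
  set w : Circle := ⟨ζ, by simpa [Submonoid.unitSphere] using hζ⟩ with hw
  have h1 : MeasurePreserving (rotation w) := (rotation w).measurePreserving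
  exact h1.quasiMeasurePreserving.ae h

theorem rot_eq {d : ℕ} (hd : 2 ≤ d) {c : ℂ} {μ : ℂ → ℂ} (hinv : pb d c μ =ᵐ[volume] μ) {ζ : ℂ}
    (hζ : ‖ζ‖ = 1) (hd1 : ζ ^ d = 1) : ∀ᵐ z, μ (ζ * z) = ζ ^ 2 * μ z := by
  have hζ0 : ζ ≠ 0 := by
    intro h
    rw [h, norm_zero] at hζ
    exact zero_ne_one hζ
  have hconj : (starRingEnd ℂ) ζ = ζ⁻¹ := by
    rw [Complex.inv_def, Complex.normSq_eq_norm_sq, hζ]
    simp
  filter_upwards [hinv, ae_rot hζ hinv] with z h1 h2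
  rw [← h1, ← h2]
  unfold pb
  rw [deriv_f, deriv_f]
  have e : f d c (ζ * z) = f d c z := by
    unfold f
    rw [mul_pow, hd1, one_mul]
  rw [e]
  by_cases hz : z = 0
  · rw [hz, mul_zero]
    have : (0 : ℂ) ^ (d - 1) = 0 := zero_pow (by omega)
    rw [this, mul_zero, div_zero, mul_zero]
  have hz1 : z ^ (d - 1) ≠ 0 := pow_ne_zero _ hz
  have hdc : (d : ℂ) ≠ 0 := by
    have : d ≠ 0 := by omega
    exact_mod_cast this
  have hζ1 : ζ ^ (d - 1) ≠ 0 := pow_ne_zero _ hζ0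
  have hinv : ζ ^ (d - 1) = ζ⁻¹ := by
    refine eq_inv_of_mul_eq_one_left ?_
    rw [← pow_succ]
    have : d - 1 + 1 = d := by omega
    rw [this, hd1]
  rw [mul_pow, hinv, map_mul, map_mul, map_mul, map_inv₀, hconj, inv_inv]
  field_simp

theorem EE_small {A : ℝ} (hA : 0 < A) {g : ℂ → ℂ} (hg : Integrable g)
    (h0 : ∀ s, A < ‖s‖ → g s = 0) {z : ℂ} (hz : 2 * A ≤ ‖z‖) :
    ‖EE (2 * A) g z‖ ≤ (2 / Real.pi * ∫ s, ‖g s‖) / ‖z‖ := by
  have := expand hg hA h0 0 hz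
  simpa using this

theorem symm [h : Fact (2 < p)] {μ : ℂ → ℂ} {t : ℂ} {A : ℝ} {ph ps : ℂ → ℂ}
    (hF : Fm p μ t A ph ps) (hb : ∀ z, ‖μ z‖ ≤ 1) (ht : ‖t‖ < 1) (hA : 0 < A) {ζ : ℂ}
    (hζ : ‖ζ‖ = 1) (hμ : ∀ᵐ z, μ (ζ * z) = ζ ^ 2 * μ z) :
    (∀ z, EE (2 * A) ph (ζ * z) = ζ * EE (2 * A) ph z) ∧ ∀ᵐ z, ph (ζ * z) = ζ ^ 2 * ph z := by
  have hp : 2 ≤ p := h.out.le
  have hζ0 : ζ ≠ 0 := by
    intro h
    rw [h, norm_zero] at hζ
    exact zero_ne_one hζ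
  have hconj : (starRingEnd ℂ) ζ = ζ⁻¹ := by
    rw [Complex.inv_def, Complex.normSq_eq_norm_sq, hζ]
    simp
  have hT : 0 < (C ζ * Polynomial.X : ℂ[X]).natDegree := by
    rw [natDegree_C_mul_X _ hζ0]
    exact one_pos
  have h1 := hF.cl.comp hp hT
  simp only [eval_mul, eval_C, eval_X, derivative_mul, derivative_C, zero_mul, derivative_X, mul_one,
    zero_add] at h1
  have h4 := (h1.smul hp ζ⁻¹).add hp (hF.cl.smul hp (-1))
  have hpi := Real.pi_pos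
  set N := 2 / Real.pi * ∫ s, ‖ph s‖ with hN
  have hN0 : 0 ≤ N := by positivity
  obtain ⟨u1, -, u3⟩ := uniq h4 (norm_nonneg t) ht (by
    filter_upwards [hμ] with z hz
    have e : ζ⁻¹ * (ph (ζ * z) * (starRingEnd ℂ) ζ) + -1 * ph z =
        t * μ z * (ζ⁻¹ * (ps (ζ * z) * ζ) + -1 * ps z) := by
      rw [hF.eq, hF.eq z, hz, hconj]
      field_simp
    rw [e, norm_mul, norm_mul]
    refine mul_le_mul_of_nonneg_right ?_ (norm_nonneg _)
    exact mul_le_of_le_one_right (norm_nonneg _) (hb z)) (C := 2 * N) (R₀ := 2 * A) (by positivity)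
      (by positivity) (fun z hz => by
    have e : ζ⁻¹ * (ζ * z + EE (2 * A) ph (ζ * z)) + -1 * (z + EE (2 * A) ph z) =
        ζ⁻¹ * EE (2 * A) ph (ζ * z) - EE (2 * A) ph z := by
      field_simp
      ring
    have hz' : 2 * A ≤ ‖ζ * z‖ := by rwa [norm_mul, hζ, one_mul]
    have b1 := EE_small hA hF.int hF.supp hz'
    have b2 := EE_small hA hF.int hF.supp hz
    rw [norm_mul ζ z, hζ, one_mul, ← hN] at b1
    rw [← hN] at b2
    rw [e]
    refine (norm_sub_le _ _).trans ?_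
    rw [norm_mul, norm_inv, hζ, inv_one, one_mul]
    have e3 : 2 * N / ‖z‖ = N / ‖z‖ + N / ‖z‖ := by ring
    rw [e3]
    exact add_le_add b1 b2)
  constructor
  · intro z
    have h5 := u3 z
    field_simp at h5
    linear_combination h5
  · filter_upwards [u1] with z hz
    rw [hconj] at hz
    field_simp at hz
    linear_combination hz

theorem moment_zero {d : ℕ} {ph : ℂ → ℂ} {ζ : ℂ} (hprim : IsPrimitiveRoot ζ d)
    (hζ : ‖ζ‖ = 1) (hs : ∀ᵐ z, ph (ζ * z) = ζ ^ 2 * ph z) {k : ℕ} (hk : k + 2 < d) :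
    ∫ s, ph s * s ^ k = 0 := by
  have h2 : ∫ z, ph z * z ^ k = ζ ^ (k + 2) * ∫ z, ph z * z ^ k := by
    rw [← integral_const_mul]
    conv_lhs => rw [← int_rot ζ hζ (fun z => ph z * z ^ k)]
    refine integral_congr_ae ?_
    filter_upwards [hs] with z hz
    rw [hz, mul_pow]
    ring
  have h3 : ζ ^ (k + 2) ≠ 1 := by
    rw [Ne, hprim.pow_eq_one_iff_dvd]
    intro h
    exact absurd (Nat.le_of_dvd (by omega) h) (by omega)
  have h4 : (1 - ζ ^ (k + 2)) * ∫ z, ph z * z ^ k = 0 := by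
    rw [sub_mul, one_mul, ← h2, sub_self]
  rcases mul_eq_zero.1 h4 with h5 | h5
  · exact absurd (sub_eq_zero.1 h5).symm h3
  · exact h5

/-- the deformed parameter -/
noncomputable def cpar (d : ℕ) (c : ℂ) (ph : ℂ → ℂ) : ℂ :=
  c - d * ((Real.pi : ℂ)⁻¹ * ∫ s, ph s * s ^ (d - 2))

theorem conj_eq [h : Fact (2 < p)] {d : ℕ} (hd : 2 ≤ d) {c : ℂ} {μ : ℂ → ℂ} {t : ℂ} {A : ℝ}
    {ph ps : ℂ → ℂ} (hF : Fm p μ t A ph ps) (hb : ∀ z, ‖μ z‖ ≤ 1) (ht : ‖t‖ < 1) (hA : 0 < A)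
    (hinv : pb d c μ =ᵐ[volume] μ) (z : ℂ) :
    f d c z + EE (2 * A) ph (f d c z) = (z + EE (2 * A) ph z) ^ d + cpar d c ph := by
  have hp : 2 ≤ p := h.out.le
  have hpi := Real.pi_pos
  have hprim : IsPrimitiveRoot (Complex.exp (2 * Real.pi * Complex.I / d)) d :=
    Complex.isPrimitiveRoot_exp d (by omega)
  have hζ : ‖Complex.exp (2 * Real.pi * Complex.I / d)‖ = 1 := hprim.norm'_eq_one (by omega)
  obtain ⟨-, hs⟩ := symm hF hb ht hA hζ (rot_eq hd hinv hζ hprim.pow_eq_one)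
  have hmz : ∀ k, k + 2 < d → ∫ s, ph s * s ^ k = 0 := fun k hk => moment_zero hprim hζ hs hk
  obtain ⟨e, rfl⟩ : ∃ e, d = e + 2 := ⟨d - 2, by omega⟩
  set b : ℂ := (Real.pi : ℂ)⁻¹ * ∫ s, ph s * s ^ (e + 2 - 2) with hbdef
  set N := ∫ s, ‖ph s‖ with hN
  have hN0 : 0 ≤ N := by positivity
  set C₀ := 2 / Real.pi * N with hC₀
  set C₁ := 2 * A ^ (e + 1) / Real.pi * N with hC₁
  have hC₀0 : 0 ≤ C₀ := by positivity
  have hC₁0 : 0 ≤ C₁ := by positivity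
  have x0 : ∀ z : ℂ, 2 * A ≤ ‖z‖ → ‖EE (2 * A) ph z‖ ≤ C₀ / ‖z‖ := fun z hz =>
    EE_small hA hF.int hF.supp hz
  have x1 : ∀ z : ℂ, 2 * A ≤ ‖z‖ → ‖EE (2 * A) ph z - b / z ^ (e + 1)‖ ≤ C₁ / ‖z‖ ^ (e + 2) := by
    intro z hz
    have h1 := expand hF.int hA hF.supp (e + 1) hz
    rw [Finset.sum_range_succ, Finset.sum_eq_zero, zero_add] at h1
    · have e1 : b / z ^ (e + 1) = (Real.pi : ℂ)⁻¹ * ((∫ s, ph s * s ^ e) / z ^ (e + 1)) := by
        rw [hbdef, Nat.add_sub_cancel, mul_div_assoc]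
      rw [e1]
      exact h1
    · intro k hk
      rw [Finset.mem_range] at hk
      rw [hmz k (by omega), zero_div]
  -- the equation for the difference
  have hTdeg : (Polynomial.X ^ (e + 2) + C c : ℂ[X]).natDegree = e + 2 := natDegree_X_pow_add_C
  have g1 := hF.cl.comp hp (T := Polynomial.X ^ (e + 2) + C c) (by rw [hTdeg]; omega)
  have g2 := (hF.cl.pow hp (e + 2)).smul hp (-1)
  have g3 := (g1.add hp g2).add hp (Cl.const (p := p) (-cpar (e + 2) c ph))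
  have hT : ∀ z, (Polynomial.X ^ (e + 2) + C c : ℂ[X]).eval z = f (e + 2) c z := by
    intro z
    simp [f]
  have hT' : ∀ z, (Polynomial.X ^ (e + 2) + C c : ℂ[X]).derivative.eval z = deriv (f (e + 2) c) z := by
    intro z
    rw [deriv_f]
    simp
    left
    ring
  simp only [hT, hT'] at g3
  set C₂ := ‖b‖ + C₁ with hC₂
  set R₀ := max (max (2 * A) (RR c)) (max 1 C₀) with hR₀
  obtain ⟨-, -, u3⟩ := uniq g3 (norm_nonneg t) ht (by
    have hz0 : ∀ᵐ z : ℂ, z ≠ 0 := by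
      rw [ae_iff]
      simp
    filter_upwards [hinv, hz0] with z hz hz0
    have hne : deriv (f (e + 2) c) z ≠ 0 := by
      rw [deriv_f]
      refine mul_ne_zero ?_ (pow_ne_zero _ hz0)
      exact_mod_cast (by omega : e + 2 ≠ 0)
    have h5 : μ (f (e + 2) c z) * (starRingEnd ℂ) (deriv (f (e + 2) c) z) =
        μ z * deriv (f (e + 2) c) z := by
      have h6 : μ (f (e + 2) c z) * (starRingEnd ℂ) (deriv (f (e + 2) c) z) /
          deriv (f (e + 2) c) z = μ z := hz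
      rwa [div_eq_iff hne] at h6
    have e2 : ph (f (e + 2) c z) * (starRingEnd ℂ) (deriv (f (e + 2) c) z) +
        -1 * (((e + 2 : ℕ) : ℂ) * (z + EE (2 * A) ph z) ^ (e + 2 - 1) * ph z) + 0 =
        t * μ z * (ps (f (e + 2) c z) * deriv (f (e + 2) c) z +
        -1 * (((e + 2 : ℕ) : ℂ) * (z + EE (2 * A) ph z) ^ (e + 2 - 1) * ps z) + 0) := by
      rw [hF.eq (f (e + 2) c z), hF.eq z]
      linear_combination (t * ps (f (e + 2) c z)) * h5
    rw [e2, norm_mul, norm_mul]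
    refine mul_le_mul_of_nonneg_right ?_ (norm_nonneg _)
    exact mul_le_of_le_one_right (norm_nonneg _) (hb z))
      (C := C₀ + 4 ^ (e + 2) * C₂ ^ 2 + (e + 2 : ℕ) * C₁) (R₀ := R₀) (by positivity) (by positivity)
      (fun z hz => by
    have hz1 : 2 * A ≤ ‖z‖ := (le_max_left _ _).trans ((le_max_left _ _).trans hz)
    have hz2 : RR c ≤ ‖z‖ := (le_max_right _ _).trans ((le_max_left _ _).trans hz)
    have hz3 : 1 ≤ ‖z‖ := (le_max_left _ _).trans ((le_max_right _ _).trans hz)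
    have hz4 : C₀ ≤ ‖z‖ := (le_max_right _ _).trans ((le_max_right _ _).trans hz)
    have hzp : 0 < ‖z‖ := by linarith
    have hzne : z ≠ 0 := norm_pos_iff.1 hzp
    have hfz : ‖z‖ ≤ ‖f (e + 2) c z‖ := by
      have := step hd hz2
      linarith
    set E := EE (2 * A) ph z with hE
    set r := E - b / z ^ (e + 1) with hr
    have y0 : ‖E‖ ≤ C₀ / ‖z‖ := x0 z hz1
    have y1 : ‖r‖ ≤ C₁ / ‖z‖ ^ (e + 2) := x1 z hz1
    have y2 : ‖EE (2 * A) ph (f (e + 2) c z)‖ ≤ C₀ / ‖z‖ :=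
      (x0 _ (hz1.trans hfz)).trans (div_le_div_of_nonneg_left hC₀0 hzp hfz)
    have y3 : ‖E‖ * ‖z‖ ^ (e + 1) ≤ C₂ := by
      have h1 : E = b / z ^ (e + 1) + r := by
        rw [hr]
        ring
      rw [h1]
      have h2 : ‖b / z ^ (e + 1) + r‖ ≤ ‖b‖ / ‖z‖ ^ (e + 1) + C₁ / ‖z‖ ^ (e + 1) := by
        refine (norm_add_le _ _).trans (add_le_add ?_ (y1.trans ?_))
        · rw [norm_div, norm_pow]
        · exact div_le_div_of_nonneg_left hC₁0 (by positivity)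
            (pow_le_pow_right₀ hz3 (by omega))
      calc ‖b / z ^ (e + 1) + r‖ * ‖z‖ ^ (e + 1) ≤
            (‖b‖ / ‖z‖ ^ (e + 1) + C₁ / ‖z‖ ^ (e + 1)) * ‖z‖ ^ (e + 1) :=
            mul_le_mul_of_nonneg_right h2 (by positivity)
        _ = C₂ := by
            rw [hC₂]
            field_simp
    have y4 : ‖E‖ ≤ ‖z‖ := by
      refine y0.trans ?_
      rw [div_le_iff₀ hzp]
      nlinarith
    have y5 := binom z E y4 (e + 2)
    set D := (z + E) ^ (e + 2) - z ^ (e + 2) - ((e + 2 : ℕ) : ℂ) * z ^ (e + 2 - 1) * E with hD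
    have y6 : ‖D‖ ≤ 4 ^ (e + 2) * C₂ ^ 2 / ‖z‖ := by
      rw [le_div_iff₀ hzp]
      have h1 : ‖D‖ * ‖z‖ ≤ ‖D‖ * ‖z‖ ^ 2 * ‖z‖ ^ e := by
        rw [mul_assoc, ← pow_add]
        refine mul_le_mul_of_nonneg_left ?_ (norm_nonneg _)
        calc ‖z‖ = ‖z‖ ^ 1 := (pow_one _).symm
          _ ≤ ‖z‖ ^ (2 + e) := pow_le_pow_right₀ hz3 (by omega)
      refine h1.trans ?_
      calc ‖D‖ * ‖z‖ ^ 2 * ‖z‖ ^ e ≤ 4 ^ (e + 2) * ‖z‖ ^ (e + 2) * ‖E‖ ^ 2 * ‖z‖ ^ e :=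
            mul_le_mul_of_nonneg_right y5 (by positivity)
        _ = 4 ^ (e + 2) * (‖E‖ * ‖z‖ ^ (e + 1)) ^ 2 := by ring
        _ ≤ 4 ^ (e + 2) * C₂ ^ 2 := by
            refine mul_le_mul_of_nonneg_left ?_ (by positivity)
            exact pow_le_pow_left₀ (by positivity) y3 2
    have y7 : ‖((e + 2 : ℕ) : ℂ) * z ^ (e + 1) * r‖ ≤ (e + 2 : ℕ) * C₁ / ‖z‖ := by
      rw [norm_mul, norm_mul, norm_pow, Complex.norm_natCast]
      calc ((e + 2 : ℕ) : ℝ) * ‖z‖ ^ (e + 1) * ‖r‖ ≤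
            ((e + 2 : ℕ) : ℝ) * ‖z‖ ^ (e + 1) * (C₁ / ‖z‖ ^ (e + 2)) :=
            mul_le_mul_of_nonneg_left y1 (by positivity)
        _ = (e + 2 : ℕ) * C₁ / ‖z‖ := by
            rw [pow_succ ‖z‖ (e + 1)]
            field_simp
    have e3 : f (e + 2) c z + EE (2 * A) ph (f (e + 2) c z) + -1 * (z + E) ^ (e + 2) +
        -cpar (e + 2) c ph = EE (2 * A) ph (f (e + 2) c z) - D - ((e + 2 : ℕ) : ℂ) * z ^ (e + 1) * r := by
      rw [cpar, ← hbdef, hD, hr]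
      simp only [f, show e + 2 - 1 = e + 1 by omega]
      field_simp
      ring
    rw [e3]
    have h9 := norm_sub_le (EE (2 * A) ph (f (e + 2) c z) - D) (((e + 2 : ℕ) : ℂ) * z ^ (e + 1) * r)
    have h10 := norm_sub_le (EE (2 * A) ph (f (e + 2) c z)) D
    have e4 : (C₀ + 4 ^ (e + 2) * C₂ ^ 2 + (e + 2 : ℕ) * C₁) / ‖z‖ =
        C₀ / ‖z‖ + 4 ^ (e + 2) * C₂ ^ 2 / ‖z‖ + (e + 2 : ℕ) * C₁ / ‖z‖ := by ring
    rw [e4]
    linarith)
  have h7 := u3 z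
  linear_combination h7

end Pool.Agent.X151.MR
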