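import Mathlib
import Pool.Agent.X151.MR.Base

/-!
# The solution of the Beltrami equation
-/

set_option autoImplicit false

open Topology Filter Metric Set MeasureTheory Pool.Agent.Split938
open scoped ContDiff ENNReal

namespace Pool.Agent.X151.MR

variable {p : ℝ}

theorem mu_memLp {μ : ℂ → ℂ} (hm : Measurable μ) (hb : ∀ z, ‖μ z‖ ≤ 1) {A : ℝ}
    (h0 : ∀ z, A < ‖z‖ → μ z = 0) : MemLp μ (P p) volume := by
  have hfin : IsFiniteMeasure ((volume : Measure ℂ).restrict (closedBall 0 A)) :=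
    ⟨by rw [Measure.restrict_apply_univ]; exact measure_closedBall_lt_top⟩
  have h1 : MemLp μ (P p) (volume.restrict (closedBall 0 A)) :=
    MemLp.of_bound hm.aestronglyMeasurable 1 (Eventually.of_forall hb)
  have h2 := (memLp_indicator_iff_restrict measurableSet_closedBall).2 h1
  have e : (closedBall (0 : ℂ) A).indicator μ = μ := by
    rw [indicator_eq_self]
    intro z hz
    rw [mem_closedBall_zero_iff]
    by_contra h
    exact hz (h0 z (not_le.1 h))
  rwa [e] at h2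

section

variable [h : Fact (2 < p)] {μ : ℂ → ℂ} (hm : Measurable μ) (hb : ∀ z, ‖μ z‖ ≤ 1)

/-- the operator `μ S` -/
noncomputable def TT : X p →L[ℂ] X p := (Mo hm hb).comp (SS p)

theorem TT_le : ‖TT (p := p) hm hb‖ ≤ p - 1 := by
  refine ContinuousLinearMap.opNorm_le_bound _ (by linarith [h.out]) fun x => ?_
  exact (Mo_le hm hb _).trans (SS_le x)

/-- the solution of `φ = t μ (1 + S φ)` -/
noncomputable def Ph (hL : MemLp μ (P p) volume) (t : ℂ) : X p :=
  t • (Ring.inverse (1 - t • TT (p := p) hm hb)) hL.toLp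

theorem unit_one {t : ℂ} (ht : ‖t‖ * (p - 1) < 1) : IsUnit (1 - t • TT (p := p) hm hb) := by
  have h1 : ‖t • TT (p := p) hm hb‖ < 1 := by
    rw [norm_smul]
    exact (mul_le_mul_of_nonneg_left (TT_le hm hb) (norm_nonneg _)).trans_lt ht
  exact (Units.oneSub _ h1).isUnit

theorem Ph_eq (hL : MemLp μ (P p) volume) {t : ℂ} (ht : ‖t‖ * (p - 1) < 1) :
    Ph hm hb hL t = t • hL.toLp + t • TT (p := p) hm hb (Ph hm hb hL t) := by
  have h1 := Ring.mul_inverse_cancel _ (unit_one (p := p) hm hb ht)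
  have h2 : (1 - t • TT (p := p) hm hb) (Ph hm hb hL t) = t • hL.toLp := by
    unfold Ph
    rw [map_smul]
    congr 1
    have h3 := congrArg (fun L : X p →L[ℂ] X p => L hL.toLp) h1
    exact h3
  rw [_root_.sub_apply, one_apply_eq_self, _root_.smul_apply] at h2
  exact sub_eq_iff_eq_add.1 h2

theorem Ph_ae (hL : MemLp μ (P p) volume) {t : ℂ} (ht : ‖t‖ * (p - 1) < 1) :
    ∀ᵐ z, Ph hm hb hL t z = t * μ z * (1 + SS p (Ph hm hb hL t) z) := by
  have h1 := Ph_eq hm hb hL ht
  have h2 := Lp.coeFn_add (t • hL.toLp) (t • TT (p := p) hm hb (Ph hm hb hL t))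
  have h3 := Lp.coeFn_smul t hL.toLp
  have h4 := Lp.coeFn_smul t (TT (p := p) hm hb (Ph hm hb hL t))
  have h5 := Mo_coe hm hb (SS p (Ph hm hb hL t))
  rw [← h1] at h2
  filter_upwards [h2, h3, h4, h5, hL.coeFn_toLp] with z e2 e3 e4 e5 e6
  rw [e2, Pi.add_apply, e3, e4, Pi.smul_apply, Pi.smul_apply, e6]
  have e7 : (TT (p := p) hm hb (Ph hm hb hL t)) z = μ z * (SS p (Ph hm hb hL t)) z := e5
  rw [e7, smul_eq_mul, smul_eq_mul]
  ring

theorem inv_diff {t : ℂ} (ht : ‖t‖ * (p - 1) < 1) :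
    DifferentiableAt ℂ (fun t : ℂ => Ring.inverse (1 - t • TT (p := p) hm hb)) t := by
  have h1 : DifferentiableAt ℂ (fun t : ℂ => (1 : X p →L[ℂ] X p) - t • TT (p := p) hm hb) t :=
    (differentiableAt_const _).sub (differentiableAt_id.smul_const _)
  exact h1.inverse (unit_one (p := p) hm hb ht)

theorem Ph_diff (hL : MemLp μ (P p) volume) {t : ℂ} (ht : ‖t‖ * (p - 1) < 1) :
    DifferentiableAt ℂ (Ph hm hb hL) t :=
  differentiableAt_id.smul ((inv_diff hm hb ht).clm_apply (differentiableAt_const _))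

theorem Ph_deriv (hL : MemLp μ (P p) volume) : HasDerivAt (Ph hm hb hL) hL.toLp 0 := by
  have h0 : ‖(0 : ℂ)‖ * (p - 1) < 1 := by
    rw [norm_zero, zero_mul]
    exact one_pos
  have h1 : DifferentiableAt ℂ (fun t : ℂ => (Ring.inverse (1 - t • TT (p := p) hm hb)) hL.toLp) 0 :=
    (inv_diff hm hb h0).clm_apply (differentiableAt_const _)
  have h2 := (hasDerivAt_id (0 : ℂ)).smul h1.hasDerivAt
  have h3 : id (0 : ℂ) • deriv (fun t : ℂ => (Ring.inverse (1 - t • TT (p := p) hm hb)) hL.toLp) 0 +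
      (1 : ℂ) • (Ring.inverse (1 - (0 : ℂ) • TT (p := p) hm hb)) hL.toLp = hL.toLp := by
    rw [id, zero_smul, zero_add, zero_smul, sub_zero, Ring.inverse_one, one_smul]
    rfl
  rw [h3] at h2
  exact h2

end

end Pool.Agent.X151.MR
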