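import Mathlib
import Pool.Agent.X151.MR.Fam
import Pool.Agent.X151.MR.Sol

/-!
# Holomorphic families of parameters from invariant Beltrami differentials
-/

set_option autoImplicit false

open Topology Filter Metric Set MeasureTheory Pool.Agent.Split938
open scoped ContDiff ENNReal

namespace Pool.Agent.X151.MR

open Pool.Agent.X151.LF (f K Bd pb RR deriv_f int_rot step RR_pos K_sub isCompact_K iter_mem)

variable {p : ℝ}

theorem LT.congr {v : ℕ → ℂ → ℂ} {φ φ' : ℂ → ℂ} (h : LT p v φ) (hm : Measurable φ')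
    (he : φ =ᵐ[volume] φ') : LT p v φ' := by
  refine ⟨h.cont, hm, fun R => ?_⟩
  refine (h.tend R).congr fun k => eLpNorm_congr_ae ?_
  refine ae_restrict_of_ae ?_
  filter_upwards [he] with z hz
  rw [hz]

theorem Cl.congr {F φ φ' ψ : ℂ → ℂ} (h : Cl p F φ ψ) (hm : Measurable φ')
    (he : φ =ᵐ[volume] φ') : Cl p F φ' ψ := by
  obtain ⟨u, u1, u2, u3, u4⟩ := h
  exact ⟨u, u1, u2, u3.congr hm he, u4⟩

theorem Cl.cont {F φ ψ : ℂ → ℂ} (h : Cl p F φ ψ) : Continuous F := by
  obtain ⟨u, -, u2, -⟩ := h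
  exact u2.lim

/-- truncated monomials -/
noncomputable def km (A : ℝ) (k : ℕ) : ℂ → ℂ := (closedBall (0 : ℂ) A).indicator fun s => s ^ k

theorem km_memLp (A : ℝ) (k : ℕ) (q : ℝ) : MemLp (km A k) (P q) volume :=
  (memLp_indicator_iff_restrict measurableSet_closedBall).2 (cont_ball (continuous_pow k) q A)

theorem exists_Fm [h : Fact (2 < p)] {μ : ℂ → ℂ} (hm : Measurable μ) (hb : ∀ z, ‖μ z‖ ≤ 1) {A : ℝ}
    (hA : 0 < A) (h0 : ∀ z, A < ‖z‖ → μ z = 0) {t : ℂ} (ht : ‖t‖ * (p - 1) < 1) :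
    ∃ ph ps : ℂ → ℂ, Fm p μ t A ph ps ∧ ∀ k : ℕ, ∫ s, ph s * s ^ k =
      pr (km_memLp A k (qq p)) (Ph hm hb (mu_memLp (p := p) hm hb h0) t) := by
  set Φ := Ph hm hb (mu_memLp (p := p) hm hb h0) t with hΦ
  have hae := Ph_ae hm hb (mu_memLp (p := p) hm hb h0) ht
  rw [← hΦ] at hae
  have hSm : Measurable (SS p Φ : ℂ → ℂ) := (Lp.stronglyMeasurable _).measurable
  set ps : ℂ → ℂ := fun z => 1 + SS p Φ z with hps
  have hpsm : Measurable ps := measurable_const.add hSm
  set ph : ℂ → ℂ := fun z => t * μ z * ps z with hph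
  have hphm : Measurable ph := (measurable_const.mul hm).mul hpsm
  have he : (Φ : ℂ → ℂ) =ᵐ[volume] ph := hae
  have hsupp : ∀ z, A < ‖z‖ → ph z = 0 := by
    intro z hz
    rw [hph]
    beta_reduce
    rw [h0 z hz]
    simp
  have hMo : Mo (cut_meas A) (cut_le A) Φ = Φ := by
    refine Lp.ext ?_
    filter_upwards [Mo_coe (cut_meas A) (cut_le A) Φ, he] with z e1 e2
    rw [e1]
    by_cases hz : ‖z‖ ≤ A
    · rw [cut_one hA hz, one_mul]
    · rw [e2, hsupp z (not_le.1 hz), mul_zero]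
  have hbase := base hA Φ hMo
  have hEE : EE (2 * A) Φ = EE (2 * A) ph := by
    funext z
    rw [EE, EE]
    congr 1
    refine integral_congr_ae ?_
    filter_upwards [he] with s hs
    rw [hs]
  rw [hEE] at hbase
  have hid : Cl p (fun z => z) (fun _ => 0) (fun _ => 1) := by
    have h1 := Cl.of_contDiff (p := p) (u := fun z : ℂ => z) contDiff_id
    have e1 : dbar (fun z : ℂ => z) = fun _ => 0 := funext fun z => dbar_of_hasDerivAt (hasDerivAt_id z)
    have e2 : dz (fun z : ℂ => z) = fun _ => 1 := funext fun z => dz_of_hasDerivAt (hasDerivAt_id z)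
    rwa [e1, e2] at h1
  have hcl := hid.add h.out.le (hbase.congr hphm he)
  simp only [zero_add] at hcl
  have hint : Integrable ph := by
    have h1 : MemLp ph (P p) volume := (memLp_congr_ae he).1 (Lp.memLp Φ)
    have hfin : IsFiniteMeasure ((volume : Measure ℂ).restrict (closedBall 0 A)) :=
      ⟨by rw [Measure.restrict_apply_univ]; exact measure_closedBall_lt_top⟩
    have h2 : IntegrableOn ph (closedBall 0 A) := (h1.restrict _).integrable (one_le h.out.le)
    refine h2.integrable_of_forall_notMem_eq_zero fun z hz => hsupp z ?_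
    rw [mem_closedBall_zero_iff, not_le] at hz
    exact hz
  refine ⟨ph, ps, ⟨hcl, fun z => rfl, hint, hsupp⟩, fun k => ?_⟩
  rw [pr_coe]
  refine integral_congr_ae ?_
  filter_upwards [he] with s hs
  rw [hs]
  by_cases hz : s ∈ closedBall (0 : ℂ) A
  · rw [km, indicator_of_mem hz, mul_comm]
  · rw [mem_closedBall_zero_iff, not_le] at hz
    rw [hsupp s hz, zero_mul, mul_zero]

/-- **the holomorphic family of parameters of an invariant Beltrami differential** -/
theorem family [h : Fact (2 < p)] {d : ℕ} (hd : 2 ≤ d) {c : ℂ} {μ : ℂ → ℂ}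
    (hμ : Bd d c μ 1) (hinv : pb d c μ =ᵐ[volume] μ) :
    ∃ g : ℂ → ℂ, (∀ t : ℂ, ‖t‖ * (p - 1) < 1 → DifferentiableAt ℂ g t ∧
      ∃ F : ℂ → ℂ, Continuous F ∧ F 0 = 0 ∧ (∃ B : ℝ, ∀ z, ‖F z - z‖ ≤ B) ∧
        ∀ z, F (f d c z) = f d (g t) (F z)) ∧
      g 0 = c ∧ HasDerivAt g (-(d / Real.pi) * ∫ z, μ z * z ^ (d - 2)) 0 := by
  have hA := RR_pos c
  have h0 : ∀ z, RR c < ‖z‖ → μ z = 0 := by
    intro z hz
    refine hμ.supp z fun hzK => ?_
    have := K_sub hd c hzK
    rw [mem_closedBall_zero_iff] at this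
    linarith
  set hL := mu_memLp (p := p) hμ.meas hμ.bound h0 with hLdef
  set Λ := pr (p := p) (km_memLp (RR c) (d - 2) (qq p)) with hΛ
  refine ⟨fun t => c - d * ((Real.pi : ℂ)⁻¹ * Λ (Ph hμ.meas hμ.bound hL t)), fun t ht => ⟨?_, ?_⟩, ?_, ?_⟩
  · have h1 := Ph_diff hμ.meas hμ.bound hL ht
    have h2 : DifferentiableAt ℂ (fun t => Λ (Ph hμ.meas hμ.bound hL t)) t :=
      Λ.differentiableAt.comp t h1
    exact (differentiableAt_const _).sub ((h2.const_mul _).const_mul _)
  · obtain ⟨ph, ps, hF, hmom⟩ := exists_Fm hμ.meas hμ.bound hA h0 ht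
    have ht1 : ‖t‖ < 1 := by
      have h1 : 1 < p - 1 := by linarith [h.out]
      have h2 : ‖t‖ * 1 ≤ ‖t‖ * (p - 1) := mul_le_mul_of_nonneg_left h1.le (norm_nonneg _)
      linarith
    have hcp : cpar d c ph = c - d * ((Real.pi : ℂ)⁻¹ * Λ (Ph hμ.meas hμ.bound hL t)) := by
      rw [cpar, hmom]
    beta_reduce
    rw [← hcp]
    have hconj := conj_eq hd hF hμ.bound ht1 hA hinv
    have hprim : IsPrimitiveRoot (Complex.exp (2 * Real.pi * Complex.I / d)) d :=
      Complex.isPrimitiveRoot_exp d (by omega)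
    have hζ : ‖Complex.exp (2 * Real.pi * Complex.I / d)‖ = 1 := hprim.norm'_eq_one (by omega)
    obtain ⟨hs, -⟩ := symm hF hμ.bound ht1 hA hζ (rot_eq hd hinv hζ hprim.pow_eq_one)
    have hE0 : EE (2 * RR c) ph 0 = 0 := by
      have h1 := hs 0
      rw [mul_zero] at h1
      have h2 : Complex.exp (2 * Real.pi * Complex.I / d) ≠ 1 := hprim.ne_one (by omega)
      have h3 : (1 - Complex.exp (2 * Real.pi * Complex.I / d)) * EE (2 * RR c) ph 0 = 0 := by
        linear_combination h1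
      rcases mul_eq_zero.1 h3 with h4 | h4
      · exact absurd (sub_eq_zero.1 h4).symm h2
      · exact h4
    have hFc : Continuous fun z => z + EE (2 * RR c) ph z := hF.cl.cont
    have hEc : Continuous (EE (2 * RR c) ph) := by
      have h1 := hFc.sub continuous_id
      refine h1.congr fun z => ?_
      simp
    refine ⟨fun z => z + EE (2 * RR c) ph z, hFc, ?_, ?_, hconj⟩
    · beta_reduce
      rw [hE0, add_zero]
    · obtain ⟨B, hB⟩ := (isCompact_closedBall (0 : ℂ) (2 * RR c)).exists_bound_of_continuousOn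
        hEc.continuousOn
      set N := 2 / Real.pi * ∫ s, ‖ph s‖ with hN
      have hpi := Real.pi_pos
      have hN0 : 0 ≤ N := by positivity
      refine ⟨max B (N / (2 * RR c)), fun z => ?_⟩
      rw [add_sub_cancel_left]
      by_cases hz : 2 * RR c ≤ ‖z‖
      · refine ((EE_small hA hF.int hF.supp hz).trans ?_).trans (le_max_right _ _)
        exact div_le_div_of_nonneg_left hN0 (by positivity) hz
      · exact (hB z (mem_closedBall_zero_iff.2 (not_le.1 hz).le)).trans (le_max_left _ _)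
  · have h1 : Ph hμ.meas hμ.bound hL 0 = 0 := by
      unfold Ph
      rw [zero_smul]
    beta_reduce
    rw [h1, map_zero, mul_zero, mul_zero, sub_zero]
  · have h1 := Ph_deriv hμ.meas hμ.bound hL
    have h2 : HasDerivAt (fun t => Λ (Ph hμ.meas hμ.bound hL t)) (Λ hL.toLp) 0 :=
      Λ.hasFDerivAt.comp_hasDerivAt (0 : ℂ) h1
    have h3 := ((h2.const_mul ((Real.pi : ℂ)⁻¹)).const_mul (d : ℂ)).const_sub c
    have h4 : Λ hL.toLp = ∫ z, μ z * z ^ (d - 2) := by
      rw [hΛ, pr_coe]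
      refine integral_congr_ae ?_
      filter_upwards [hL.coeFn_toLp] with s hs
      rw [hs]
      by_cases hz : s ∈ closedBall (0 : ℂ) (RR c)
      · rw [km, indicator_of_mem hz, mul_comm]
      · rw [mem_closedBall_zero_iff, not_le] at hz
        rw [h0 s hz, zero_mul, mul_zero]
    rw [h4] at h3
    refine h3.congr_deriv ?_
    ring

end Pool.Agent.X151.MR
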