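import Mathlib
import Pool.Agent.H400R3.HI.Open
import Pool.Agent.X151.LF.Fun

/-!
# The critical orbit enters the basin of an attracting cycle
-/

set_option autoImplicit false

open Topology Filter Metric Set

namespace Pool.Agent.X151.MR

open Pool.Agent.X151.LF (f K RR deriv_f step RR_pos far_iter not_mem_of_far mem_iff diff_iter f_mem_iff)

theorem diff_f (d : ℕ) (c : ℂ) : Differentiable ℂ (f d c) := by
  unfold f
  fun_prop

/-- a small disc around an attracting periodic point lies in the filled Julia set -/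
theorem attr_disc {d : ℕ} (hd : 2 ≤ d) {c : ℂ} {p : ℕ} (hp : 0 < p) {z : ℂ}
    (hz : (f d c)^[p] z = z) (ha : ‖deriv (f d c)^[p] z‖ < 1) :
    ∃ δ : ℝ, 0 < δ ∧ ball z δ ⊆ K d c := by
  set g := (f d c)^[p] with hg
  have hgd : Differentiable ℂ g := (diff_f d c).iterate p
  obtain ⟨q, hq1, hq2⟩ := exists_between ha
  have hq0 : 0 < q := (norm_nonneg _).trans_lt hq1
  have h1 : HasDerivAt g (deriv g z) z := (hgd z).hasDerivAt
  have h2 := h1.isLittleO.def (show 0 < q - ‖deriv g z‖ by linarith)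
  obtain ⟨δ, hδ, h3⟩ := Metric.eventually_nhds_iff_ball.1 h2
  have hstep : ∀ w ∈ ball z δ, ‖g w - z‖ ≤ q * ‖w - z‖ := by
    intro w hw
    have h4 := h3 w hw
    rw [hz] at h4
    have e : g w - z = (g w - z - (w - z) • deriv g z) + (w - z) • deriv g z := by ring
    rw [e]
    refine (norm_add_le _ _).trans ?_
    rw [norm_smul]
    nlinarith [norm_nonneg (w - z)]
  have hmem : ∀ k : ℕ, ∀ w ∈ ball z δ, g^[k] w ∈ ball z δ := by
    intro k
    induction k with
    | zero => exact fun w hw => hw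
    | succ k ih =>
      intro w hw
      rw [Function.iterate_succ_apply']
      have h5 := ih w hw
      have h6 := hstep _ h5
      rw [mem_ball_iff_norm] at h5 ⊢
      nlinarith [norm_nonneg (g^[k] w - z)]
  refine ⟨δ, hδ, fun w hw => ?_⟩
  by_contra hwK
  rw [mem_iff hd] at hwK
  push Not at hwK
  obtain ⟨N, hN⟩ := hwK
  have hR0 := RR_pos c
  have hN0 : 0 < ‖(f d c)^[N] w‖ := hR0.trans hN
  obtain ⟨m, hm⟩ := pow_unbounded_of_one_lt ((‖z‖ + δ) / ‖(f d c)^[N] w‖) (by norm_num : (1 : ℝ) < 2)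
  rw [div_lt_iff₀ hN0] at hm
  -- choose k with p k ≥ N + m
  have h7 : N + m ≤ p * (N + m) := Nat.le_mul_of_pos_left _ hp
  obtain ⟨j, hj⟩ := Nat.exists_eq_add_of_le h7
  have h8 := hmem (N + m) w hw
  rw [hg, ← Function.iterate_mul, hj, show N + m + j = (m + j) + N by ring,
    Function.iterate_add_apply] at h8
  have h9 := (far_iter hd hN.le (m + j)).1
  rw [mem_ball_iff_norm] at h8
  have h10 : ‖(f d c)^[m + j] ((f d c)^[N] w)‖ ≤ ‖z‖ + δ := by
    have := norm_add_le ((f d c)^[m + j] ((f d c)^[N] w) - z) z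
    rw [sub_add_cancel] at this
    linarith
  have h11 : (2 : ℝ) ^ m ≤ 2 ^ (m + j) := pow_le_pow_right₀ (by norm_num) (by omega)
  have h12 : 2 ^ m * ‖(f d c)^[N] w‖ ≤ 2 ^ (m + j) * ‖(f d c)^[N] w‖ :=
    mul_le_mul_of_nonneg_right h11 hN0.le
  linarith

/-- **Fatou's theorem**: the critical orbit enters the interior of the filled Julia set if there
is an attracting cycle -/
theorem fatou {d : ℕ} (hd : 2 ≤ d) {c : ℂ} {p : ℕ} (hp : 0 < p) {z : ℂ}
    (hz : (f d c)^[p] z = z) (ha : ‖deriv (f d c)^[p] z‖ < 1) :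
    ∃ m : ℕ, (f d c)^[m] 0 ∈ interior (K d c) := by
  obtain ⟨δ, hδ, hsub⟩ := attr_disc hd hp hz ha
  by_contra hcon
  push Not at hcon
  have hno : ∀ m : ℕ, (f d c)^[m] 0 ∉ ball z δ := fun m hm =>
    hcon m (interior_maximal hsub isOpen_ball hm)
  have hG := diff_f d c
  have hR0 := RR_pos c
  have hzfix : ∀ k : ℕ, (f d c)^[p * k] z = z := by
    intro k
    rw [Function.iterate_mul]
    exact Function.iterate_fixed hz k
  have hnc : ∀ N : ℕ, ∀ w, (f d c)^[N] w ∈ ball z δ → deriv (f d c)^[N] w ≠ 0 := by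
    intro N w hw h0
    obtain ⟨j, hj, h1⟩ := Pool.Agent.H400R3.HI.exists_crit_iter hG N h0
    rw [deriv_f] at h1
    have hdc : (d : ℂ) ≠ 0 := by
      have : d ≠ 0 := by omega
      exact_mod_cast this
    have h2 : (f d c)^[j] w = 0 := by
      rcases mul_eq_zero.1 h1 with h3 | h3
      · exact absurd h3 hdc
      · exact pow_eq_zero_iff (by omega) |>.1 h3
    refine hno (N - j) ?_
    rw [← h2, ← Function.iterate_add_apply, Nat.sub_add_cancel hj.le]
    exact hw
  set B : ℝ := max (RR c) (‖z‖ + δ) with hB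
  have hB0 : 0 < B := hR0.trans_le (le_max_left _ _)
  have key : ∀ k : ℕ, 1 ≤ ‖deriv (f d c)^[p] z‖ ^ k * (B / (δ / 2)) := by
    intro k
    obtain ⟨h, h1, h2, h3⟩ := Pool.Agent.H400R3.HI.branch hG hR0 (fun w hw => step hd hw) hδ
      (hnc (p * k)) (hzfix k)
    have h4 : ∀ s ∈ ball z δ, ‖h s‖ ≤ B := by
      intro s hs
      by_cases h5 : RR c ≤ ‖h s‖
      · have h6 := (far_iter hd h5 (p * k)).1
        rw [h3 s hs] at h6
        have h7 : ‖s‖ ≤ ‖z‖ + δ := by
          rw [mem_ball_iff_norm] at hs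
          have := norm_add_le (s - z) z
          rw [sub_add_cancel] at this
          linarith
        have h8 : (1 : ℝ) ≤ 2 ^ (p * k) := one_le_pow₀ (by norm_num)
        have h9 : ‖h s‖ ≤ 2 ^ (p * k) * ‖h s‖ := le_mul_of_one_le_left (norm_nonneg _) h8
        exact (h9.trans (h6.trans h7)).trans (le_max_right _ _)
      · exact (not_le.1 h5).le.trans (le_max_left _ _)
    have h5 : ‖deriv h z‖ ≤ B / (δ / 2) := by
      refine Complex.norm_deriv_le_of_forall_mem_sphere_norm_le (by positivity) ?_ ?_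
      · refine DifferentiableOn.diffContOnCl ?_
        rw [closure_ball _ (by positivity)]
        exact h1.mono (closedBall_subset_ball (by linarith))
      · intro s hs
        refine h4 s ?_
        rw [mem_sphere] at hs
        rw [mem_ball, hs]
        linarith
    have h6 := Pool.Agent.H400R3.HI.mul_deriv_branch (hG.iterate (p * k)) hδ h1 h3
    rw [h2] at h6
    have h7 : deriv (f d c)^[p * k] z = deriv (f d c)^[p] z ^ k := by
      have h8 : HasDerivAt (f d c)^[p] (deriv (f d c)^[p] z) z := (hG.iterate p z).hasDerivAt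
      have h9 := h8.iterate z hz k
      rw [← Function.iterate_mul] at h9
      exact h9.deriv
    rw [h7] at h6
    have h8 : ‖deriv (f d c)^[p] z ^ k * deriv h z‖ = 1 := by rw [h6, norm_one]
    rw [norm_mul, norm_pow] at h8
    rw [← h8]
    exact mul_le_mul_of_nonneg_left h5 (by positivity)
  have hlim : Tendsto (fun k : ℕ => ‖deriv (f d c)^[p] z‖ ^ k * (B / (δ / 2))) atTop (𝓝 0) := by
    have := (tendsto_pow_atTop_nhds_zero_of_lt_one (norm_nonneg _) ha).mul_const (B / (δ / 2))
    rwa [zero_mul] at this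
  have h10 := ge_of_tendsto' hlim key
  linarith

end Pool.Agent.X151.MR
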