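import Mathlib
import Pool.Agent.X151.MR.Exist
import Pool.Agent.X151.MR.Fatou

/-!
# Consequences of the semiconjugacy
-/

set_option autoImplicit false

open Topology Filter Metric Set

namespace Pool.Agent.X151.MR

open Pool.Agent.X151.LF (f K)

variable {d : ℕ} {c c' : ℂ} {F : ℂ → ℂ}

theorem conj_iter (hconj : ∀ z, F (f d c z) = f d c' (F z)) (n : ℕ) (z : ℂ) :
    (f d c')^[n] (F z) = F ((f d c)^[n] z) := by
  induction n with
  | zero => rfl
  | succ n ih =>
    rw [Function.iterate_succ_apply', Function.iterate_succ_apply', ih]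
    exact (hconj _).symm

theorem conj_K (hconj : ∀ z, F (f d c z) = f d c' (F z)) {B : ℝ} (hB : ∀ z, ‖F z - z‖ ≤ B) {z : ℂ} :
    F z ∈ K d c' ↔ z ∈ K d c := by
  constructor
  · rintro ⟨A, hA⟩
    refine ⟨A + B, fun n => ?_⟩
    have h1 := hA n
    rw [conj_iter hconj] at h1
    have h2 := hB ((f d c)^[n] z)
    rw [norm_sub_rev] at h2
    have h3 := norm_add_le ((f d c)^[n] z - F ((f d c)^[n] z)) (F ((f d c)^[n] z))
    rw [sub_add_cancel] at h3
    linarith
  · rintro ⟨A, hA⟩
    refine ⟨A + B, fun n => ?_⟩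
    rw [conj_iter hconj]
    have h1 := hA n
    have h2 := hB ((f d c)^[n] z)
    have h3 := norm_add_le (F ((f d c)^[n] z) - (f d c)^[n] z) ((f d c)^[n] z)
    rw [sub_add_cancel] at h3
    linarith

/-- no attracting cycles along the deformation -/
theorem conj_no_attr (hd : 2 ≤ d) (hint : interior (K d c) = ∅) (hF : Continuous F) (hF0 : F 0 = 0)
    (hconj : ∀ z, F (f d c z) = f d c' (F z)) {B : ℝ} (hB : ∀ z, ‖F z - z‖ ≤ B) {p : ℕ} (hp : 0 < p)
    {z : ℂ} (hz : (f d c')^[p] z = z) (ha : ‖deriv (f d c')^[p] z‖ < 1) : False := by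
  obtain ⟨m, hm⟩ := fatou hd hp hz ha
  have h1 : (f d c')^[m] 0 = F ((f d c)^[m] 0) := by
    rw [← conj_iter hconj, hF0]
  rw [h1] at hm
  have h2 : IsOpen (F ⁻¹' interior (K d c')) := isOpen_interior.preimage hF
  have h3 : F ⁻¹' interior (K d c') ⊆ K d c := fun w hw => (conj_K hconj hB).1 (interior_subset hw)
  have h4 : (f d c)^[m] 0 ∈ interior (K d c) := interior_maximal h3 h2 hm
  rw [hint] at h4
  exact h4

end Pool.Agent.X151.MR
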