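import Mathlib
import Pool.Agent.X151.MK.Level
import Pool.Agent.X151.LF.Dyn

/-!
# The kernel inequality for holomorphic discs of parameters
-/

set_option autoImplicit false

open Complex Topology Filter Metric MeasureTheory Set Polynomial N62a1eb23

namespace Pool.Agent.X151.MR.Up

open Pool.Agent.H713R2 Pool.Agent.H712R2 Pool.Agent.H713R2.AR Pool.Agent.X151.MH
open Pool.Agent.W746.LD (orb S hasDerivAt_orb orb_succ orb_zero P_eq_orb)
open Pool.Agent.X151.MU Pool.Agent.X151.MA Pool.Agent.X151.MD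
open Pool.Agent.X151.MK (dslope_tendsto int_tendsto eventually_notMem Fam ps vl dslope_of_ne')

variable {n : ℕ}

/-- The kernel inequality at level `j`. -/
theorem level_disc (hn : 2 ≤ n) {c : ℂ} {r : ℝ} (hr : 0 < r)
    (hsub : ball c r ⊆ multibrotSet n) {γ : ℂ → ℂ} (hγ : DifferentiableOn ℂ γ (ball 0 1))
    (hγM : ∀ t ∈ ball (0 : ℂ) 1, γ t ∈ multibrotSet n) (hγ0 : γ 0 = c) (j : ℕ)
    {ι κ : Type*} (I : Finset ι) (K : Finset κ) (a z : ι → ℂ) (b w : κ → ℂ)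
    (hz : ∀ i ∈ I, z i ∉ EE n c j) (hw : ∀ k ∈ K, w k ∉ EE n c j) :
    ‖deriv γ 0‖ ^ 2 * ‖∑ i ∈ I, ∑ k ∈ K, a i * b k *
        dslope (fun s => 1 - S n c s (j + 1)) (w k) (z i)‖ ^ 2 ≤
      (1 / Real.pi * ∫ s in EE n c j, ‖∑ i ∈ I, a i / (z i - s)‖ ^ 2) *
      (1 / Real.pi * ∫ s in EE n c j, ‖∑ k ∈ K, b k / (w k - s)‖ ^ 2) := by
  obtain ⟨G, hG⟩ := exists_seq hn
  have h0 : (0 : ℂ) ∈ ball (0 : ℂ) 1 := mem_ball_self one_pos
  have hcM : c ∈ multibrotSet n := hsub (mem_ball_self hr)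
  have hγa : ∀ t ∈ ball (0 : ℂ) 1, DifferentiableAt ℂ γ t := fun t ht =>
    (hγ t ht).differentiableAt (isOpen_ball.mem_nhds ht)
  set κ' : ℂ := deriv γ 0 with hκ'
  have hB : ∀ t ∈ ball (0 : ℂ) 1, Bd n (γ t) := fun t ht =>
    (mem_multibrot_iff hn _).mp (hγM t ht)
  have hcB : Bd n c := by have := hB 0 h0; rwa [hγ0] at this
  set R : ℝ := rad n j with hR
  set ρ : ℝ := rho n j with hρdef
  have hρ : 0 < ρ := rho_pos n j
  have hρR : ρ < R := rho_lt hn j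
  set g : ℂ → ℂ → ℂ := fun t x => G j (γ t, x) with hg
  have hext : ∀ t ∈ ball (0 : ℂ) 1, IsExt R (g t) := fun t ht => isExt_seq hn hG j (hB t ht)
  have hhol : ∀ a b, DifferentiableOn ℂ (fun t => pc (g t) a b) (ball 0 1) := fun a b =>
    pc_holo hn hG hγ hB j a b
  have hpar : ∀ x ∈ ball (0 : ℂ) R, DifferentiableOn ℂ (fun t => g t x) (ball 0 1) := by
    intro x hx t ht
    have h1 := seq_diff_param hn hG j (γ t) x
      (mem_AA_of_Bd hn ((mem_multibrot_iff hn _).mp (hγM t ht)) hx)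
    exact (h1.comp t (hγa t ht)).differentiableWithinAt
  have F : Fam R g := ⟨hext, hhol, hpar⟩
  -- the exterior map
  have himg : UU (g 0) ρ = (EE n c j)ᶜ := by
    have h1 := compl_UU_eq hn hG j hcB
    rw [← h1, compl_compl]
    simp only [hg, hγ0, hρdef]
  have hmem : ∀ x, x ≠ 0 → ‖x‖ < ρ → ps g 0 x ∈ (EE n c j)ᶜ := by
    intro x hx0 hx
    rw [← himg]
    exact ⟨x, ⟨hx0, hx⟩, rfl⟩
  have hbig : ∀ x, x ≠ 0 → ‖x‖ < ρ → 2 < ‖orb n c (ps g 0 x) j‖ := by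
    intro x hx0 hx
    have h2 : ¬ ‖orb n c (ps g 0 x) j‖ ≤ 3 := hmem x hx0 hx
    linarith
  set v : ℂ → ℂ := fun z => 1 - S n c z (j + 1) with hv
  set Vf : ℂ → ℂ := fun z => κ' * v z with hVf
  have hV1 : ∀ x, x ≠ 0 → ‖x‖ < ρ → Vf (ps g 0 x) = vl g x := by
    intro x hx0 hx
    have hxR : x ∈ ball (0 : ℂ) R := by
      rw [mem_ball_zero_iff]; exact hx.trans hρR
    have hAA : ∀ t ∈ ball c r, (t, x) ∈ AA n j := fun t ht =>
      mem_AA_of_Bd hn ((mem_multibrot_iff hn _).mp (hsub ht)) hxR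
    set β : ℂ → ℂ := fun t => x⁻¹ * G j (t, x) with hβ
    have h1 : DifferentiableOn ℂ β (ball c r) := fun t ht =>
      ((seq_diff_param hn hG j t x (hAA t ht)).const_mul _).differentiableWithinAt
    have h2 : β c = ps g 0 x := by simp only [hβ, ps, hg, hγ0]
    have h3 : ∀ t ∈ ball c r, orb n t (β t) j = orb n c (ps g 0 x) j := by
      intro t ht
      have h4 := (hG.isG j).conj t x (hAA t ht) hx0
      have h5 := (hG.isG j).conj c x (hAA c (mem_ball_self hr)) hx0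
      rw [← fc_iter_eq, ← fc_iter_eq, ← h2, hβ]
      simp only
      rw [h4, h5]
    have h4 := deriv_motion hn hr hsub (hbig x hx0 hx) h1 h2 h3
    have h5 : HasDerivAt γ κ' 0 := (hγa 0 h0).hasDerivAt
    have h6 : HasDerivAt β (v (ps g 0 x)) (γ 0) := by rw [hγ0]; exact h4
    have h7 : HasDerivAt (fun t => β (γ t)) (v (ps g 0 x) * κ') 0 := h6.comp 0 h5
    have h8 : vl g x = v (ps g 0 x) * κ' := h7.deriv
    rw [h8, hVf]
    simp only
    ring
  have hvd : ∀ s, s ∉ EE n c j → DifferentiableAt ℂ v s := by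
    intro s hs
    have h2 : ¬ ‖orb n c s j‖ ≤ 3 := hs
    apply DifferentiableAt.const_sub
    exact Pool.Agent.W746.LD.differentiableAt_S (j + 1) fun i _ =>
      Pool.Agent.W746.LD.P_ne_zero hn fun m hm =>
        orb_ne_of_big hn hcM (by linarith : 2 < ‖orb n c s j‖) m (by omega)
  have hV2 : ∀ x, x ≠ 0 → ‖x‖ < ρ → DifferentiableAt ℂ Vf (ps g 0 x) := fun x hx0 hx =>
    (hvd _ (hmem x hx0 hx)).const_mul _
  -- the coordinates
  have hex : ∀ s, s ∉ EE n c j → ∃ x, x ≠ 0 ∧ ‖x‖ < ρ ∧ ps g 0 x = s := by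
    intro s hs
    have h1 : s ∈ UU (g 0) ρ := by rw [himg]; exact hs
    obtain ⟨x, ⟨hx0, hx⟩, hxs⟩ := h1
    exact ⟨x, hx0, hx, hxs⟩
  classical
  set X : ι → ℂ := fun i => if h : z i ∉ EE n c j then (hex _ h).choose else 0 with hX
  set Y : κ → ℂ := fun k => if h : w k ∉ EE n c j then (hex _ h).choose else 0 with hY
  have hXs : ∀ i ∈ I, X i ≠ 0 ∧ ‖X i‖ < ρ ∧ ps g 0 (X i) = z i := by
    intro i hi
    have h1 : X i = (hex _ (hz i hi)).choose := by rw [hX]; exact dif_pos (hz i hi)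
    rw [h1]
    exact (hex _ (hz i hi)).choose_spec
  have hYs : ∀ k ∈ K, Y k ≠ 0 ∧ ‖Y k‖ < ρ ∧ ps g 0 (Y k) = w k := by
    intro k hk
    have h1 : Y k = (hex _ (hw k hk)).choose := by rw [hY]; exact dif_pos (hw k hk)
    rw [h1]
    exact (hex _ (hw k hk)).choose_spec
  have hker := F.kernel hρ hρR hV1 hV2 I K a X b Y (fun i hi => (hXs i hi).1)
    (fun i hi => (hXs i hi).2.1) (fun k hk => (hYs k hk).1) (fun k hk => (hYs k hk).2.1)
  have e1 : ∑ i ∈ I, ∑ k ∈ K, a i * b k * dslope Vf (ps g 0 (Y k)) (ps g 0 (X i)) =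
      κ' * ∑ i ∈ I, ∑ k ∈ K, a i * b k * dslope v (w k) (z i) := by
    rw [Finset.mul_sum]
    apply Finset.sum_congr rfl
    intro i hi
    rw [Finset.mul_sum]
    apply Finset.sum_congr rfl
    intro k hk
    rw [(hXs i hi).2.2, (hYs k hk).2.2]
    have h1 : dslope Vf (w k) (z i) = κ' * dslope v (w k) (z i) := by
      by_cases h : z i = w k
      · rw [h, dslope_same, dslope_same, hVf]
        exact ((hvd _ (hw k hk)).hasDerivAt.const_mul κ').deriv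
      · rw [dslope_of_ne' h, dslope_of_ne' h, hVf]
        simp only
        ring
    rw [h1]
    ring
  have e2 : (∫ s in (UU (g 0) ρ)ᶜ, ‖∑ i ∈ I, a i / (ps g 0 (X i) - s)‖ ^ 2) =
      ∫ s in EE n c j, ‖∑ i ∈ I, a i / (z i - s)‖ ^ 2 := by
    rw [himg, compl_compl]
    congr 1
    funext s
    congr 2
    apply Finset.sum_congr rfl
    intro i hi
    rw [(hXs i hi).2.2]
  have e3 : (∫ s in (UU (g 0) ρ)ᶜ, ‖∑ k ∈ K, b k / (ps g 0 (Y k) - s)‖ ^ 2) =
      ∫ s in EE n c j, ‖∑ k ∈ K, b k / (w k - s)‖ ^ 2 := by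
    rw [himg, compl_compl]
    congr 1
    funext s
    congr 2
    apply Finset.sum_congr rfl
    intro k hk
    rw [(hYs k hk).2.2]
  rw [e1, e2, e3, norm_mul, mul_pow] at hker
  exact hker

/-- The kernel inequality. -/
theorem kernel_disc (hn : 2 ≤ n) {c : ℂ} {r : ℝ} (hr : 0 < r) (hsub : ball c r ⊆ multibrotSet n)
    {γ : ℂ → ℂ} (hγ : DifferentiableOn ℂ γ (ball 0 1))
    (hγM : ∀ t ∈ ball (0 : ℂ) 1, γ t ∈ multibrotSet n) (hγ0 : γ 0 = c)
    {ι κ : Type*} (I : Finset ι) (K : Finset κ) (a z : ι → ℂ) (b w : κ → ℂ)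
    (hz : ∀ i ∈ I, Esc n c (z i)) (hw : ∀ k ∈ K, Esc n c (w k)) :
    ‖deriv γ 0‖ ^ 2 * ‖∑ i ∈ I, ∑ k ∈ K, a i * b k * dslope (V n c) (w k) (z i)‖ ^ 2 ≤
      (1 / Real.pi * ∫ s in KK n c, ‖∑ i ∈ I, a i / (z i - s)‖ ^ 2) *
      (1 / Real.pi * ∫ s in KK n c, ‖∑ k ∈ K, b k / (w k - s)‖ ^ 2) := by
  have hcM : c ∈ multibrotSet n := hsub (mem_ball_self hr)
  have hc2 : ‖c‖ ≤ 2 := norm_le_two_of_sub hn hcM
  have hL : Tendsto (fun j => ‖deriv γ 0‖ ^ 2 * ‖∑ i ∈ I, ∑ k ∈ K, a i * b k *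
      dslope (fun s => 1 - S n c s (j + 1)) (w k) (z i)‖ ^ 2) atTop
      (𝓝 (‖deriv γ 0‖ ^ 2 * ‖∑ i ∈ I, ∑ k ∈ K, a i * b k * dslope (V n c) (w k) (z i)‖ ^ 2)) := by
    apply Tendsto.const_mul
    apply Tendsto.pow
    apply Tendsto.norm
    apply tendsto_finsetSum
    intro i hi
    apply tendsto_finsetSum
    intro k hk
    exact (dslope_tendsto hn hcM (hz i hi) (hw k hk)).const_mul _
  have hR := ((int_tendsto hn hc2 I a z hz).const_mul (1 / Real.pi)).mul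
    ((int_tendsto hn hc2 K b w hw).const_mul (1 / Real.pi))
  refine le_of_tendsto_of_tendsto hL hR ?_
  filter_upwards [(Filter.eventually_all_finset I).mpr fun i hi => eventually_notMem (hz i hi),
    (Filter.eventually_all_finset K).mpr fun k hk => eventually_notMem (hw k hk)] with j h1 h2
  exact level_disc hn hr hsub hγ hγM hγ0 j I K a z b w h1 h2

end Pool.Agent.X151.MR.Up
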