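import Mathlib
import Pool.Agent.X151.MR.Up
import Pool.Agent.X151.LF.Dyn

/-!
# The extremal value and holomorphic discs of parameters
-/

set_option autoImplicit false

open Filter Topology Metric MeasureTheory Set

namespace Pool.Agent.X151.MR

open Pool.Agent.X151.LF
open Pool.Agent.X151.MU (Esc V V_orb tendsto_S summable_esc esc_ne_zero far)

/-- the kernel inequality for the velocity -/
theorem kern {d : ℕ} (hd : 2 ≤ d) {c : ℂ} {r₀ : ℝ} (hr₀ : 0 < r₀)
    (hsub : ∀ c' ∈ ball c r₀, (0 : ℂ) ∈ K d c') {γ : ℂ → ℂ} (hγ : DifferentiableOn ℂ γ (ball 0 1))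
    (hγM : ∀ t ∈ ball (0 : ℂ) 1, (0 : ℂ) ∈ K d (γ t)) (hγ0 : γ 0 = c) {r : ℝ} (hr : 0 < r)
    (hrγ : r = ‖deriv γ 0‖) (a b : Off (K d c) →₀ ℂ) :
    ‖a.sum fun z v => b.sum fun w v' => v * v' * dslope (V d c) w.1 z.1‖ ≤
      1 / (Real.pi * r) * ‖io (isCompact_K hd c) a‖ * ‖io (isCompact_K hd c) b‖ := by
  have hpi := Real.pi_pos
  have h1 := Up.kernel_disc hd hr₀
    (fun c' hc' => (multi_iff hd).2 (hsub c' hc')) hγ (fun t ht => (multi_iff hd).2 (hγM t ht)) hγ0
    a.support b.support a (fun z => z.1) b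
    (fun w => w.1) (fun z _ => (esc_iff hd).1 z.2) (fun w _ => (esc_iff hd).1 w.2)
  rw [← K_eq hd, ← hrγ] at h1
  have h2 := norm_io (isCompact_K hd c) a
  have h3 := norm_io (isCompact_K hd c) b
  simp only [qf_eq] at h2 h3
  rw [← h2, ← h3] at h1
  have h4 : (a.sum fun z v => b.sum fun w v' => v * v' * dslope (V d c) w.1 z.1) =
      ∑ i ∈ a.support, ∑ k ∈ b.support, a i * b k * dslope (V d c) k.1 i.1 := rfl
  rw [h4]
  refine le_of_sq_le_sq ?_ (by positivity)
  have h5 : (1 / (Real.pi * r) * ‖io (isCompact_K hd c) a‖ * ‖io (isCompact_K hd c) b‖) ^ 2 =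
      (1 / Real.pi * ‖io (isCompact_K hd c) a‖ ^ 2) * (1 / Real.pi * ‖io (isCompact_K hd c) b‖ ^ 2) /
        r ^ 2 := by
    field_simp
  rw [h5, le_div_iff₀ (by positivity), mul_comm]
  exact h1

theorem stable {d : ℕ} (hd : 2 ≤ d) {c : ℂ} {r : ℝ} (hr : 0 < r) (hc : (0 : ℂ) ∈ K d c)
    (hkern : ∀ a b : Off (K d c) →₀ ℂ,
      ‖a.sum fun z v => b.sum fun w v' => v * v' * dslope (V d c) w.1 z.1‖ ≤
      1 / (Real.pi * r) * ‖io (isCompact_K hd c) a‖ * ‖io (isCompact_K hd c) b‖)
    (hint : interior (K d c) = ∅) :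
    ∃ μ : ℂ → ℂ, Bd d c μ (d / (Real.pi * r)) ∧ pb d c μ =ᵐ[volume] μ ∧
      ∫ z, μ z * z ^ (d - 2) = 1 := by
  have hpi := Real.pi_pos
  have hK := isCompact_K hd c
  have hdR : (0 : ℝ) < d := by
    have : 0 < d := by omega
    exact_mod_cast this
  have hdC : (d : ℂ) ≠ 0 := by exact_mod_cast hdR.ne'
  obtain ⟨μ₀, hm, hb, hs, hV⟩ := bil hK (compl_connected hd c) hint (V := V d c)
    (C := 1 / (Real.pi * r)) (by positivity) hkern (V_zero hd hc)
  set μ : ℂ → ℂ := fun z => d * μ₀ z with hμ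
  have hbd : Bd d c μ (d / (Real.pi * r)) := by
    refine ⟨hm.const_mul _, fun z => ?_, fun z hz => ?_⟩
    · rw [hμ]
      beta_reduce
      rw [norm_mul, Complex.norm_natCast, div_eq_mul_one_div]
      exact mul_le_mul_of_nonneg_left (hb z) hdR.le
    · rw [hμ]
      beta_reduce
      rw [hs z hz, mul_zero]
  have hF : ∀ z, z ∉ K d c → ∫ s, μ s * (1 / (z - s)) = -(d * V d c z) := by
    intro z hz
    have h1 : ∀ s, μ s * (1 / (z - s)) = d * (μ₀ s * (1 / (z - s))) := fun s => by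
      rw [hμ]
      ring
    rw [integral_congr_ae (Eventually.of_forall h1), integral_const_mul, hV z hz]
    ring
  have hp := pb_bd hbd
  set mν : ℂ := ∫ s, pb d c μ s * s ^ (d - 2) with hmν
  have hkey : ∀ z, z ∉ K d c →
      z ^ (d - 1) * ∫ s, (pb d c μ s - μ s) * (1 / (z - s)) = mν - 1 := by
    intro z hz
    have h1 := transform hd hbd hz
    have h2 : f d c z ∉ K d c := fun h => hz (f_mem_iff.1 h)
    rw [hF _ h2, V_f hd hc hz] at h1
    have hcz : ContinuousOn (fun s : ℂ => 1 / (z - s)) (K d c) := cker ⟨z, hz⟩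
    have h3 : ∫ s, (pb d c μ s - μ s) * (1 / (z - s)) =
        (∫ s, pb d c μ s * (1 / (z - s))) - ∫ s, μ s * (1 / (z - s)) := by
      rw [← integral_sub (int_mulOn hK (hp.integrable hd) hp.supp hcz)
        (int_mulOn hK (hbd.integrable hd) hbd.supp hcz)]
      refine integral_congr_ae (Eventually.of_forall fun s => ?_)
      beta_reduce
      ring
    rw [h3, hF z hz]
    rw [deriv_f] at h1
    have h4 : (d : ℂ) * (z ^ (d - 1) * ((∫ s, pb d c μ s * (1 / (z - s))) - -(d * V d c z))) =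
        d * (mν - 1) := by
      rw [hmν]
      linear_combination h1
    exact mul_left_cancel₀ hdC h4
  -- all moments of the difference but one vanish
  have hui : Integrable fun s => pb d c μ s - μ s := (hp.integrable hd).sub (hbd.integrable hd)
  have hus : ∀ z, z ∉ K d c → pb d c μ z - μ z = 0 := fun z hz => by
    rw [hp.supp z hz, hbd.supp z hz, sub_zero]
  have hR : ∀ s ∈ K d c, ‖s‖ ≤ RR c := fun s hsK => by
    have := K_sub hd c hsK
    rwa [mem_closedBall, dist_zero_right] at this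
  have hmom : ∀ k : ℕ, ∫ s, (pb d c μ s - μ s) * s ^ k = if k = d - 2 then mν - 1 else 0 := by
    refine moments_pow hK (RR_pos c).le hR hui hus ?_
    have h2 : ∀ᶠ n : ℕ in atTop, RR c < (n : ℝ) :=
      (tendsto_natCast_atTop_atTop (R := ℝ)).eventually_gt_atTop _
    filter_upwards [h2] with n hn
    have hnn : ‖(n : ℂ)‖ = n := by simp
    have hnK : (n : ℂ) ∉ K d c := not_mem_of_far hd (by rw [hnn]; exact hn.le)
    have h3 := hkey n hnK
    have h4 : d - 2 + 1 = d - 1 := by omega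
    rw [h4]
    rw [← h3]
    congr 1
    refine integral_congr_ae (Eventually.of_forall fun s => ?_)
    beta_reduce
    rw [mul_one_div]
  have hinv : pb d c μ =ᵐ[volume] μ := by
    have h5 : ∀ᵐ z, (pb d c μ z - μ z) * z ^ (d - 1) = 0 := by
      refine ae_zero hK (compl_connected hd c) hint
        (int_mul hK hui hus (continuous_pow (d - 1))) (fun z hz => by rw [hus z hz, zero_mul])
        fun k => ?_
      have e : ∀ z, (pb d c μ z - μ z) * z ^ (d - 1) * z ^ k =
          (pb d c μ z - μ z) * z ^ (d - 1 + k) := fun z => by rw [pow_add]; ring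
      rw [integral_congr_ae (Eventually.of_forall e), hmom, if_neg (by omega)]
    have h3 : ∀ᵐ z : ℂ, z ≠ 0 := by
      rw [ae_iff]
      simp
    filter_upwards [h5, h3] with z hz hz0
    rcases mul_eq_zero.1 hz with h4 | h4
    · exact sub_eq_zero.1 h4
    · exact absurd h4 (pow_ne_zero _ hz0)
  refine ⟨μ, hbd, hinv, ?_⟩
  have h6 := hmom (d - 2)
  rw [if_pos rfl] at h6
  have h7 : ∫ s, (pb d c μ s - μ s) * s ^ (d - 2) = 0 := by
    have : (fun s => (pb d c μ s - μ s) * s ^ (d - 2)) =ᵐ[volume] fun _ => (0 : ℂ) := by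
      filter_upwards [hinv] with s hs
      rw [hs, sub_self, zero_mul]
    rw [integral_congr_ae this, integral_zero]
  have h8 : mν = 1 := by
    rw [h7] at h6
    exact (sub_eq_zero.1 h6.symm)
  rw [← h8, hmν]
  refine integral_congr_ae ?_
  filter_upwards [hinv] with s hs
  rw [hs]

/-- the extremal value and a kernel inequality -/
theorem stable_lam {d : ℕ} (hd : 2 ≤ d) {c : ℂ} {r : ℝ} (hr : 0 < r) (hc : (0 : ℂ) ∈ K d c)
    (hkern : ∀ a b : Off (K d c) →₀ ℂ,
      ‖a.sum fun z v => b.sum fun w v' => v * v' * dslope (V d c) w.1 z.1‖ ≤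
      1 / (Real.pi * r) * ‖io (isCompact_K hd c) a‖ * ‖io (isCompact_K hd c) b‖)
    (hint : interior (K d c) = ∅) :
    Real.pi * r ≤ d * lam d c := by
  have hpi := Real.pi_pos
  have hdR : (0 : ℝ) < d := by
    have : 0 < d := by omega
    exact_mod_cast this
  obtain ⟨μ, hb, hinv, hone⟩ := stable hd hr hc hkern hint
  have h1 : Real.pi * r / d ≤ lam d c := by
    refine le_lam hd fun p => ?_
    have h2 := int_eval hd hb hinv p
    rw [hone, one_mul] at h2
    rw [← h2, div_mul_eq_mul_div, div_le_iff₀ hdR, ← integral_indicator (isCompact_K hd c).measurableSet,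
      mul_comm (∫ x, _) (d : ℝ), ← le_div_iff₀' (by positivity), mul_div_right_comm,
      ← integral_const_mul]
    refine norm_integral_le_of_norm_le ?_ (Eventually.of_forall fun z => ?_)
    · refine Integrable.const_mul ?_ _
      rw [integrable_indicator_iff (isCompact_K hd c).measurableSet]
      exact p.continuous.norm.continuousOn.integrableOn_compact (isCompact_K hd c)
    · rw [norm_mul]
      by_cases hz : z ∈ K d c
      · rw [indicator_of_mem hz]
        exact mul_le_mul_of_nonneg_right (hb.bound z) (norm_nonneg _)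
      · rw [indicator_of_notMem hz, hb.supp z hz, norm_zero, zero_mul, mul_zero]
  rw [div_le_iff₀ hdR] at h1
  linarith


/-- **the extremal value bounds the derivatives of holomorphic discs of parameters** -/
theorem disc_lam {d : ℕ} (hd : 2 ≤ d) {c : ℂ} (hint : interior (K d c) = ∅) {γ : ℂ → ℂ}
    (hγ : DifferentiableOn ℂ γ (ball 0 1)) (hγM : ∀ t ∈ ball (0 : ℂ) 1, (0 : ℂ) ∈ K d (γ t))
    (hγ0 : γ 0 = c) : Real.pi * ‖deriv γ 0‖ ≤ d * lam d c := by
  have hdR : (0 : ℝ) < d := by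
    have : 0 < d := by omega
    exact_mod_cast this
  by_cases h0 : deriv γ 0 = 0
  · rw [h0, norm_zero, mul_zero]
    exact mul_nonneg hdR.le (lam_nonneg d c)
  have hb : ball (0 : ℂ) 1 ∈ 𝓝 (0 : ℂ) := isOpen_ball.mem_nhds (mem_ball_self one_pos)
  have hs : HasStrictDerivAt γ (deriv γ 0) 0 := (hγ.analyticAt hb).hasStrictDerivAt
  have h1 := hs.map_nhds_eq h0
  rw [hγ0] at h1
  have h2 : {c' : ℂ | (0 : ℂ) ∈ K d c'} ∈ 𝓝 c := by
    rw [← h1, mem_map]
    filter_upwards [hb] with t ht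
    exact hγM t ht
  obtain ⟨r₀, hr₀, hsub⟩ := Metric.mem_nhds_iff.1 h2
  have hc : (0 : ℂ) ∈ K d c := hsub (mem_ball_self hr₀)
  have hr : 0 < ‖deriv γ 0‖ := norm_pos_iff.2 h0
  exact stable_lam hd hr hc (fun a b => kern hd hr₀ (fun c' hc' => hsub hc') hγ hγM hγ0 hr rfl a b) hint

end Pool.Agent.X151.MR
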