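import Mathlib
import Pool.Prelude.Def_F_c31e40fa
import Pool.Agent.X151.MR.Conj
import Pool.Agent.X151.MR.Up2
import Pool.Agent.X151.LF.Line
import Pool.Agent.Helper114.MontelSol
import Pool.Agent.H713R2.AR.HB

/-!
# The exact value of the conformal radius
-/

set_option autoImplicit false

open Topology Filter Metric Set MeasureTheory N62a1eb23

namespace Pool.Agent.X151.MR

open Pool.Agent.X151.LF (f K lam LineField exists_lineField lam_nonneg multi_iff)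

theorem norm_two {d : ℕ} (hd : 2 ≤ d) {c : ℂ} (hc : (0 : ℂ) ∈ K d c) : ‖c‖ ≤ 2 :=
  Pool.Agent.X151.MU.norm_le_two_of_sub hd ((multi_iff hd).2 hc)

/-- the rescaled family of a line field -/
theorem disc_p {p : ℝ} (hp : 2 < p) {d : ℕ} (hd : 2 ≤ d) {c : ℂ} (hc : (0 : ℂ) ∈ K d c)
    {μ : ℂ → ℂ} (hμ : LineField d c μ) :
    ∃ g : ℂ → ℂ, DifferentiableOn ℂ g (ball 0 1) ∧ (∀ t ∈ ball (0 : ℂ) 1, (0 : ℂ) ∈ K d (g t)) ∧
      g 0 = c ∧ deriv g 0 = -(d / Real.pi) * (∫ z, μ z * z ^ (d - 2)) / ((p - 1 : ℝ) : ℂ) := by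
  have hF : Fact (2 < p) := ⟨hp⟩
  obtain ⟨g, h1, h2, h3⟩ := family (p := p) hd (hμ.bd hd) hμ.pb_eq
  have hp1 : 0 < p - 1 := by linarith
  have hp1C : ((p - 1 : ℝ) : ℂ) ≠ 0 := by exact_mod_cast hp1.ne'
  have hm : ∀ t ∈ ball (0 : ℂ) 1, ‖t / ((p - 1 : ℝ) : ℂ)‖ * (p - 1) < 1 := by
    intro t ht
    rw [mem_ball_zero_iff] at ht
    rw [norm_div, Complex.norm_real, Real.norm_of_nonneg hp1.le, div_mul_cancel₀ _ hp1.ne']
    exact ht
  have hd1 : ∀ t : ℂ, HasDerivAt (fun t : ℂ => t / ((p - 1 : ℝ) : ℂ)) (1 / ((p - 1 : ℝ) : ℂ)) t :=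
    fun t => (hasDerivAt_id t).div_const _
  refine ⟨fun t => g (t / ((p - 1 : ℝ) : ℂ)), fun t ht => ?_, fun t ht => ?_, ?_, ?_⟩
  · exact ((h1 _ (hm t ht)).1.comp t (hd1 t).differentiableAt).differentiableWithinAt
  · obtain ⟨-, F, -, F0, ⟨B, hB⟩, hconj⟩ := h1 _ (hm t ht)
    have h4 : F 0 ∈ K d (g (t / ((p - 1 : ℝ) : ℂ))) := (conj_K hconj hB).2 hc
    rwa [F0] at h4
  · beta_reduce
    rw [zero_div, h2]
  · have h4 : HasDerivAt g (-(d / Real.pi) * ∫ z, μ z * z ^ (d - 2)) (0 / ((p - 1 : ℝ) : ℂ)) := by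
      rw [zero_div]
      exact h3
    have h5 := (h4.comp (0 : ℂ) (hd1 0)).deriv
    have h6 : (g ∘ fun t : ℂ => t / ((p - 1 : ℝ) : ℂ)) = fun t => g (t / ((p - 1 : ℝ) : ℂ)) := rfl
    rw [h6] at h5
    rw [h5, mul_one_div]

/-- **the extremal disc** -/
theorem exists_disc {d : ℕ} (hd : 2 ≤ d) {c : ℂ} (hc : (0 : ℂ) ∈ K d c)
    (hint : interior (K d c) = ∅) :
    ∃ g : ℂ → ℂ, DifferentiableOn ℂ g (ball 0 1) ∧ (∀ t ∈ ball (0 : ℂ) 1, (0 : ℂ) ∈ K d (g t)) ∧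
      g 0 = c ∧ ‖deriv g 0‖ = d / Real.pi * lam d c := by
  rcases (lam_nonneg d c).eq_or_lt with h0 | h0
  · refine ⟨fun _ => c, differentiableOn_const _, fun _ _ => hc, rfl, ?_⟩
    rw [← h0, mul_zero, deriv_const, norm_zero]
  obtain ⟨μ, hμ⟩ := exists_lineField hd hint h0
  set m := ∫ z, μ z * z ^ (d - 2) with hm
  have hlam : lam d c = ‖m‖ := hμ.lam_eq hd hint
  set q : ℕ → ℝ := fun k => 2 + 1 / ((k : ℝ) + 1) with hq
  have hq2 : ∀ k, 2 < q k := fun k => by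
    have : 0 < 1 / ((k : ℝ) + 1) := by positivity
    rw [hq]
    linarith
  choose G h1 h2 h3 h4 using fun k => disc_p (hq2 k) hd hc hμ
  obtain ⟨Φ, hΦ, hlim⟩ := Pool.Agent.Helper114.Montel.montel isOpen_ball G h1 2
    (fun k t ht => norm_two hd (h2 k t ht)) (hyperfilter ℕ)
  have h0m : (0 : ℂ) ∈ ball (0 : ℂ) 1 := mem_ball_self one_pos
  have hcl : IsClosed {c' : ℂ | (0 : ℂ) ∈ K d c'} := by
    have h5 := (Pool.Agent.H712R2.isCompact_multibrot hd).isClosed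
    have h6 : {c' : ℂ | (0 : ℂ) ∈ K d c'} = multibrotSet d := by
      ext c'
      exact (multi_iff hd).symm
    rw [h6]
    exact h5
  refine ⟨Φ, hΦ, fun t ht => ?_, ?_, ?_⟩
  · exact hcl.mem_of_tendsto (hlim.tendsto_at ht) (Eventually.of_forall fun k => h2 k t ht)
  · have h5 : Tendsto (fun k => G k 0) (hyperfilter ℕ : Filter ℕ) (𝓝 (Φ 0)) := hlim.tendsto_at h0m
    simp only [h3] at h5
    exact (tendsto_nhds_unique h5 tendsto_const_nhds)
  · have h5 := (hlim.deriv (Eventually.of_forall h1) isOpen_ball).tendsto_at h0m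
    have h6 : Tendsto (fun k : ℕ => (((q k - 1 : ℝ)) : ℂ)) (hyperfilter ℕ : Filter ℕ) (𝓝 1) := by
      have h7 : Tendsto q atTop (𝓝 (2 + 0)) := tendsto_const_nhds.add tendsto_one_div_add_atTop_nhds_zero_nat
      have h8 : Tendsto (fun k => q k - 1) atTop (𝓝 (2 + 0 - 1)) := h7.sub_const 1
      have h9 : Tendsto (fun k : ℕ => (((q k - 1 : ℝ)) : ℂ)) atTop (𝓝 ((2 + 0 - 1 : ℝ) : ℂ)) :=
        (Complex.continuous_ofReal.tendsto _).comp h8
      rw [show (2 + 0 - 1 : ℝ) = 1 by norm_num, Complex.ofReal_one] at h9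
      exact h9.mono_left Nat.hyperfilter_le_atTop
    have h7 : Tendsto (fun k => deriv (G k) 0) (hyperfilter ℕ : Filter ℕ)
        (𝓝 (-(d / Real.pi) * m / 1)) := by
      simp only [h4]
      exact tendsto_const_nhds.div h6 one_ne_zero
    have h8 : deriv Φ 0 = -(d / Real.pi) * m / 1 := tendsto_nhds_unique h5 h7
    rw [h8, div_one, norm_mul, norm_neg, norm_div, Complex.norm_natCast, Complex.norm_real,
      Real.norm_of_nonneg Real.pi_pos.le, hlam]

/-- near a parameter with a line field there are no attracting cycles -/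
theorem no_attr_near {d : ℕ} (hd : 2 ≤ d) {c : ℂ} (hint : interior (K d c) = ∅)
    (h0 : 0 < lam d c) :
    ∀ᶠ c' in 𝓝 c, ¬ ∃ m z, IsAttractingCycle (f d c') m z := by
  have hF : Fact ((2 : ℝ) < 3) := ⟨by norm_num⟩
  obtain ⟨μ, hμ⟩ := exists_lineField hd hint h0
  obtain ⟨g, h1, h2, h3⟩ := family (p := 3) hd (hμ.bd hd) hμ.pb_eq
  have hm0 : (∫ z, μ z * z ^ (d - 2)) ≠ 0 := by
    intro h
    have := hμ.lam_eq hd hint
    rw [h, norm_zero] at this
    linarith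
  have hdC : (d : ℂ) ≠ 0 := by
    have : d ≠ 0 := by omega
    exact_mod_cast this
  have hpi : (Real.pi : ℂ) ≠ 0 := by exact_mod_cast Real.pi_ne_zero
  have hne : -(d / Real.pi : ℂ) * ∫ z, μ z * z ^ (d - 2) ≠ 0 :=
    mul_ne_zero (neg_ne_zero.2 (div_ne_zero hdC hpi)) hm0
  have hball : ∀ t ∈ ball (0 : ℂ) (1 / 2), ‖t‖ * ((3 : ℝ) - 1) < 1 := by
    intro t ht
    rw [mem_ball_zero_iff] at ht
    linarith
  have hdiff : DifferentiableOn ℂ g (ball 0 (1 / 2)) := fun t ht =>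
    (h1 t (hball t ht)).1.differentiableWithinAt
  have hb : ball (0 : ℂ) (1 / 2) ∈ 𝓝 (0 : ℂ) := isOpen_ball.mem_nhds (mem_ball_self (by norm_num))
  have hs : HasStrictDerivAt g (deriv g 0) 0 := (hdiff.analyticAt hb).hasStrictDerivAt
  rw [h3.deriv] at hs
  have h4 := hs.map_nhds_eq hne
  rw [h2] at h4
  rw [← h4]
  rw [eventually_map]
  filter_upwards [hb] with t ht
  rintro ⟨m, z, hm, hz, -, ha⟩
  obtain ⟨-, F, hFc, F0, ⟨B, hB⟩, hconj⟩ := h1 t (hball t ht)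
  exact conj_no_attr hd hint hFc F0 hconj hB hm hz ha

/-- parameters whose extremal value vanishes are limits of parameters with an attracting cycle -/
theorem closure_of_lam {d : ℕ} (hd : 2 ≤ d) {c : ℂ} (hc : (0 : ℂ) ∈ K d c)
    (hint : interior (K d c) = ∅) (h0 : lam d c = 0) :
    c ∈ closure {c' | ∃ m z, IsAttractingCycle (f d c') m z} := by
  by_contra hcon
  have h1 : (closure {c' | ∃ m z, IsAttractingCycle (f d c') m z})ᶜ ∈ 𝓝 c :=
    isClosed_closure.isOpen_compl.mem_nhds hcon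
  obtain ⟨r, hr, hsub⟩ := Metric.mem_nhds_iff.1 h1
  have h2 : ball c r ⊆ multibrotSet d := Pool.Agent.H713R2.AR.ball_subset hd hr ((multi_iff hd).2 hc)
    fun c' hc' h => hsub hc' (subset_closure h)
  have h3 := disc_lam hd hint (γ := fun t => c + r * t) (by fun_prop) (fun t ht => by
    refine (multi_iff hd).1 (h2 ?_)
    rw [mem_ball_zero_iff] at ht
    rw [mem_ball_iff_norm, add_sub_cancel_left, norm_mul, Complex.norm_real, Real.norm_of_nonneg hr.le]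
    nlinarith) (by simp)
  have h4 : deriv (fun t : ℂ => c + r * t) 0 = r := by simp
  rw [h4, h0, mul_zero, Complex.norm_real, Real.norm_of_nonneg hr.le] at h3
  have := Real.pi_pos
  nlinarith

end Pool.Agent.X151.MR
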